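import Pool.Agent.Full.Def.Stat
import Pool.Agent.Full.End.Iface
import Pool.Agent.Full.Asm.L7

/-!
# FULL, combs: the one arm bounds of the polygon from the lattice statements on shapes

`Fits B S m U`: the shape `S` with the marks `m` refines the coarse polygon `B`, with `U` units per cell, up to a bounded
number of cells.
-/

set_option autoImplicit false

open Complex Set Filter Topology Metric H47Perc

namespace Full

/-! ### the observable is bounded -/

lemma norm_obs_le {τ : Type*} [DecidableEq τ] (T : Finset τ) (w : Half τ → Half τ) (z : Half τ) (e : Fin 3 → Half τ) :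
    ‖obs T w z e‖ ≤ 3 := by
  unfold obs
  refine (norm_sum_le _ _).trans ?_
  have h : ∀ j ∈ (Finset.univ : Finset (Fin 3)), ‖Complex.exp (2 * Real.pi * Complex.I / 3) ^ (j : ℕ) *
      ((Pool.Agent.Helper69.RSW.P T (fun ω => other (mate ω) w z = e j) : ℝ) : ℂ)‖ ≤ 1 := by
    intro j _
    have e1 : (2 * Real.pi * Complex.I / 3 : ℂ) = ((2 * Real.pi / 3 : ℝ) : ℂ) * Complex.I := by push_cast; ring
    rw [norm_mul, norm_pow, e1, Complex.norm_exp_ofReal_mul_I, one_pow, one_mul, Complex.norm_real, Real.norm_eq_abs,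
      abs_of_nonneg (Pool.Agent.Helper69.RSW.P_nonneg _ _)]
    exact Pool.Agent.Helper69.RSW.P_le_one _ _
  refine (Finset.sum_le_sum h).trans ?_
  simp

namespace Shape
variable {S : Shape} (m : S.Marks) (n : ℕ)

open Classical in
lemma norm_avSh_le {p : Sh S n → Prop} {f : Sh S n → ℂ} {C : ℝ} (hC : 0 ≤ C) (h : ∀ a, p a → ‖f a‖ ≤ C) :
    ‖avSh n p f‖ ≤ C := by
  unfold avSh
  rw [norm_div, Complex.norm_natCast]
  rcases Nat.eq_zero_or_pos (Finset.univ.filter p).card with h0 | h0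
  · rw [h0]; simpa using hC
  · rw [div_le_iff₀ (by exact_mod_cast h0)]
    refine (norm_sum_le _ _).trans ?_
    have h1 : ∀ a ∈ (Finset.univ : Finset (Sh S n)), ‖(if p a then f a else 0 : ℂ)‖ ≤ if p a then C else 0 := by
      intro a _
      split_ifs with ha
      · exact h a ha
      · simp
    refine (Finset.sum_le_sum h1).trans ?_
    rw [← Finset.sum_filter, Finset.sum_const, nsmul_eq_mul, mul_comm]

lemma norm_Fz_le (q : S.Q) (x y : ℤ) (a : Sh S n) : ‖Fz m n q x y a‖ ≤ 3 := by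
  unfold Fz
  split_ifs with h
  · exact norm_obs_le _ _ _ _
  · simp

lemma norm_F_le (z : ℂ) : ‖F m n z‖ ≤ 3 := by
  unfold F
  split_ifs with h
  · exact norm_avSh_le n (by norm_num) fun a _ => norm_Fz_le m n _ _ _ a
  · simp

end Shape

/-! ### the polygon: balls -/

namespace Coarse
variable (B : Coarse)

lemma Far.mono {B : Coarse} {s : ℕ → Prop} {z w : ℂ} {R R' : ℝ} (h : B.Far s z R) (hw : ‖w - z‖ + R' ≤ R) :
    B.Far s w R' := by
  intro i hi hs
  have h1 := h i hi hs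
  have h2 : ‖z - cp (B.v i)‖ ≤ ‖w - z‖ + ‖w - cp (B.v i)‖ := by
    have : z - cp (B.v i) = -(w - z) + (w - cp (B.v i)) := by ring
    rw [this]
    refine (norm_add_le _ _).trans ?_
    rw [norm_neg]
  linarith

/-- a point of the closed unit cell `p` is at distance at most `√2 < 3/2` from its corners -/
lemma norm_sub_le_of {z w : ℂ} {a b : ℝ} (h1 : |z.re - w.re| ≤ a) (h2 : |z.im - w.im| ≤ b) : ‖z - w‖ ≤ a + b := by
  have h3 := Complex.norm_le_abs_re_add_abs_im (z - w)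
  rw [sub_re, sub_im] at h3
  linarith

/-- neighbouring cells far from the polygon are on the same side -/
lemma sc_step {z : ℂ} {R : ℝ} (h : B.Far (fun _ => True) z R) (w : ℤ × ℤ) (k : Fin 4)
    (hw : ‖z - cp w‖ < R) : sc B.n B.v (quad w k) = sc B.n B.v (quad w (k - 1)) := by
  have h1 := B.poly.toCWalk.step w k
  have h2 : flow B.n B.v w (w + dir k) = 0 := by
    refine flow_eq_zero fun i hi => ⟨fun h3 => ?_, fun h3 => ?_⟩
    · have := h i hi trivial
      rw [h3.1] at this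
      linarith
    · rcases Nat.lt_or_ge (i + 1) B.n with h4 | h4
      · have := h (i + 1) h4 trivial
        rw [h3.2] at this
        linarith
      · have h5 : i + 1 = B.n := by omega
        have h6 : w = B.v 0 := by rw [← h3.2, h5, B.poly.closed]
        have := h 0 (by omega) trivial
        rw [← h6] at this
        linarith
  omega

lemma int_const {f : ℤ → ℤ} {a b : ℤ} (h : ∀ x, min a b < x → x ≤ max a b → f (x - 1) = f x) : f a = f b := by
  have key : ∀ (k : ℕ) (a : ℤ), (∀ x, a < x → x ≤ a + k → f (x - 1) = f x) → f a = f (a + k) := by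
    intro k
    induction k with
    | zero => intro a _; simp
    | succ k ih =>
      intro a ha
      have h1 := ih a fun x h1 h2 => ha x h1 (by push_cast; omega)
      have h2 := ha (a + (k + 1 : ℕ)) (by push_cast; omega) le_rfl
      rw [h1, ← h2]
      congr 1
      push_cast
      ring
  rcases le_total a b with h1 | h1
  · have := key (b - a).toNat a fun x h2 h3 => h x (by rw [min_eq_left h1]; exact h2) (by rw [max_eq_right h1]; omega)
    rw [this]
    congr 1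
    omega
  · have := key (a - b).toNat b fun x h2 h3 => h x (by rw [min_eq_right h1]; exact h2) (by rw [max_eq_left h1]; omega)
    rw [this]
    congr 1
    omega

lemma norm_le_of_abs {a b c : ℝ} (h : |a| ≤ |c|) : ‖(⟨b, a⟩ : ℂ)‖ ≤ ‖(⟨b, c⟩ : ℂ)‖ := by
  rw [← sq_le_sq₀ (norm_nonneg _) (norm_nonneg _), Complex.sq_norm, Complex.sq_norm, Complex.normSq_mk, Complex.normSq_mk]
  have := sq_le_sq.2 h
  nlinarith

/-- a ball which does not meet the polygon is inside -/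
lemma sc_cell_eq {z w : ℂ} {R r : ℝ} (h : B.Far (fun _ => True) z R) (hw : ‖w - z‖ ≤ r) (hr : r + 2 ≤ R) :
    sc B.n B.v (cell w) = sc B.n B.v (cell z) := by
  have hr' : |w.re - z.re| ≤ r := (by simpa using Complex.abs_re_le_norm (w - z) : |w.re - z.re| ≤ ‖w - z‖).trans hw
  have fz1 := Int.floor_le z.re
  have fz2 := Int.lt_floor_add_one z.re
  have fz3 := Int.floor_le z.im
  have fz4 := Int.lt_floor_add_one z.im
  have fw1 := Int.floor_le w.re
  have fw2 := Int.lt_floor_add_one w.re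
  have fw3 := Int.floor_le w.im
  have fw4 := Int.lt_floor_add_one w.im
  -- horizontal
  have e1 : sc B.n B.v (⌊z.re⌋, ⌊z.im⌋) = sc B.n B.v (⌊w.re⌋, ⌊z.im⌋) := by
    refine int_const (f := fun x => sc B.n B.v (x, ⌊z.im⌋)) fun x h1 h2 => ?_
    have hx : |z.re - x| ≤ |w.re - z.re| := by
      rcases le_total ⌊z.re⌋ ⌊w.re⌋ with h3 | h3
      · rw [min_eq_left h3] at h1
        rw [max_eq_right h3] at h2
        have h4 : ((⌊z.re⌋ : ℝ)) + 1 ≤ x := by exact_mod_cast h1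
        have h5 : (x : ℝ) ≤ ⌊w.re⌋ := by exact_mod_cast h2
        rw [abs_sub_comm, abs_of_nonneg (by linarith), abs_of_nonneg (by linarith)]
        linarith
      · rw [min_eq_right h3] at h1
        rw [max_eq_left h3] at h2
        have h4 : ((⌊w.re⌋ : ℝ)) + 1 ≤ x := by exact_mod_cast h1
        have h5 : (x : ℝ) ≤ ⌊z.re⌋ := by exact_mod_cast h2
        rw [abs_of_nonneg (by linarith), abs_sub_comm, abs_of_nonneg (by linarith)]
        linarith
    refine B.sc_step h (x, ⌊z.im⌋) 1 ?_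
    have h3 : ‖z - cp (x, ⌊z.im⌋)‖ ≤ r + 1 := by
      refine norm_sub_le_of (by simpa [cp] using hx.trans hr') ?_
      simp only [cp]
      rw [abs_of_nonneg (by linarith)]
      linarith
    linarith
  -- vertical
  have e2 : sc B.n B.v (⌊w.re⌋, ⌊z.im⌋) = sc B.n B.v (⌊w.re⌋, ⌊w.im⌋) := by
    refine int_const (f := fun y => sc B.n B.v (⌊w.re⌋, y)) fun y h1 h2 => ?_
    have hy : |z.im - y| ≤ |z.im - w.im| := by
      rcases le_total ⌊z.im⌋ ⌊w.im⌋ with h3 | h3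
      · rw [min_eq_left h3] at h1
        rw [max_eq_right h3] at h2
        have h4 : ((⌊z.im⌋ : ℝ)) + 1 ≤ y := by exact_mod_cast h1
        have h5 : (y : ℝ) ≤ ⌊w.im⌋ := by exact_mod_cast h2
        rw [abs_sub_comm, abs_of_nonneg (by linarith), abs_sub_comm, abs_of_nonneg (by linarith)]
        linarith
      · rw [min_eq_right h3] at h1
        rw [max_eq_left h3] at h2
        have h4 : ((⌊w.im⌋ : ℝ)) + 1 ≤ y := by exact_mod_cast h1
        have h5 : (y : ℝ) ≤ ⌊z.im⌋ := by exact_mod_cast h2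
        rw [abs_of_nonneg (by linarith), abs_of_nonneg (by linarith)]
        linarith
    refine (B.sc_step h (⌊w.re⌋, y) 0 ?_).symm
    have h3 : z - cp (⌊w.re⌋, y) = (⟨z.re - w.re, z.im - y⟩ : ℂ) + (⟨w.re - ⌊w.re⌋, 0⟩ : ℂ) := by
      apply Complex.ext <;> simp only [cp, sub_re, add_re, sub_im, add_im] <;> ring
    have h4 : ‖(⟨z.re - w.re, z.im - y⟩ : ℂ)‖ ≤ r := by
      refine (norm_le_of_abs hy).trans ?_
      have : (⟨z.re - w.re, z.im - w.im⟩ : ℂ) = -(w - z) := by apply Complex.ext <;> simp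
      rw [this, norm_neg]
      exact hw
    have h5 : ‖(⟨w.re - ⌊w.re⌋, 0⟩ : ℂ)‖ ≤ 1 := by
      have : (⟨w.re - ⌊w.re⌋, 0⟩ : ℂ) = ((w.re - ⌊w.re⌋ : ℝ) : ℂ) := by apply Complex.ext <;> simp
      rw [this, Complex.norm_real, Real.norm_eq_abs, abs_of_nonneg (by linarith)]
      linarith
    have h6 := norm_add_le (⟨z.re - w.re, z.im - y⟩ : ℂ) (⟨w.re - ⌊w.re⌋, 0⟩ : ℂ)
    rw [← h3] at h6
    linarith
  show sc B.n B.v (⌊w.re⌋, ⌊w.im⌋) = sc B.n B.v (⌊z.re⌋, ⌊z.im⌋)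
  rw [e1, e2]

lemma Deep.ball {B : Coarse} {z w : ℂ} {R r R' : ℝ} (h : B.Deep z R) (hw : ‖w - z‖ ≤ r) (hr : r + 2 ≤ R) (hR : R' + r ≤ R) :
    B.Deep w R' := by
  refine ⟨?_, h.2.mono (by linarith)⟩
  unfold In
  rw [B.sc_cell_eq h.2 hw hr]
  exact h.1

lemma Deep.weaken {B : Coarse} {z : ℂ} {R R' : ℝ} (h : B.Deep z R) (hR : R' ≤ R) : B.Deep z R' :=
  ⟨h.1, h.2.mono (by simpa using hR)⟩

end Coarse

/-! ### shapes which refine a polygon -/

/-- the shape `S` with the marks `m` refines the polygon `B`, `U` units per cell -/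
structure Fits (B : Coarse) (S : Shape) (m : S.Marks) (U : ℝ) : Prop where
  ok : S.Ok
  mok : m.Ok
  one : 1 ≤ U
  dom : ∀ z, B.Deep z 5 → (U : ℂ) * z ∈ S.dom
  arc : ∀ j, ∀ w ∈ m.arc j, ∃ i, B.On j i ∧ ‖w / U - cp (B.v i)‖ ≤ 2
  arc' : ∀ j i, B.On j i → ∃ w ∈ m.arc j, ‖w / U - cp (B.v i)‖ ≤ 2
  mark : ∀ j, ‖m.pt j / U - cp (B.v (B.M j))‖ ≤ 1
  acc : ∀ j z d, B.Deep z 10 → B.Acc j z d → JoinedIn (S.dom ∩ ball (m.pt j) (U * (d + 4))) (U * z) (m.pt j)
  bdd : ∃ K : ℝ, ∀ z, B.In (cell z) → ∀ i ≤ B.n, ‖z - cp (B.v i)‖ ≤ K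

namespace Fits
variable {B : Coarse} {S : Shape} {m : S.Marks} {U : ℝ}

lemma pos (h : Fits B S m U) : 0 < U := by linarith [h.one]

/-- balls of the polygon are in the domain of the shape -/
lemma closedBall_sub (h : Fits B S m U) {z : ℂ} {R ρ : ℝ} (hz : B.Deep z R) (hρ : ρ + 5 ≤ R) :
    closedBall ((U : ℂ) * z) (U * ρ) ⊆ S.dom := by
  intro w hw
  have hU := h.pos
  have e : w = (U : ℂ) * (w / U) := by
    rw [mul_div_cancel₀]
    exact_mod_cast hU.ne'
  rw [e]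
  refine h.dom _ (hz.ball (r := ρ) ?_ (by linarith) (by linarith))
  rw [mem_closedBall, dist_eq_norm] at hw
  have e2 : w - U * z = U * (w / U - z) := by
    rw [mul_sub, ← e]
  rw [e2, norm_mul, Complex.norm_real, Real.norm_eq_abs, abs_of_pos hU] at hw
  exact le_of_mul_le_mul_left hw hU

lemma deep (h : Fits B S m U) {z : ℂ} (hz : B.Deep z 10) : S.Deep ((U : ℂ) * z) := by
  unfold Shape.Deep
  refine (closedBall_subset_closedBall ?_).trans (h.closedBall_sub (ρ := 1) hz (by norm_num))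
  rw [mul_one]
  exact h.one

lemma opp (h : Fits B S m U) {j : Fin 3} {w : ℂ} (hw : w ∈ m.opp j) : ∃ i, B.Side j i ∧ ‖w / U - cp (B.v i)‖ ≤ 2 := by
  fin_cases j
  · obtain ⟨i, h1, h2⟩ := h.arc 1 w hw
    exact ⟨i, h1, h2⟩
  · rcases hw with hw | hw
    · obtain ⟨i, h1, h2⟩ := h.arc 2 w hw
      exact ⟨i, Or.inl h1, h2⟩
    · obtain ⟨i, h1, h2⟩ := h.arc 3 w hw
      exact ⟨i, Or.inr h1, h2⟩
  · obtain ⟨i, h1, h2⟩ := h.arc 0 w hw
    exact ⟨i, h1, h2⟩

lemma opp' (h : Fits B S m U) {j : Fin 3} {i : ℕ} (hi : B.Side j i) : ∃ w ∈ m.opp j, ‖w / U - cp (B.v i)‖ ≤ 2 := by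
  fin_cases j
  · obtain ⟨w, h1, h2⟩ := h.arc' 1 i hi
    exact ⟨w, h1, h2⟩
  · rcases hi with hi | hi
    · obtain ⟨w, h1, h2⟩ := h.arc' 2 i hi
      exact ⟨w, Or.inl h1, h2⟩
    · obtain ⟨w, h1, h2⟩ := h.arc' 3 i hi
      exact ⟨w, Or.inr h1, h2⟩
  · obtain ⟨w, h1, h2⟩ := h.arc' 0 i hi
    exact ⟨w, h1, h2⟩

/-- scaling of distances -/
lemma dist_scale (h : Fits B S m U) (z w : ℂ) : dist ((U : ℂ) * z) w = U * ‖z - w / U‖ := by
  have hU := h.pos
  have hU' : (U : ℂ) ≠ 0 := by exact_mod_cast hU.ne'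
  have : (U : ℂ) * z - w = U * (z - w / U) := by field_simp
  rw [dist_eq_norm, this, norm_mul, Complex.norm_real, Real.norm_eq_abs, abs_of_pos hU]

end Fits

/-! ### powers -/

lemma pow_bound {C' a t c c' : ℝ} (ha : 0 ≤ a) (hat : a ≤ 16 * t) (ht : 16 * t ≤ 1) (hc : 0 < c) (hcc : c ≤ c') :
    C' * a ^ c' ≤ |C'| * (16 ^ c * t ^ c) := by
  have h1 : a ^ c' ≤ a ^ c := by
    rcases ha.eq_or_lt with rfl | h0
    · rw [Real.zero_rpow (by linarith), Real.zero_rpow (by linarith)]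
    · exact Real.rpow_le_rpow_of_exponent_ge h0 (by linarith) hcc
  have h2 : a ^ c ≤ (16 * t) ^ c := Real.rpow_le_rpow ha hat hc.le
  have ht0 : 0 ≤ t := by linarith
  rw [Real.mul_rpow (by norm_num) ht0] at h2
  calc C' * a ^ c' ≤ |C'| * a ^ c' := mul_le_mul_of_nonneg_right (le_abs_self _) (Real.rpow_nonneg ha _)
    _ ≤ |C'| * (16 ^ c * t ^ c) := mul_le_mul_of_nonneg_left (h1.trans h2) (abs_nonneg _)

lemma pow_trivial {t c : ℝ} (ht : 1 < 16 * t) (hc : 0 < c) : 1 ≤ (16 : ℝ) ^ c * t ^ c := by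
  have ht0 : 0 ≤ t := by linarith
  rw [← Real.mul_rpow (by norm_num) ht0]
  exact Real.one_le_rpow ht.le hc.le

/-- the constant -/
lemma pow_main {X C' D t c c' ε : ℝ} (hD : |C'| ≤ D) (hD6 : 6 ≤ D) (hX : X ≤ 6) (hε : 0 ≤ ε) (ht0 : 0 ≤ t) (hc : 0 < c)
    (hcc : c ≤ c')
    (h : 16 * t ≤ 1 → ∃ a, 0 ≤ a ∧ a ≤ 16 * t ∧ X ≤ C' * a ^ c' + ε) : X ≤ D * 16 ^ c * t ^ c + ε := by
  have h0 : 0 ≤ (16 : ℝ) ^ c * t ^ c := by positivity
  rcases le_or_gt (16 * t) 1 with h1 | h1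
  · obtain ⟨a, ha, hat, hX'⟩ := h h1
    have h2 := pow_bound (C' := C') ha hat h1 hc hcc
    have h3 : |C'| * (16 ^ c * t ^ c) ≤ D * (16 ^ c * t ^ c) := mul_le_mul_of_nonneg_right hD h0
    linarith
  · have h2 := pow_trivial h1 hc
    have h3 : 6 * 1 ≤ D * (16 ^ c * t ^ c) := mul_le_mul hD6 h2 zero_le_one (by linarith)
    linarith

/-- a power of two -/
lemma exists_pow_two {x K : ℝ} (h1 : 1 ≤ x) (hK : x ≤ K) : ∃ i : ℕ, i ∈ Finset.range (⌈K⌉₊ + 1) ∧ (2 : ℝ) ^ i ≤ x ∧ x < 2 * 2 ^ i := by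
  obtain ⟨i, h2, h3⟩ := exists_nat_pow_near h1 (by norm_num : (1 : ℝ) < 2)
  refine ⟨i, ?_, h2, ?_⟩
  · rw [Finset.mem_range, Nat.lt_succ_iff]
    have h4 : (i : ℝ) < 2 ^ i := by exact_mod_cast Nat.lt_two_pow_self
    have h5 : (i : ℝ) ≤ ⌈K⌉₊ := by
      have := Nat.le_ceil K
      linarith
    exact_mod_cast h5
  · rw [pow_succ] at h3
    linarith

/-! ### the bounds -/

namespace Fits
variable {B : Coarse} {S : Shape} {m : S.Marks} {U : ℝ}
open Shape

/-- interior regularity -/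
theorem cont (h : Fits B S m U) {C' c' c D : ℝ} (hc : 0 < c) (hcc : c ≤ c') (hD : |C'| ≤ D) (hD6 : 6 ≤ D)
    (h2 : ∀ R : ℝ, 1 ≤ R → ∀ ε > 0, ∀ᶠ n : ℕ in atTop, ∀ z z' : ℂ, closedBall z R ⊆ S.dom → dist z z' ≤ R / 2 →
      ‖F m n z - F m n z'‖ ≤ C' * (dist z z' / R) ^ c' + ε) {ε : ℝ} (hε : 0 < ε) :
    ∀ᶠ n : ℕ in atTop, ∀ (z w : ℂ) (R : ℝ), 10 ≤ R → B.Deep z R → ‖z - w‖ ≤ R / 2 →
      ‖F m n (U * z) - F m n (U * w)‖ ≤ D * 16 ^ c * (‖z - w‖ / R) ^ c + ε := by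
  have hU := h.pos
  obtain ⟨K, hK⟩ := h.bdd
  have ev : ∀ᶠ n : ℕ in atTop, ∀ i ∈ Finset.range (⌈K⌉₊ + 1), ∀ z z' : ℂ, closedBall z (U * 2 ^ i) ⊆ S.dom →
      dist z z' ≤ U * 2 ^ i / 2 → ‖F m n z - F m n z'‖ ≤ C' * (dist z z' / (U * 2 ^ i)) ^ c' + ε := by
    rw [Filter.eventually_all_finset]
    intro i _
    refine h2 _ ?_ ε hε
    have : (1 : ℝ) ≤ 2 ^ i := one_le_pow₀ (by norm_num)
    nlinarith [h.one]
  filter_upwards [ev] with n hn z w R hR hz hzw
  have hRK : R ≤ K := (hz.2 0 (by have := B.m3; omega) trivial).trans (hK z hz.1 0 (Nat.zero_le _))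
  have hR0 : 0 < R := by linarith
  refine pow_main hD hD6 ?_ hε.le (by positivity) hc hcc fun ht => ?_
  · have := norm_sub_le (F m n (U * z)) (F m n (U * w))
    have h3 := norm_F_le m n (U * z)
    have h4 := norm_F_le m n (U * w)
    linarith
  · have ht' : 16 * ‖z - w‖ ≤ R := by
      rwa [← mul_div_assoc, div_le_one hR0] at ht
    obtain ⟨i, hi, i1, i2⟩ := exists_pow_two (x := R / 4) (K := K) (by linarith) (by linarith)
    have hi0 : (0 : ℝ) < 2 ^ i := by positivity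
    have hd : dist ((U : ℂ) * z) (U * w) = U * ‖z - w‖ := by
      rw [dist_eq_norm, ← mul_sub, norm_mul, Complex.norm_real, Real.norm_eq_abs, abs_of_pos hU]
    refine ⟨dist ((U : ℂ) * z) (U * w) / (U * 2 ^ i), by positivity, ?_, hn i hi _ _ (h.closedBall_sub hz (by linarith)) ?_⟩
    · rw [hd, mul_div_mul_left _ _ hU.ne', ← mul_div_assoc, div_le_div_iff₀ hi0 hR0]
      have := norm_nonneg (z - w)
      nlinarith
    · rw [hd, mul_div_assoc]
      refine mul_le_mul_of_nonneg_left ?_ hU.le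
      linarith

/-- the arcs -/
theorem side (h : Fits B S m U) {C' c' c D : ℝ} (hc : 0 < c) (hcc : c ≤ c') (hD : |C'| ≤ D) (hD6 : 6 ≤ D)
    (h3 : ∀ (j : Fin 3) (δ R : ℝ), 1 ≤ δ → δ ≤ R → ∀ ε > 0, ∀ᶠ n : ℕ in atTop, ∀ z : ℂ, S.Deep z →
      infDist z (m.opp j) ≤ δ → (∀ k, k ≠ j → ∀ w ∈ m.opp k, R ≤ dist z w) →
      infDist (F m n z) (Full.side j) ≤ C' * (δ / R) ^ c' + ε) {ε : ℝ} (hε : 0 < ε) :
    ∀ᶠ n : ℕ in atTop, ∀ j < 3, ∀ (z : ℂ) (d R : ℝ), 10 ≤ d → d ≤ R → B.Deep z 10 →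
      (∃ i, B.Side j i ∧ ‖z - cp (B.v i)‖ ≤ d) → B.Far (fun i => ∃ j' < 3, j' ≠ j ∧ B.Side j' i) z R →
      infDist (F m n (U * z)) (Full.side j) ≤ D * 16 ^ c * (d / R) ^ c + ε := by
  have hU := h.pos
  obtain ⟨K, hK⟩ := h.bdd
  have ev : ∀ᶠ n : ℕ in atTop, ∀ j ∈ (Finset.univ : Finset (Fin 3)), ∀ a ∈ Finset.range (⌈K⌉₊ + 1),
      ∀ b ∈ Finset.range (⌈K⌉₊ + 1), (2 : ℝ) ^ a ≤ 2 ^ b → ∀ z : ℂ, S.Deep z →
      infDist z (m.opp j) ≤ U * 2 ^ a → (∀ k, k ≠ j → ∀ w ∈ m.opp k, U * 2 ^ b ≤ dist z w) →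
      infDist (F m n z) (Full.side j) ≤ C' * (U * 2 ^ a / (U * 2 ^ b)) ^ c' + ε := by
    rw [Filter.eventually_all_finset]
    intro j _
    rw [Filter.eventually_all_finset]
    intro a _
    rw [Filter.eventually_all_finset]
    intro b _
    by_cases hab : (2 : ℝ) ^ a ≤ 2 ^ b
    · have : (1 : ℝ) ≤ 2 ^ a := one_le_pow₀ (by norm_num)
      filter_upwards [h3 j (U * 2 ^ a) (U * 2 ^ b) (by nlinarith [h.one]) (by gcongr) ε hε] with n hn _
      exact hn
    · exact Eventually.of_forall fun n h' => absurd h' hab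
  filter_upwards [ev] with n hn j hj z d R hd hdR hz hs hfar
  have hR0 : 0 < R := by linarith
  -- some other side
  have hRK : R ≤ K := by
    obtain ⟨j', h1, h2, i, h4⟩ : ∃ j' < 3, j' ≠ j ∧ ∃ i, B.Side j' i := by
      have h0 := B.m01; have h1 := B.m12; have h2 := B.m23; have h3 := B.m3
      have o1 : B.On 1 (B.M 1) := by
        refine ⟨by omega, ?_⟩
        rw [if_neg (by decide)]
        exact ⟨le_rfl, h1.le⟩
      have o0 : B.On 0 (B.M 0) := by
        refine ⟨by omega, ?_⟩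
        rw [if_neg (by decide)]
        exact ⟨le_rfl, h0.le⟩
      rcases Nat.eq_zero_or_pos j with rfl | hj0
      · exact ⟨2, by norm_num, by norm_num, _, o0⟩
      · exact ⟨0, by norm_num, by omega, _, o1⟩
    have hi : i < B.n := by
      have : ∀ j i, B.On j i → i < B.n := fun _ _ h => h.1
      interval_cases j'
      · exact this _ _ h4
      · rcases h4 with h4 | h4
        · exact this _ _ h4
        · exact this _ _ h4
      · exact this _ _ h4
    exact (hfar i hi ⟨j', h1, h2, h4⟩).trans (hK z hz.1 i hi.le)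
  refine pow_main hD hD6 ?_ hε.le (by positivity) hc hcc fun ht => ?_
  · obtain ⟨x, hx⟩ := side_nonempty j
    refine (infDist_le_dist_of_mem hx).trans ?_
    rw [dist_eq_norm]
    have h4 := norm_F_le m n (U * z)
    have h5 : ‖x‖ ≤ 1 := by
      obtain ⟨a, b, ha, hb, hab, rfl⟩ := hx
      refine (norm_add_le _ _).trans ?_
      rw [norm_smul, norm_smul, norm_vert, norm_vert, mul_one, mul_one, Real.norm_of_nonneg ha, Real.norm_of_nonneg hb, hab]
    have := norm_sub_le (F m n (U * z)) x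
    linarith
  · have ht' : 16 * d ≤ R := by
      rwa [← mul_div_assoc, div_le_one hR0] at ht
    obtain ⟨a, ha, a1, a2⟩ := exists_pow_two (x := 2 * (d + 2)) (K := K) (by linarith) (by linarith)
    obtain ⟨b, hb, b1, b2⟩ := exists_pow_two (x := R / 2) (K := K) (by linarith) (by linarith)
    have ha0 : (0 : ℝ) < 2 ^ a := by positivity
    have hb0 : (0 : ℝ) < 2 ^ b := by positivity
    refine ⟨U * 2 ^ a / (U * 2 ^ b), by positivity, ?_, hn ⟨j, hj⟩ (Finset.mem_univ _) a ha b hb (by linarith) _ (h.deep hz) ?_ ?_⟩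
    · rw [mul_div_mul_left _ _ hU.ne', ← mul_div_assoc, div_le_div_iff₀ hb0 hR0]
      nlinarith
    · obtain ⟨i, hi1, hi2⟩ := hs
      obtain ⟨w, hw, hw2⟩ := h.opp' (j := ⟨j, hj⟩) hi1
      refine (infDist_le_dist_of_mem hw).trans ?_
      rw [h.dist_scale]
      refine mul_le_mul_of_nonneg_left ?_ hU.le
      have e : z - w / U = (z - cp (B.v i)) - (w / U - cp (B.v i)) := by ring
      have := norm_sub_le (z - cp (B.v i)) (w / U - cp (B.v i))
      rw [← e] at this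
      linarith
    · intro k hk w hw
      obtain ⟨i, hi1, hi2⟩ := h.opp hw
      have hi : i < B.n := by
        have : ∀ j i, B.On j i → i < B.n := fun _ _ h => h.1
        fin_cases k
        · exact this _ _ hi1
        · rcases hi1 with h4 | h4
          · exact this _ _ h4
          · exact this _ _ h4
        · exact this _ _ hi1
      have h5 := hfar i hi ⟨k, k.2, fun h6 => hk (Fin.ext h6), hi1⟩
      rw [h.dist_scale]
      refine mul_le_mul_of_nonneg_left ?_ hU.le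
      have e : z - cp (B.v i) = (z - w / U) + (w / U - cp (B.v i)) := by ring
      have := norm_add_le (z - w / U) (w / U - cp (B.v i))
      rw [← e] at this
      linarith

lemma norm_sub_cell (z : ℂ) : ‖z - cp (cell z)‖ ≤ 2 := by
  have h1 := Int.floor_le z.re
  have h2 := Int.lt_floor_add_one z.re
  have h3 := Int.floor_le z.im
  have h4 := Int.lt_floor_add_one z.im
  have : ‖z - cp (cell z)‖ ≤ 1 + 1 := by
    refine Coarse.norm_sub_le_of ?_ ?_
    · simp only [cp, cell]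
      rw [abs_of_nonneg (by linarith)]
      linarith
    · simp only [cp, cell]
      rw [abs_of_nonneg (by linarith)]
      linarith
  linarith

lemma acc_near {j : Fin 4} {z : ℂ} {d : ℝ} (hd : 0 ≤ d) (h : B.Acc j z d) : ‖z - cp (B.v (B.M j))‖ ≤ d + 2 := by
  have h1 : ‖cp (cell z) - cp (B.v (B.M j))‖ ≤ d := by
    unfold Coarse.Acc at h
    rcases Relation.ReflTransGen.cases_tail h with h2 | ⟨p, -, -, -, h2⟩
    · rw [h2, sub_self, norm_zero]; exact hd
    · exact h2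
  have h2 := norm_sub_cell z
  have e : z - cp (B.v (B.M j)) = (z - cp (cell z)) + (cp (cell z) - cp (B.v (B.M j))) := by ring
  rw [e]
  exact (norm_add_le _ _).trans (by linarith)

/-- distance of a mark to a wall -/
lemma mark_far (h : Fits B S m U) {j : Fin 4} {z w : ℂ} {d R : ℝ} (hd : 0 ≤ d) (hacc : B.Acc j z d) {i : ℕ}
    (hi : ‖w / U - cp (B.v i)‖ ≤ 2) (hR : R ≤ ‖z - cp (B.v i)‖) : U * (R - d - 5) ≤ dist (m.pt j) w := by
  have hU := h.pos
  have hU' : (U : ℂ) ≠ 0 := by exact_mod_cast hU.ne'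
  have e : m.pt j = U * (m.pt j / U) := by rw [mul_div_cancel₀ _ hU']
  rw [e, h.dist_scale]
  refine mul_le_mul_of_nonneg_left ?_ hU.le
  have h1 := acc_near hd hacc
  have h2 := h.mark j
  have e2 : z - cp (B.v i) = (z - cp (B.v (B.M j))) - (m.pt j / U - cp (B.v (B.M j))) + (m.pt j / U - w / U) +
      (w / U - cp (B.v i)) := by ring
  have h3 := norm_add_le ((z - cp (B.v (B.M j))) - (m.pt j / U - cp (B.v (B.M j))) + (m.pt j / U - w / U)) (w / U - cp (B.v i))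
  have h4 := norm_add_le ((z - cp (B.v (B.M j))) - (m.pt j / U - cp (B.v (B.M j)))) (m.pt j / U - w / U)
  have h5 := norm_sub_le (z - cp (B.v (B.M j))) (m.pt j / U - cp (B.v (B.M j)))
  rw [← e2] at h3
  linarith

/-- the marks -/
theorem markb (h : Fits B S m U) {C' c' c D : ℝ} (hc : 0 < c) (hcc : c ≤ c') (hD : |C'| ≤ D) (hD6 : 6 ≤ D)
    {j : Fin 4} {W : Set ℂ} {s : ℕ → Prop} (hs : ∃ i < B.n, s i) (hW : ∀ w ∈ W, ∃ i < B.n, s i ∧ ‖w / U - cp (B.v i)‖ ≤ 2)
    {V : ℕ → ℂ} (hV : ∀ n, ‖V n‖ ≤ 3)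
    (h3 : ∀ (δ R : ℝ), 1 ≤ δ → δ ≤ R → ∀ ε > 0, ∀ᶠ n : ℕ in atTop, ∀ z : ℂ, S.Deep z →
      JoinedIn (S.dom ∩ ball (m.pt j) δ) z (m.pt j) → (∀ w ∈ W, R ≤ dist (m.pt j) w) →
      dist (F m n z) (V n) ≤ C' * (δ / R) ^ c' + ε) {ε : ℝ} (hε : 0 < ε) :
    ∀ᶠ n : ℕ in atTop, ∀ (z : ℂ) (d R : ℝ), 10 ≤ d → d ≤ R → B.Deep z 10 → B.Acc j z d → B.Far s z R →
      ‖F m n (U * z) - V n‖ ≤ D * 16 ^ c * (d / R) ^ c + ε := by
  have hU := h.pos
  obtain ⟨K, hK⟩ := h.bdd
  have ev : ∀ᶠ n : ℕ in atTop, ∀ a ∈ Finset.range (⌈K⌉₊ + 1),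
      ∀ b ∈ Finset.range (⌈K⌉₊ + 1), (2 : ℝ) ^ a ≤ 2 ^ b → ∀ z : ℂ, S.Deep z →
      JoinedIn (S.dom ∩ ball (m.pt j) (U * 2 ^ a)) z (m.pt j) → (∀ w ∈ W, U * 2 ^ b ≤ dist (m.pt j) w) →
      dist (F m n z) (V n) ≤ C' * (U * 2 ^ a / (U * 2 ^ b)) ^ c' + ε := by
    rw [Filter.eventually_all_finset]
    intro a _
    rw [Filter.eventually_all_finset]
    intro b _
    by_cases hab : (2 : ℝ) ^ a ≤ 2 ^ b
    · have : (1 : ℝ) ≤ 2 ^ a := one_le_pow₀ (by norm_num)
      filter_upwards [h3 (U * 2 ^ a) (U * 2 ^ b) (by nlinarith [h.one]) (by gcongr) ε hε] with n hn _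
      exact hn
    · exact Eventually.of_forall fun n h' => absurd h' hab
  filter_upwards [ev] with n hn z d R hd hdR hz hacc hfar
  have hR0 : 0 < R := by linarith
  have hRK : R ≤ K := by
    obtain ⟨i, hi, hi2⟩ := hs
    exact (hfar i hi hi2).trans (hK z hz.1 i hi.le)
  refine pow_main hD hD6 ?_ hε.le (by positivity) hc hcc fun ht => ?_
  · have h4 := norm_F_le m n (U * z)
    have h5 := hV n
    have := norm_sub_le (F m n (U * z)) (V n)
    linarith
  · have ht' : 16 * d ≤ R := by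
      rwa [← mul_div_assoc, div_le_one hR0] at ht
    obtain ⟨a, ha, a1, a2⟩ := exists_pow_two (x := 2 * (d + 4)) (K := K) (by linarith) (by linarith)
    obtain ⟨b, hb, b1, b2⟩ := exists_pow_two (x := R / 2) (K := K) (by linarith) (by linarith)
    have ha0 : (0 : ℝ) < 2 ^ a := by positivity
    have hb0 : (0 : ℝ) < 2 ^ b := by positivity
    refine ⟨U * 2 ^ a / (U * 2 ^ b), by positivity, ?_, ?_⟩
    · rw [mul_div_mul_left _ _ hU.ne', ← mul_div_assoc, div_le_div_iff₀ hb0 hR0]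
      nlinarith
    rw [← dist_eq_norm]
    refine hn a ha b hb (by linarith) _ (h.deep hz) ?_ ?_
    · refine (h.acc j z d hz hacc).mono ?_
      refine inter_subset_inter_right _ (ball_subset_ball ?_)
      refine mul_le_mul_of_nonneg_left ?_ hU.le
      linarith
    · intro w hw
      obtain ⟨i, hi, hi1, hi2⟩ := hW w hw
      refine le_trans ?_ (h.mark_far (by linarith) hacc hi2 (hfar i hi hi1))
      refine mul_le_mul_of_nonneg_left ?_ hU.le
      linarith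

lemma On_M (B : Coarse) (j : Fin 4) : B.On j (B.M j) := by
  have h0 := B.m01; have h1 := B.m12; have h2 := B.m23; have h3 := B.m3
  fin_cases j
  · exact ⟨show B.M 0 < B.n by omega, show B.M 0 ≤ B.M 0 ∧ B.M 0 ≤ B.M 1 from ⟨le_rfl, h0.le⟩⟩
  · exact ⟨show B.M 1 < B.n by omega, show B.M 1 ≤ B.M 1 ∧ B.M 1 ≤ B.M 2 from ⟨le_rfl, h1.le⟩⟩
  · exact ⟨show B.M 2 < B.n by omega, show B.M 2 ≤ B.M 2 ∧ B.M 2 ≤ B.M 3 from ⟨le_rfl, h2.le⟩⟩
  · exact ⟨show B.M 3 < B.n by omega, show B.M 3 ≤ B.M 0 ∨ B.M 3 ≤ B.M 3 from Or.inr le_rfl⟩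

lemma Side_lt {B : Coarse} {j i : ℕ} (h : B.Side j i) : i < B.n := by
  match j, h with
  | 0, h => exact h.1
  | 1, h => exact h.elim (fun h => h.1) (fun h => h.1)
  | 2, h => exact h.1
  | (_ + 3), h => exact absurd h id

/-- the probability at the fourth mark -/
lemma abs_p4_le (m : S.Marks) (n : ℕ) : |p4 m n| ≤ 1 := by
  unfold p4
  refine (Complex.abs_re_le_norm _).trans (norm_avSh_le n zero_le_one fun a _ => ?_)
  rw [Complex.norm_real, Real.norm_eq_abs]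
  unfold P4
  split_ifs
  rw [abs_of_nonneg (Pool.Agent.Helper69.RSW.P_nonneg _ _)]
  exact Pool.Agent.Helper69.RSW.P_le_one _ _

end Fits

/-- **the one arm bounds of the polygon** -/
theorem exists_bounds (h2 : S2) (h3a : S3a) (h3b : S3b) (h4 : S4) : ∃ C c : ℝ, 0 < C ∧ 0 < c ∧
    ∀ (B : Coarse) (S : Shape) (m : S.Marks) (U : ℝ), Fits B S m U → ∀ ε > 0, ∀ᶠ n : ℕ in atTop,
      B.Bounds C c ε (fun z => Shape.F m n (U * z)) (1 - Shape.p4 m n) := by
  obtain ⟨C2, c2, hc2, h2⟩ := h2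
  obtain ⟨C3, c3, hc3, h3⟩ := h3a
  obtain ⟨C3', c3', hc3', h3'⟩ := h3b
  obtain ⟨C4, c4, hc4, h4⟩ := h4
  set c := min (min c2 c3) (min c3' c4) with hc
  have hc0 : 0 < c := by rw [hc]; positivity
  have l2 : c ≤ c2 := (min_le_left _ _).trans (min_le_left _ _)
  have l3 : c ≤ c3 := (min_le_left _ _).trans (min_le_right _ _)
  have l3' : c ≤ c3' := (min_le_right _ _).trans (min_le_left _ _)
  have l4 : c ≤ c4 := (min_le_right _ _).trans (min_le_right _ _)
  set D := |C2| + |C3| + |C3'| + |C4| + 6 with hD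
  have a2 := abs_nonneg C2
  have a3 := abs_nonneg C3
  have a3' := abs_nonneg C3'
  have a4 := abs_nonneg C4
  have hD6 : 6 ≤ D := by linarith
  have h16 : (1 : ℝ) ≤ 16 ^ c := Real.one_le_rpow (by norm_num) hc0.le
  refine ⟨D * 16 ^ c, c, by positivity, hc0, fun B S m U h ε hε => ?_⟩
  have b0 := h.cont hc0 l2 (D := D) (by linarith) hD6 (h2 S h.ok m h.mok) hε
  have b1 := h.side hc0 l3 (D := D) (by linarith) hD6 (h3 S h.ok m h.mok) hε
  have b2 : ∀ᶠ n : ℕ in atTop, ∀ j ∈ (Finset.univ : Finset (Fin 3)), ∀ (z : ℂ) (d R : ℝ), 10 ≤ d → d ≤ R → B.Deep z 10 →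
      B.Acc j.castSucc z d → B.Far (B.Side j) z R →
      ‖Shape.F m n (U * z) - vert j‖ ≤ D * 16 ^ c * (d / R) ^ c + ε := by
    rw [Filter.eventually_all_finset]
    intro j _
    refine h.markb hc0 l3' (D := D) (by linarith) hD6 (W := m.opp j) (V := fun _ => vert j) ?_ ?_ ?_
      (h3' S h.ok m h.mok j) hε
    · fin_cases j
      · exact ⟨B.M 1, (Fits.On_M B 1).1, Fits.On_M B 1⟩
      · exact ⟨B.M 2, (Fits.On_M B 2).1, Or.inl (Fits.On_M B 2)⟩
      · exact ⟨B.M 0, (Fits.On_M B 0).1, Fits.On_M B 0⟩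
    · intro w hw
      obtain ⟨i, hi1, hi2⟩ := h.opp hw
      exact ⟨i, Fits.Side_lt hi1, hi1, hi2⟩
    · intro _
      rw [norm_vert]
      norm_num
  have b3 : ∀ᶠ n : ℕ in atTop, ∀ (z : ℂ) (d R : ℝ), 10 ≤ d → d ≤ R → B.Deep z 10 →
      B.Acc 3 z d → B.Far (fun i => B.On 0 i ∨ B.On 1 i) z R →
      ‖Shape.F m n (U * z) - cv (1 - Shape.p4 m n)‖ ≤ D * 16 ^ c * (d / R) ^ c + ε := by
    refine h.markb hc0 l4 (D := D) (by linarith) hD6 (W := m.arc 0 ∪ m.arc 1) (V := fun n => cv (1 - Shape.p4 m n)) ?_ ?_ ?_ ?_ hε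
    · exact ⟨B.M 0, (Fits.On_M B 0).1, Or.inl (Fits.On_M B 0)⟩
    · rintro w (hw | hw)
      · obtain ⟨i, hi1, hi2⟩ := h.arc 0 w hw
        exact ⟨i, hi1.1, Or.inl hi1, hi2⟩
      · obtain ⟨i, hi1, hi2⟩ := h.arc 1 w hw
        exact ⟨i, hi1.1, Or.inr hi1, hi2⟩
    · intro n
      have h5 := Fits.abs_p4_le m n
      have h6 : |1 - Shape.p4 m n| ≤ 2 := by
        rw [abs_le] at h5 ⊢
        constructor <;> linarith
      unfold cv
      refine (norm_add_le _ _).trans ?_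
      rw [norm_mul, norm_mul, norm_vert, norm_vert, mul_one, mul_one]
      have e : (1 - ((1 - Shape.p4 m n : ℝ) : ℂ)) = ((Shape.p4 m n : ℝ) : ℂ) := by push_cast; ring
      rw [e, Complex.norm_real, Complex.norm_real, Real.norm_eq_abs, Real.norm_eq_abs]
      linarith
    · intro δ R hδ hR ε hε
      filter_upwards [h4 S h.ok m h.mok δ R hδ hR ε hε] with n hn z hz hj hw
      have := hn z hz hj hw
      have e : cv (1 - Shape.p4 m n) = vert 0 * (Shape.p4 m n : ℂ) + vert 2 * (1 - (Shape.p4 m n : ℂ)) := by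
        unfold cv
        push_cast
        ring
      rw [e]
      exact this
  filter_upwards [b0, b1, b2, b3] with n g0 g1 g2 g3
  refine ⟨fun z _ => ?_, g0, g1, fun j => g2 j (Finset.mem_univ _), g3⟩
  have := Shape.norm_F_le m n (U * z)
  nlinarith

end Full
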