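import Pool.Agent.Full.Comb.Lab

/-!
# FULL, combs: the walls of the comb shape are close to the boundary of the coarse domain
-/

set_option autoImplicit false

namespace Full
namespace Comb
namespace CDom
variable {C : CDom} {k H D : ℕ}

/-- vertices of the boundary of the coarse domain -/
def BV (C : CDom) (P : ℤ × ℤ) : Prop :=
  ((P.1, P.2) ∈ C.I ↔ (P.1 - 1, P.2) ∉ C.I) ∨ ((P.1, P.2 - 1) ∈ C.I ↔ (P.1 - 1, P.2 - 1) ∉ C.I) ∨
  ((P.1, P.2) ∈ C.I ↔ (P.1, P.2 - 1) ∉ C.I) ∨ ((P.1 - 1, P.2) ∈ C.I ↔ (P.1 - 1, P.2 - 1) ∉ C.I)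

/-- dead ends -/
theorem chan (hC : C.Ok) (hP : Par k H D) {A : ℝ} (hA : A * H ≤ D) : (C.shape k H D).Chan (marks hC k H D) A := by
  have hU : 2 * (D : ℤ) + 2 ≤ un k H := hP.small
  have hD : (1 : ℤ) ≤ D := by exact_mod_cast hP.D_pos
  have hU0 : 0 < un k H := by omega
  obtain ⟨hh1, hh2⟩ := half_spec hU
  have hroom : ∀ j, lo C.I (C.mar j) ≤ (C.mar j).1 ∧ (C.mar j).1 < hi C.I (C.mar j) := fun j =>
    ⟨lo_le (hC.mar_mem j), lt_hi (hC.mar_mem j)⟩
  have hhi : ∀ j, hi C.I (lo C.I (C.mar j), (C.mar j).2) = hi C.I (C.mar j) := fun j =>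
    hi_congr le_rfl ((hroom j).1.trans_lt (hroom j).2)
  have hheight : ∀ r : (C.shape k H D).R, A * (((C.shape k H D).yt (.inl r) : ℝ) - (C.shape k H D).yb (.inl r)) ≤ (D : ℤ) := by
    intro r
    have e : (C.shape k H D).yt (.inl r) = (C.shape k H D).yb (.inl r) + H := rfl
    rw [e]
    push_cast
    rw [add_sub_cancel_left]
    exact hA
  constructor
  · intro l r b hl
    have h1 := hheight r
    have key : ∀ a b : ℤ, a + D ≤ b →
        (a : ℝ) + A * (((C.shape k H D).yt (.inl r) : ℝ) - (C.shape k H D).yb (.inl r)) ≤ b := by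
      intro a b hab
      have : (a : ℝ) + (D : ℤ) ≤ b := by exact_mod_cast hab
      linarith
    rcases att_cases hl with ⟨i, rfl, -, -⟩ | ⟨q, rfl, -, -, h3⟩ | ⟨q, rfl, -, -, h3⟩
    · refine ⟨key _ _ ?_, key _ _ ?_⟩
      · exact le_refl (un k H * r.1.1.1 + (D : ℤ))
      · show un k H * hi C.I r.1.1 - (D : ℤ) + D ≤ un k H * hi C.I r.1.1
        omega
    · obtain ⟨e1, e2, e3, e4⟩ := in_dn h3
      refine ⟨key _ _ ?_, key _ _ ?_⟩
      · show un k H * r.1.1.1 + (D : ℤ) ≤ un k H * q.1.1 + D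
        have := mul_mono hU0.le e2
        omega
      · show un k H * hi C.J q.1 - (D : ℤ) + D ≤ un k H * hi C.I r.1.1
        have := mul_mono hU0.le e4
        omega
    · obtain ⟨e1, e2, e3, e4⟩ := in_up h3
      refine ⟨key _ _ ?_, key _ _ ?_⟩
      · show un k H * r.1.1.1 + (D : ℤ) ≤ un k H * q.1.1 + D
        have := mul_mono hU0.le e2
        omega
      · show un k H * hi C.J q.1 - (D : ℤ) + D ≤ un k H * hi C.I r.1.1
        have := mul_mono hU0.le e4
        omega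
  · intro j
    have h1 := hheight ((marks hC k H D).room j)
    have key : ∀ a b : ℤ, a + D ≤ b →
        (a : ℝ) + A * (((C.shape k H D).yt (.inl ((marks hC k H D).room j)) : ℝ) -
          (C.shape k H D).yb (.inl ((marks hC k H D).room j))) ≤ b := by
      intro a b hab
      have : (a : ℝ) + (D : ℤ) ≤ b := by exact_mod_cast hab
      linarith
    refine ⟨key _ _ ?_, ?_⟩
    · show un k H * lo C.I (C.mar j) + (D : ℤ) ≤ un k H * (C.mar j).1 + un k H / 2
      have := mul_mono hU0.le (hroom j).1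
      omega
    · have h2 := key ((marks hC k H D).x j + 1) ((C.shape k H D).xr (.inl ((marks hC k H D).room j))) (by
        show un k H * (C.mar j).1 + un k H / 2 + 1 + (D : ℤ) ≤ un k H * hi C.I (lo C.I (C.mar j), (C.mar j).2)
        rw [hhi]
        have := mul_step hU0.le (hroom j).2
        omega)
      push_cast at h2
      exact h2

/-- coordinates close to the point `P` of the coarse lattice -/
def Cl (U : ℤ) (P : ℤ × ℤ) (w : ℂ) : Prop := |w.re - U * P.1| ≤ U ∧ |w.im - U * P.2| ≤ U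

lemma cl_of {U a b : ℤ} {P : ℤ × ℤ} {w : ℂ} (ha1 : U * P.1 - U ≤ a) (ha2 : b ≤ U * P.1 + U) (h1 : (a : ℝ) ≤ w.re)
    (h2 : w.re ≤ b) {c e : ℤ} (hc1 : U * P.2 - U ≤ c) (hc2 : e ≤ U * P.2 + U) (h3 : (c : ℝ) ≤ w.im) (h4 : w.im ≤ e) :
    Cl U P w := by
  have r1 : (U : ℝ) * P.1 - U ≤ a := by exact_mod_cast ha1
  have r2 : (b : ℝ) ≤ U * P.1 + U := by exact_mod_cast ha2
  have r3 : (U : ℝ) * P.2 - U ≤ c := by exact_mod_cast hc1
  have r4 : (e : ℝ) ≤ U * P.2 + U := by exact_mod_cast hc2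
  constructor
  · rw [abs_le]; constructor <;> linarith
  · rw [abs_le]; constructor <;> linarith

lemma bv_start {p : ℤ × ℤ} (hp : p ∈ starts C.I) : C.BV p := by
  have h := mem_starts.1 hp
  exact Or.inl ⟨fun _ => h.2, fun _ => h.1⟩

lemma bv_hi {p : ℤ × ℤ} (hp : p ∈ starts C.I) : C.BV (hi C.I p, p.2) := by
  have h1 : (hi C.I p, p.2) ∉ C.I := hi_not
  have h2 := start_lt_hi hp
  have h3 : (hi C.I p - 1, p.2) ∈ C.I := mem_run_start hp (by omega) (by omega)
  exact Or.inl ⟨fun h => absurd h h1, fun h => absurd h3 h⟩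

/-- the left end of a run of `J` -/
lemma bv_lo {c y : ℤ} (h : (c, y) ∈ C.J) : C.BV (lo C.J (c, y), y + 1) := by
  have h1 : (lo C.J (c, y), y) ∈ C.J := mem_run (p := (c, y)) le_rfl (lo_lt_hi h)
  have h2 : (lo C.J (c, y) - 1, y) ∉ C.J := lo_not
  have h3 := mem_J.1 h1
  by_cases h4 : (lo C.J (c, y) - 1, y) ∈ C.I
  · left
    refine ⟨fun _ h5 => h2 (mem_J.2 ⟨h4, h5⟩), fun _ => h3.2⟩
  · right; left
    show ((lo C.J (c, y), y + 1 - 1) ∈ C.I ↔ (lo C.J (c, y) - 1, y + 1 - 1) ∉ C.I)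
    rw [add_sub_cancel_right]
    exact ⟨fun _ => h4, fun _ => h3.1⟩

lemma bv_hiJ {c y : ℤ} (h : (c, y) ∈ C.J) : C.BV (hi C.J (c, y), y + 1) := by
  have h0 := lo_lt_hi h
  have h1 : (hi C.J (c, y) - 1, y) ∈ C.J := mem_run (p := (c, y)) (by omega) (by omega)
  have h2 : (hi C.J (c, y), y) ∉ C.J := hi_not
  have h3 := mem_J.1 h1
  by_cases h4 : (hi C.J (c, y), y) ∈ C.I
  · left
    refine ⟨fun h5 => absurd (mem_J.2 ⟨h4, h5⟩) h2, fun h5 => absurd h3.2 h5⟩
  · right; left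
    show ((hi C.J (c, y), y + 1 - 1) ∈ C.I ↔ (hi C.J (c, y) - 1, y + 1 - 1) ∉ C.I)
    rw [add_sub_cancel_right]
    exact ⟨fun h5 => absurd h5 h4, fun h5 => absurd h3.1 h5⟩

/-- the ends of a horizontal side -/
lemma bv_side {c y : ℤ} (h : (c, y) ∈ C.I ∨ (c, y + 1) ∈ C.I) (hJ : (c, y) ∉ C.J) :
    C.BV (c, y + 1) ∧ C.BV (c + 1, y + 1) := by
  have h1 : (c, y + 1) ∈ C.I ↔ (c, y) ∉ C.I := by
    constructor
    · exact fun h1 h2 => hJ (mem_J.2 ⟨h2, h1⟩)
    · exact fun h2 => h.resolve_left h2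
  constructor
  · right; right; left
    show ((c, y + 1) ∈ C.I ↔ (c, y + 1 - 1) ∉ C.I)
    rw [add_sub_cancel_right]
    exact h1
  · right; right; right
    show ((c + 1 - 1, y + 1) ∈ C.I ↔ (c + 1 - 1, y + 1 - 1) ∉ C.I)
    rw [add_sub_cancel_right, add_sub_cancel_right]
    exact h1

/-- labels along a level are labels of close vertices -/
lemma lev_near {t : Bool} (hU : 2 * (D : ℤ) + 2 ≤ un k H) (hD : (1 : ℤ) ≤ D) {x₀ x₁ jy x : ℤ}
    (hI : ∀ c, x₀ ≤ c → c < x₁ → (c, jy) ∈ C.I ∨ (c, jy + 1) ∈ C.I)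
    (h1 : un k H * x₀ ≤ x) (h2 : x < un k H * x₁)
    (hop : (x / un k H, jy) ∈ C.J →
      x < un k H * lo C.J (x / un k H, jy) + D ∨ un k H * hi C.J (x / un k H, jy) - D ≤ x) :
    ∃ a : ℤ, C.BV (a, jy + 1) ∧ C.lev (un k H) D t x₀ x₁ jy (jy + 1) x = C.lab (a, jy + 1) ∧
      un k H * a - un k H ≤ x ∧ x + 1 ≤ un k H * a + un k H := by
  have hU0 : 0 < un k H := by omega
  obtain ⟨hh1, hh2⟩ := half_spec hU
  obtain ⟨hc1, hc2⟩ := div_spec (x := x) hU0
  set c := x / un k H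
  have h3 : x₀ ≤ c := by
    by_contra h
    have := mul_step hU0.le (not_le.1 h)
    omega
  have h4 : c < x₁ := lt_of_mul hU0.le (lt_of_le_of_lt hc1 h2)
  by_cases hJ : (c, jy) ∈ C.J
  · have h7 : un k H * lo C.J (c, jy) + un k H ≤ un k H * hi C.J (c, jy) := mul_step hU0.le (lo_lt_hi hJ)
    have h8 := mul_mono hU0.le (lo_le hJ)
    have h9 := mul_step hU0.le (lt_hi hJ)
    have h8' : un k H * lo C.J (c, jy) ≤ un k H * c := h8
    have h9' : un k H * c + un k H ≤ un k H * hi C.J (c, jy) := h9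
    rcases hop hJ with h10 | h10
    · refine ⟨lo C.J (c, jy), bv_lo hJ, lev_left hc1 hc2 h3 h4 hJ h10.le, by omega, by omega⟩
    · refine ⟨hi C.J (c, jy), bv_hiJ hJ, lev_right hc1 hc2 h3 h4 hJ (by omega), by omega, by omega⟩
  · obtain ⟨b1, b2⟩ := bv_side (hI c h3 h4) hJ
    by_cases h6 : x < un k H * c + un k H / 2 ∨ (t = true ∧ x = un k H * c + un k H / 2)
    · exact ⟨c, b1, lev_fst' hc1 hc2 h3 h4 hJ h6, by omega, by omega⟩
    · have e : un k H * (c + 1) = un k H * c + un k H := by ring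
      exact ⟨c + 1, b2, lev_snd hc1 hc2 h3 h4 hJ h6, by omega, by omega⟩

/-- the label of a cell of a horizontal wall is the label of a close vertex -/
lemma L_near (hP : Par k H D) {t : Bool} {r : (C.shape k H D).R} {b : Bool} {x : ℤ}
    (h1 : (C.shape k H D).xl (.inl r) ≤ x) (h2 : x < (C.shape k H D).xr (.inl r))
    (hop : ∀ l, (C.shape k H D).Att l r b → x < (C.shape k H D).xl (.inr l) ∨ (C.shape k H D).xr (.inr l) ≤ x) :
    ∃ P : ℤ × ℤ, C.BV P ∧ C.L k H D t r b x = C.lab P ∧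
      (un k H * P.1 - un k H ≤ x ∧ x + 1 ≤ un k H * P.1 + un k H) ∧
      un k H * P.2 - un k H ≤ (if b then (C.shape k H D).yt (.inl r) else (C.shape k H D).yb (.inl r)) ∧
      (if b then (C.shape k H D).yt (.inl r) else (C.shape k H D).yb (.inl r)) ≤ un k H * P.2 + un k H := by
  have hU : 2 * (D : ℤ) + 2 ≤ un k H := hP.small
  have hD : (1 : ℤ) ≤ D := by exact_mod_cast hP.D_pos
  have hU0 : 0 < un k H := by omega
  obtain ⟨hh1, hh2⟩ := half_spec hU
  have h1' : un k H * r.1.1.1 ≤ x := h1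
  have h2' : x < un k H * hi C.I r.1.1 := h2
  obtain ⟨hc1', hc2'⟩ := div_spec (x := x) hU0
  have hc1 : r.1.1.1 ≤ x / un k H := by
    by_contra h
    have := mul_step hU0.le (not_le.1 h)
    omega
  have hc2 : x / un k H < hi C.I r.1.1 := lt_of_mul hU0.le (lt_of_le_of_lt hc1' h2')
  have hyb : (C.shape k H D).yb (.inl r) = un k H * r.1.1.2 + (r.2 : ℕ) * (H + 1) := rfl
  have hyt : (C.shape k H D).yt (.inl r) = un k H * r.1.1.2 + (r.2 : ℕ) * (H + 1) + H := rfl
  have hi1 : (0 : ℤ) ≤ (r.2 : ℕ) * (H + 1) := by positivity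
  have hi2 : ((r.2 : ℕ) : ℤ) * (H + 1) + (H + 1) ≤ un k H := by
    have h3 : ((r.2 : ℕ) : ℤ) + 1 ≤ k + 1 := by exact_mod_cast r.2.2
    have h4 : (((r.2 : ℕ) : ℤ) + 1) * (H + 1) ≤ (k + 1) * (H + 1) := mul_le_mul_of_nonneg_right h3 (by positivity)
    unfold un
    linarith
  have hy : ∀ P2 : ℤ, (P2 = r.1.1.2 ∨ P2 = r.1.1.2 + 1) →
      un k H * P2 - un k H ≤ (if b then (C.shape k H D).yt (.inl r) else (C.shape k H D).yb (.inl r)) ∧
      (if b then (C.shape k H D).yt (.inl r) else (C.shape k H D).yb (.inl r)) ≤ un k H * P2 + un k H := by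
    intro P2 hP2
    have e1 : un k H * (r.1.1.2 + 1) = un k H * r.1.1.2 + un k H := by ring
    rw [hyb, hyt]
    rcases hP2 with rfl | rfl <;> cases b <;> constructor <;> simp only [Bool.false_eq_true, if_true, if_false] <;> omega
  rcases kinds r b with ⟨rfl, h0⟩ | ⟨rfl, h0⟩ | ⟨h3, h4⟩
  · obtain ⟨a, ha1, ha2, ha3, ha4⟩ := lev_near (t := t) (jy := r.1.1.2 - 1) hU hD
      (fun c hc3 hc4 => Or.inr (by rw [sub_add_cancel]; exact mem_run_start r.1.2 hc3 hc4)) h1' h2' (fun hJ => by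
        have h5 := hop _ (att_up h0 hJ hc1 hc2)
        have e : hi C.J (lo C.J (x / un k H, r.1.1.2 - 1), r.1.1.2 - 1) = hi C.J (x / un k H, r.1.1.2 - 1) :=
          hi_congr le_rfl (lo_lt_hi hJ)
        rcases h5 with h5 | h5
        · left; exact h5
        · right
          have h5' : un k H * hi C.J (lo C.J (x / un k H, r.1.1.2 - 1), r.1.1.2 - 1) - D ≤ x := h5
          rwa [e] at h5')
    rw [sub_add_cancel] at ha1 ha2
    exact ⟨(a, r.1.1.2), ha1, by rw [L_floor h0]; exact ha2, ⟨ha3, ha4⟩, hy _ (Or.inl rfl)⟩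
  · obtain ⟨a, ha1, ha2, ha3, ha4⟩ := lev_near (t := t) (jy := r.1.1.2) hU hD
      (fun c hc3 hc4 => Or.inl (mem_run_start r.1.2 hc3 hc4)) h1' h2' (fun hJ => by
        have h5 := hop _ (att_dn h0 hJ hc1 hc2)
        have e : hi C.J (lo C.J (x / un k H, r.1.1.2), r.1.1.2) = hi C.J (x / un k H, r.1.1.2) :=
          hi_congr le_rfl (lo_lt_hi hJ)
        rcases h5 with h5 | h5
        · left; exact h5
        · right
          have h5' : un k H * hi C.J (lo C.J (x / un k H, r.1.1.2), r.1.1.2) - D ≤ x := h5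
          rwa [e] at h5')
    exact ⟨(a, r.1.1.2 + 1), ha1, by rw [L_ceil h0]; exact ha2, ⟨ha3, ha4⟩, hy _ (Or.inr rfl)⟩
  · obtain ⟨i, hi'⟩ := att_inn h3 h4
    have h5 := hop _ hi'
    have h5' : x < un k H * r.1.1.1 + D ∨ un k H * hi C.I r.1.1 - D ≤ x := h5
    have h6 : un k H * r.1.1.1 + un k H ≤ un k H * hi C.I r.1.1 := mul_step hU0.le (start_lt_hi r.1.2)
    rcases h5' with h7 | h7
    · refine ⟨r.1.1, bv_start r.1.2, ?_, ⟨by omega, by omega⟩, hy _ (Or.inl rfl)⟩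
      rw [L_inn h3 h4]
      unfold inn
      rw [if_pos (by omega)]
    · refine ⟨(hi C.I r.1.1, r.1.1.2), bv_hi r.1.2, ?_, ⟨by show un k H * hi C.I r.1.1 - un k H ≤ x; omega,
        by show x + 1 ≤ un k H * hi C.I r.1.1 + un k H; omega⟩, hy _ (Or.inl rfl)⟩
      rw [L_inn h3 h4]
      unfold inn
      rw [if_neg (by omega)]

/-- **the walls with the label `j` are close to vertices with the label `j`** -/
theorem arc_near (hC : C.Ok) (hP : Par k H D) {j : Fin 4} {w : ℂ} (hw : w ∈ (marks hC k H D).arc j) :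
    ∃ P : ℤ × ℤ, C.BV P ∧ C.lab P = j ∧ Cl (un k H) P w := by
  have hU : 2 * (D : ℤ) + 2 ≤ un k H := hP.small
  have hD : (1 : ℤ) ≤ D := by exact_mod_cast hP.D_pos
  have hU0 : 0 < un k H := by omega
  obtain ⟨hh1, hh2⟩ := half_spec hU
  -- heights of the rooms of a strip
  have hrow : ∀ (y : ℤ) (i : ℕ), i < k + 1 → un k H * y ≤ un k H * y + i * (H + 1) ∧
      un k H * y + i * (H + 1) + H + 1 ≤ un k H * y + un k H := by
    intro y i hi
    have hi1 : (0 : ℤ) ≤ i * (H + 1) := by positivity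
    have h3 : (i : ℤ) + 1 ≤ k + 1 := by exact_mod_cast hi
    have h4 : ((i : ℤ) + 1) * (H + 1) ≤ (k + 1) * (H + 1) := mul_le_mul_of_nonneg_right h3 (by positivity)
    unfold un at *
    constructor <;> linarith
  rcases hw with ⟨q, h1, ⟨h2, h3⟩, h4⟩ | ⟨q, h1, ⟨h2, h3⟩, h4⟩ | ⟨r, b, x, ⟨h1, h2⟩, h3, h4, ⟨h5, h6⟩, h7⟩
  · rcases q with r | r | p
    · refine ⟨r.1.1, bv_start r.1.2, h4, ?_⟩
      have h5 := hrow r.1.1.2 r.2 r.2.2
      refine cl_of (a := un k H * r.1.1.1) (b := un k H * r.1.1.1) (by omega) (by omega) h1.ge h1.le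
        (c := (C.shape k H D).yb (.inl r)) (e := (C.shape k H D).yt (.inl r)) ?_ ?_ h2 h3
      · show un k H * r.1.1.2 - un k H ≤ un k H * r.1.1.2 + (r.2 : ℕ) * (H + 1)
        omega
      · show un k H * r.1.1.2 + (r.2 : ℕ) * (H + 1) + H ≤ un k H * r.1.1.2 + un k H
        omega
    · refine ⟨r.1.1, bv_start r.1.2, h4, ?_⟩
      have h5 := hrow r.1.1.2 r.2 (by have := r.2.2; omega)
      refine cl_of (a := un k H * r.1.1.1 + D) (b := un k H * r.1.1.1 + D) (by omega) (by omega) h1.ge h1.le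
        (c := (C.shape k H D).yb (.inr (.inl r))) (e := (C.shape k H D).yt (.inr (.inl r))) ?_ ?_ h2 h3
      · show un k H * r.1.1.2 - un k H ≤ un k H * r.1.1.2 + (r.2 : ℕ) * (H + 1) + H
        omega
      · show un k H * r.1.1.2 + (r.2 : ℕ) * (H + 1) + H + 1 ≤ un k H * r.1.1.2 + un k H
        omega
    · have hJ : (p.1.1, p.1.2) ∈ C.J := (mem_starts.1 p.2).1
      have h5 := bv_lo hJ
      have h6 : lo C.J (p.1.1, p.1.2) = p.1.1 := lo_start p.2
      rw [h6] at h5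
      refine ⟨(p.1.1, p.1.2 + 1), h5, h4, ?_⟩
      have e : un k H * (p.1.2 + 1) = un k H * p.1.2 + un k H := by ring
      refine cl_of (a := un k H * p.1.1 + D) (b := un k H * p.1.1 + D) (by show un k H * p.1.1 - un k H ≤ _; omega)
        (by show _ ≤ un k H * p.1.1 + un k H; omega) h1.ge h1.le
        (c := (C.shape k H D).yb (.inr (.inr p))) (e := (C.shape k H D).yt (.inr (.inr p))) ?_ ?_ h2 h3
      · show un k H * (p.1.2 + 1) - un k H ≤ un k H * (p.1.2 + 1) - 1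
        omega
      · show un k H * (p.1.2 + 1) ≤ un k H * (p.1.2 + 1) + un k H
        omega
  · rcases q with r | r | p
    · refine ⟨(hi C.I r.1.1, r.1.1.2), bv_hi r.1.2, h4, ?_⟩
      have h5 := hrow r.1.1.2 r.2 r.2.2
      refine cl_of (a := un k H * hi C.I r.1.1) (b := un k H * hi C.I r.1.1)
        (by show un k H * hi C.I r.1.1 - un k H ≤ _; omega) (by show _ ≤ un k H * hi C.I r.1.1 + un k H; omega)
        h1.ge h1.le (c := (C.shape k H D).yb (.inl r)) (e := (C.shape k H D).yt (.inl r)) ?_ ?_ h2 h3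
      · show un k H * r.1.1.2 - un k H ≤ un k H * r.1.1.2 + (r.2 : ℕ) * (H + 1)
        omega
      · show un k H * r.1.1.2 + (r.2 : ℕ) * (H + 1) + H ≤ un k H * r.1.1.2 + un k H
        omega
    · refine ⟨(hi C.I r.1.1, r.1.1.2), bv_hi r.1.2, h4, ?_⟩
      have h5 := hrow r.1.1.2 r.2 (by have := r.2.2; omega)
      refine cl_of (a := un k H * hi C.I r.1.1 - D) (b := un k H * hi C.I r.1.1 - D)
        (by show un k H * hi C.I r.1.1 - un k H ≤ _; omega) (by show _ ≤ un k H * hi C.I r.1.1 + un k H; omega)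
        h1.ge h1.le (c := (C.shape k H D).yb (.inr (.inl r))) (e := (C.shape k H D).yt (.inr (.inl r))) ?_ ?_ h2 h3
      · show un k H * r.1.1.2 - un k H ≤ un k H * r.1.1.2 + (r.2 : ℕ) * (H + 1) + H
        omega
      · show un k H * r.1.1.2 + (r.2 : ℕ) * (H + 1) + H + 1 ≤ un k H * r.1.1.2 + un k H
        omega
    · have hJ : (p.1.1, p.1.2) ∈ C.J := (mem_starts.1 p.2).1
      refine ⟨(hi C.J p.1, p.1.2 + 1), bv_hiJ hJ, h4, ?_⟩
      have e : un k H * (p.1.2 + 1) = un k H * p.1.2 + un k H := by ring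
      refine cl_of (a := un k H * hi C.J p.1 - D) (b := un k H * hi C.J p.1 - D)
        (by show un k H * hi C.J p.1 - un k H ≤ _; omega)
        (by show _ ≤ un k H * hi C.J p.1 + un k H; omega) h1.ge h1.le
        (c := (C.shape k H D).yb (.inr (.inr p))) (e := (C.shape k H D).yt (.inr (.inr p))) ?_ ?_ h2 h3
      · show un k H * (p.1.2 + 1) - un k H ≤ un k H * (p.1.2 + 1) - 1
        omega
      · show un k H * (p.1.2 + 1) ≤ un k H * (p.1.2 + 1) + un k H
        omega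
  · have key : ∀ t : Bool, C.L k H D t r b x = j → ∃ P : ℤ × ℤ, C.BV P ∧ C.lab P = j ∧ Cl (un k H) P w := by
      intro t ht
      obtain ⟨P, hP1, hP2, ⟨hP3, hP4⟩, hP5, hP6⟩ := L_near (t := t) hP h1 h2 h3
      refine ⟨P, hP1, by rw [← hP2, ht], ?_⟩
      refine cl_of (a := x) (b := x + 1) hP3 hP4 h5 (by push_cast; exact h6) hP5 hP6 h4.ge h4.le
    rcases h7 with h7 | h7
    · exact key true h7
    · exact key false h7

/-! ### every vertex of the boundary is close to a wall with its label -/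

lemma arc_of_cell (hC : C.Ok) {t : Bool} {r : (C.shape k H D).R} {b : Bool} {x : ℤ}
    (h1 : (C.shape k H D).xl (.inl r) ≤ x) (h2 : x < (C.shape k H D).xr (.inl r))
    (hop : ∀ l, (C.shape k H D).Att l r b → x < (C.shape k H D).xl (.inr l) ∨ (C.shape k H D).xr (.inr l) ≤ x) :
    (⟨(x : ℝ), ((if b then (C.shape k H D).yt (.inl r) else (C.shape k H D).yb (.inl r) : ℤ) : ℝ)⟩ : ℂ) ∈
      (marks hC k H D).arc (C.L k H D t r b x) := by
  right; right
  refine ⟨r, b, x, ⟨h1, h2⟩, hop, rfl, ⟨le_rfl, by show (x : ℝ) ≤ x + 1; linarith⟩, ?_⟩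
  cases t
  · exact Or.inr rfl
  · exact Or.inl rfl

lemma wall_l (hC : C.Ok) {p : ℤ × ℤ} (hp : p ∈ starts C.I) :
    (⟨((un k H * p.1 : ℤ) : ℝ), ((un k H * p.2 : ℤ) : ℝ)⟩ : ℂ) ∈ (marks hC k H D).arc (C.lab p) := by
  left
  have e1 : (C.shape k H D).yb (.inl (⟨p, hp⟩, 0)) = un k H * p.2 := by
    show un k H * p.2 + (((0 : Fin (k + 1)) : ℕ) : ℤ) * (H + 1) = un k H * p.2
    simp
  have e2 : (C.shape k H D).yt (.inl (⟨p, hp⟩, 0)) = un k H * p.2 + H := by
    show un k H * p.2 + (((0 : Fin (k + 1)) : ℕ) : ℤ) * (H + 1) + H = un k H * p.2 + H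
    simp
  refine ⟨.inl (⟨p, hp⟩, 0), rfl, ⟨?_, ?_⟩, rfl⟩
  · rw [e1]
  · rw [e2]
    show ((un k H * p.2 : ℤ) : ℝ) ≤ _
    exact_mod_cast (by omega : un k H * p.2 ≤ un k H * p.2 + H)

lemma wall_r (hC : C.Ok) {p : ℤ × ℤ} (hp : p ∈ starts C.I) :
    (⟨((un k H * hi C.I p : ℤ) : ℝ), ((un k H * p.2 : ℤ) : ℝ)⟩ : ℂ) ∈
      (marks hC k H D).arc (C.lab (hi C.I p, p.2)) := by
  right; left
  have e1 : (C.shape k H D).yb (.inl (⟨p, hp⟩, 0)) = un k H * p.2 := by
    show un k H * p.2 + (((0 : Fin (k + 1)) : ℕ) : ℤ) * (H + 1) = un k H * p.2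
    simp
  have e2 : (C.shape k H D).yt (.inl (⟨p, hp⟩, 0)) = un k H * p.2 + H := by
    show un k H * p.2 + (((0 : Fin (k + 1)) : ℕ) : ℤ) * (H + 1) + H = un k H * p.2 + H
    simp
  refine ⟨.inl (⟨p, hp⟩, 0), rfl, ⟨?_, ?_⟩, rfl⟩
  · rw [e1]
  · rw [e2]
    show ((un k H * p.2 : ℤ) : ℝ) ≤ _
    exact_mod_cast (by omega : un k H * p.2 ≤ un k H * p.2 + H)

/-- the two ends of a floor -/
lemma floor_pts (hC : C.Ok) (hP : Par k H D) {c y : ℤ} (h1 : (c, y) ∈ C.I) (h0 : (c, y - 1) ∉ C.I) :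
    (⟨((un k H * c : ℤ) : ℝ), ((un k H * y : ℤ) : ℝ)⟩ : ℂ) ∈ (marks hC k H D).arc (C.lab (c, y)) ∧
    (⟨((un k H * c + un k H - 1 : ℤ) : ℝ), ((un k H * y : ℤ) : ℝ)⟩ : ℂ) ∈
      (marks hC k H D).arc (C.lab (c + 1, y)) := by
  have hU : 2 * (D : ℤ) + 2 ≤ un k H := hP.small
  have hD : (1 : ℤ) ≤ D := by exact_mod_cast hP.D_pos
  have hU0 : 0 < un k H := by omega
  obtain ⟨hh1, hh2⟩ := half_spec hU
  have hJ : (c, y - 1) ∉ C.J := fun h => h0 (J_sub h)
  set r : (C.shape k H D).R := (⟨(lo C.I (c, y), y), st_mem h1⟩, 0) with hr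
  have hx0 : lo C.I (c, y) ≤ c := lo_le h1
  have hx1 : c < hi C.I (lo C.I (c, y), y) := by
    have : hi C.I (lo C.I (c, y), y) = hi C.I (c, y) := hi_congr (p := (c, y)) le_rfl (lo_lt_hi h1)
    rw [this]; exact lt_hi h1
  have hm0 := mul_mono hU0.le hx0
  have hm1 := mul_step hU0.le hx1
  have hop : ∀ x : ℤ, un k H * c ≤ x → x < un k H * c + un k H → ∀ l, (C.shape k H D).Att l r false →
      x < (C.shape k H D).xl (.inr l) ∨ (C.shape k H D).xr (.inr l) ≤ x := by
    intro x hx hx' l hl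
    rcases att_cases hl with ⟨i, -, h2, -⟩ | ⟨q, -, h2, -⟩ | ⟨q, rfl, -, -, h2⟩
    · exact absurd ⟨rfl, rfl⟩ h2
    · exact absurd h2 (by decide)
    · obtain ⟨e1, e2, e3, e4⟩ := in_up h2
      have e1' : q.1.2 = y - 1 := e1
      rcases lt_or_ge c q.1.1 with h3 | h3
      · left
        show x < un k H * q.1.1 + D
        have := mul_step hU0.le h3
        omega
      · right
        have h4 : hi C.J q.1 ≤ c := by
          by_contra h4
          have h5 := mem_run_start q.2 h3 (not_le.1 h4)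
          rw [e1'] at h5
          exact hJ h5
        show un k H * hi C.J q.1 - D ≤ x
        have := mul_mono hU0.le h4
        omega
  have eyb : (C.shape k H D).yb (.inl r) = un k H * y := by
    show un k H * y + (((0 : Fin (k + 1)) : ℕ) : ℤ) * (H + 1) = un k H * y
    simp
  constructor
  · have h2 := arc_of_cell hC (t := true) (r := r) (b := false) (x := un k H * c) hm0
      (by show un k H * c < un k H * hi C.I (lo C.I (c, y), y); omega) (hop _ le_rfl (by omega))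
    rw [L_floor rfl] at h2
    have h3 : C.lev (un k H) D true r.1.1.1 (hi C.I r.1.1) (r.1.1.2 - 1) r.1.1.2 (un k H * c) = C.lab (c, y) :=
      lev_fst' (c := c) le_rfl (by omega) hx0 hx1 hJ (Or.inl (by omega))
    rw [h3] at h2
    simp only [Bool.false_eq_true, if_false, eyb] at h2
    exact h2
  · have h2 := arc_of_cell hC (t := false) (r := r) (b := false) (x := un k H * c + un k H - 1)
      (by show un k H * lo C.I (c, y) ≤ _; omega)
      (by show un k H * c + un k H - 1 < un k H * hi C.I (lo C.I (c, y), y); omega) (hop _ (by omega) (by omega))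
    rw [L_floor rfl] at h2
    have h3 : C.lev (un k H) D false r.1.1.1 (hi C.I r.1.1) (r.1.1.2 - 1) r.1.1.2 (un k H * c + un k H - 1) =
        C.lab (c + 1, y) :=
      lev_snd (c := c) (by omega) (by omega) hx0 hx1 hJ (by
        rintro (h | ⟨h, -⟩)
        · omega
        · exact Bool.false_ne_true h)
    rw [h3] at h2
    simp only [Bool.false_eq_true, if_false, eyb] at h2
    exact h2

/-- the two ends of a ceiling -/
lemma ceil_pts (hC : C.Ok) (hP : Par k H D) {c y : ℤ} (h1 : (c, y) ∈ C.I) (h0 : (c, y + 1) ∉ C.I) :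
    (⟨((un k H * c : ℤ) : ℝ), ((un k H * (y + 1) - 1 : ℤ) : ℝ)⟩ : ℂ) ∈
      (marks hC k H D).arc (C.lab (c, y + 1)) ∧
    (⟨((un k H * c + un k H - 1 : ℤ) : ℝ), ((un k H * (y + 1) - 1 : ℤ) : ℝ)⟩ : ℂ) ∈
      (marks hC k H D).arc (C.lab (c + 1, y + 1)) := by
  have hU : 2 * (D : ℤ) + 2 ≤ un k H := hP.small
  have hD : (1 : ℤ) ≤ D := by exact_mod_cast hP.D_pos
  have hU0 : 0 < un k H := by omega
  obtain ⟨hh1, hh2⟩ := half_spec hU
  have hJ : (c, y) ∉ C.J := fun h => h0 (mem_J.1 h).2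
  set r : (C.shape k H D).R := (⟨(lo C.I (c, y), y), st_mem h1⟩, Fin.last k) with hr
  have hx0 : lo C.I (c, y) ≤ c := lo_le h1
  have hx1 : c < hi C.I (lo C.I (c, y), y) := by
    have : hi C.I (lo C.I (c, y), y) = hi C.I (c, y) := hi_congr (p := (c, y)) le_rfl (lo_lt_hi h1)
    rw [this]; exact lt_hi h1
  have hm0 := mul_mono hU0.le hx0
  have hm1 := mul_step hU0.le hx1
  have hop : ∀ x : ℤ, un k H * c ≤ x → x < un k H * c + un k H → ∀ l, (C.shape k H D).Att l r true →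
      x < (C.shape k H D).xl (.inr l) ∨ (C.shape k H D).xr (.inr l) ≤ x := by
    intro x hx hx' l hl
    rcases att_cases hl with ⟨i, -, -, h2⟩ | ⟨q, rfl, -, -, h2⟩ | ⟨q, -, h2, -⟩
    · exact absurd ⟨rfl, rfl⟩ h2
    · obtain ⟨e1, e2, e3, e4⟩ := in_dn h2
      have e1' : q.1.2 = y := e1
      rcases lt_or_ge c q.1.1 with h3 | h3
      · left
        show x < un k H * q.1.1 + D
        have := mul_step hU0.le h3
        omega
      · right
        have h4 : hi C.J q.1 ≤ c := by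
          by_contra h4
          have h5 := mem_run_start q.2 h3 (not_le.1 h4)
          rw [e1'] at h5
          exact hJ h5
        show un k H * hi C.J q.1 - D ≤ x
        have := mul_mono hU0.le h4
        omega
    · exact absurd h2 (by decide)
  have eyt : (C.shape k H D).yt (.inl r) = un k H * (y + 1) - 1 := by
    show un k H * y + (((Fin.last k : Fin (k + 1)) : ℕ) : ℤ) * (H + 1) + H = un k H * (y + 1) - 1
    rw [Fin.val_last]
    unfold un
    ring
  constructor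
  · have h2 := arc_of_cell hC (t := true) (r := r) (b := true) (x := un k H * c) hm0
      (by show un k H * c < un k H * hi C.I (lo C.I (c, y), y); omega) (hop _ le_rfl (by omega))
    rw [L_ceil rfl] at h2
    have h3 : C.lev (un k H) D true r.1.1.1 (hi C.I r.1.1) r.1.1.2 (r.1.1.2 + 1) (un k H * c) =
        C.lab (c, y + 1) :=
      lev_fst' (c := c) le_rfl (by omega) hx0 hx1 hJ (Or.inl (by omega))
    rw [h3] at h2
    simp only [if_true, eyt] at h2
    exact h2
  · have h2 := arc_of_cell hC (t := false) (r := r) (b := true) (x := un k H * c + un k H - 1)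
      (by show un k H * lo C.I (c, y) ≤ _; omega)
      (by show un k H * c + un k H - 1 < un k H * hi C.I (lo C.I (c, y), y); omega) (hop _ (by omega) (by omega))
    rw [L_ceil rfl] at h2
    have h3 : C.lev (un k H) D false r.1.1.1 (hi C.I r.1.1) r.1.1.2 (r.1.1.2 + 1) (un k H * c + un k H - 1) =
        C.lab (c + 1, y + 1) :=
      lev_snd (c := c) (by omega) (by omega) hx0 hx1 hJ (by
        rintro (h | ⟨h, -⟩)
        · omega
        · exact Bool.false_ne_true h)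
    rw [h3] at h2
    simp only [if_true, eyt] at h2
    exact h2

/-- a vertical side above the vertex `P` -/
lemma vert_pt (hC : C.Ok) {P : ℤ × ℤ} (h : (P.1, P.2) ∈ C.I ↔ (P.1 - 1, P.2) ∉ C.I) :
    (⟨((un k H * P.1 : ℤ) : ℝ), ((un k H * P.2 : ℤ) : ℝ)⟩ : ℂ) ∈ (marks hC k H D).arc (C.lab P) := by
  by_cases h1 : (P.1, P.2) ∈ C.I
  · exact wall_l hC (mem_starts.2 ⟨h1, h.1 h1⟩)
  · have h2 : (P.1 - 1, P.2) ∈ C.I := by
      by_contra h2
      exact h1 (h.2 h2)
    have h3 : hi C.I (P.1 - 1, P.2) = P.1 := hi_eq (p := (P.1 - 1, P.2)) h1 (by show P.1 - 1 ≤ P.1; omega)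
      fun y hy1 hy2 => by
        have hy1' : P.1 - 1 ≤ y := hy1
        have : y = P.1 - 1 := by omega
        rw [this]; exact h2
    have h4 : hi C.I (lo C.I (P.1 - 1, P.2), P.2) = P.1 := by
      rw [hi_congr (p := (P.1 - 1, P.2)) le_rfl (lo_lt_hi h2), h3]
    have h5 := wall_r (k := k) (H := H) (D := D) hC (p := (lo C.I (P.1 - 1, P.2), P.2)) (st_mem h2)
    rw [h4] at h5
    exact h5

/-- **every vertex of the boundary is close to a wall with its label** -/
theorem near_arc (hC : C.Ok) (hP : Par k H D) {P : ℤ × ℤ} (h : C.BV P) :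
    ∃ w ∈ (marks hC k H D).arc (C.lab P), Cl (un k H) P w := by
  have hU : 2 * (D : ℤ) + 2 ≤ un k H := hP.small
  have hD : (1 : ℤ) ≤ D := by exact_mod_cast hP.D_pos
  have hU0 : 0 < un k H := by omega
  have key : ∀ a c : ℤ, un k H * P.1 - un k H ≤ a → a ≤ un k H * P.1 + un k H →
      un k H * P.2 - un k H ≤ c → c ≤ un k H * P.2 + un k H → Cl (un k H) P ⟨(a : ℝ), (c : ℝ)⟩ :=
    fun a c h1 h2 h3 h4 => cl_of h1 h2 le_rfl le_rfl h3 h4 le_rfl le_rfl
  have em : ∀ a : ℤ, un k H * (a - 1) = un k H * a - un k H := fun a => by ring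
  rcases h with h | h | h | h
  · exact ⟨_, vert_pt hC h, key _ _ (by omega) (by omega) (by omega) (by omega)⟩
  · have h1 := vert_pt (k := k) (H := H) (D := D) hC (P := (P.1, P.2 - 1)) h
    have h2 := hC.ver P.1 (P.2 - 1) h
    rw [sub_add_cancel] at h2
    rw [h2] at h1
    refine ⟨_, h1, key _ _ (by show _ ≤ un k H * P.1; omega) (by show un k H * P.1 ≤ _; omega) ?_ ?_⟩
    · show un k H * P.2 - un k H ≤ un k H * (P.2 - 1)
      rw [em]
    · show un k H * (P.2 - 1) ≤ un k H * P.2 + un k H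
      rw [em]; omega
  · by_cases h1 : (P.1, P.2) ∈ C.I
    · exact ⟨_, (floor_pts hC hP h1 (h.1 h1)).1, key _ _ (by omega) (by omega) (by omega) (by omega)⟩
    · have h2 : (P.1, P.2 - 1) ∈ C.I := by
        by_contra h2
        exact h1 (h.2 h2)
      have h3 := (ceil_pts (k := k) (H := H) (D := D) hC hP h2 (by rw [sub_add_cancel]; exact h1)).1
      rw [sub_add_cancel] at h3
      exact ⟨_, h3, key _ _ (by omega) (by omega) (by omega) (by omega)⟩
  · by_cases h1 : (P.1 - 1, P.2) ∈ C.I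
    · have h3 := (floor_pts (k := k) (H := H) (D := D) hC hP h1 (h.1 h1)).2
      rw [sub_add_cancel] at h3
      have e := em P.1
      exact ⟨_, h3, key _ _ (by omega) (by omega) (by omega) (by omega)⟩
    · have h2 : (P.1 - 1, P.2 - 1) ∈ C.I := by
        by_contra h2
        exact h1 (h.2 h2)
      have h3 := (ceil_pts (k := k) (H := H) (D := D) hC hP h2 (by rw [sub_add_cancel]; exact h1)).2
      rw [sub_add_cancel, sub_add_cancel] at h3
      have e := em P.1
      exact ⟨_, h3, key _ _ (by omega) (by omega) (by omega) (by omega)⟩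

/-- the mark is in the middle of the marked floor -/
lemma mark_pt (hC : C.Ok) (hP : Par k H D) (j : Fin 4) :
    (⟨((un k H * (C.mar j).1 + un k H / 2 : ℤ) : ℝ), ((un k H * (C.mar j).2 : ℤ) : ℝ)⟩ : ℂ) ∈
      (marks hC k H D).arc j := by
  have hm := marks_ok hC hP
  right; right
  refine ⟨(marks hC k H D).room j, false, (marks hC k H D).x j, ⟨(hm.left j).le, by have := hm.right j; omega⟩,
    fun l hl => ?_, ?_, ⟨le_rfl, ?_⟩, Or.inr (hm.floor j rfl).2⟩
  · rcases hm.wall j l hl with h | h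
    · left; omega
    · right; exact h.le
  · have e1 : (C.shape k H D).yb (.inl ((marks hC k H D).room j)) = un k H * (C.mar j).2 := by
      show un k H * (C.mar j).2 + (((0 : Fin (k + 1)) : ℕ) : ℤ) * (H + 1) = un k H * (C.mar j).2
      simp
    simp only [Bool.false_eq_true, if_false, e1]
  · show ((un k H * (C.mar j).1 + un k H / 2 : ℤ) : ℝ) ≤ ((un k H * (C.mar j).1 + un k H / 2 : ℤ) : ℝ) + 1
    linarith

/-- position of the mark -/
lemma mark_x (hC : C.Ok) (hP : Par k H D) (j : Fin 4) :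
    (marks hC k H D).room j = (⟨(lo C.I (C.mar j), (C.mar j).2), st_mem (hC.mar_mem j)⟩, 0) ∧
    (marks hC k H D).top j = false ∧ (marks hC k H D).x j = un k H * (C.mar j).1 + un k H / 2 ∧
    un k H * (C.mar j).1 + D + 1 ≤ (marks hC k H D).x j ∧
    (marks hC k H D).x j ≤ un k H * ((C.mar j).1 + 1) - D - 1 := by
  have hU : 2 * (D : ℤ) + 2 ≤ un k H := hP.small
  obtain ⟨hh1, hh2⟩ := half_spec hU
  refine ⟨rfl, rfl, rfl, ?_, ?_⟩
  · show un k H * (C.mar j).1 + D + 1 ≤ un k H * (C.mar j).1 + un k H / 2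
    omega
  · show un k H * (C.mar j).1 + un k H / 2 ≤ un k H * ((C.mar j).1 + 1) - D - 1
    rw [mul_add, mul_one]
    omega

end CDom
end Comb
end Full
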