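import Pool.Agent.Full.End.PolyIn

/-!
# FULL, combs: labels of the vertices of a simple lattice polygon with four marked floors

`v` is a counterclockwise simple closed lattice polygon, `M 0 < M 1 < M 2 < M 3` are edges pointing east (floors of
the interior).  The mark `j` is in the middle of the edge `M j`.  `lab p` is the label of the vertex `p`: `j` between
the mark `j` and the mark `j + 1`.
-/

set_option autoImplicit false

namespace Full.Comb

open Finset

/-- a counterclockwise simple lattice polygon with four marked floors -/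
structure PolyM (n : ℕ) (v : ℕ → ℤ × ℤ) (d : ℕ → Fin 4) (M : Fin 4 → ℕ) : Prop where
  poly : SPoly n v
  dirs : Dirs n v d
  ccw : ∀ i < n, sc n v (quad (v i) (d i)) = 1 ∧ sc n v (quad (v i) (d i - 1)) = 0
  m01 : M 0 < M 1
  m12 : M 1 < M 2
  m23 : M 2 < M 3
  m3 : M 3 < n
  east : ∀ j, d (M j) = 0

/-- the cell `p` is inside the polygon -/
def In (n : ℕ) (v : ℕ → ℤ × ℤ) (p : ℤ × ℤ) : Prop := sc n v p = 1

/-- the label of the vertex `v i`, `i < n` -/
def li (M : Fin 4 → ℕ) (i : ℕ) : Fin 4 :=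
  if i ≤ M 0 then 3 else if i ≤ M 1 then 0 else if i ≤ M 2 then 1 else if i ≤ M 3 then 2 else 3

open Classical in
/-- the label of a vertex of the polygon -/
noncomputable def lab (n : ℕ) (v : ℕ → ℤ × ℤ) (M : Fin 4 → ℕ) (p : ℤ × ℤ) : Fin 4 :=
  if h : ∃ i, i < n ∧ v i = p then li M h.choose else 0

variable {n : ℕ} {v : ℕ → ℤ × ℤ} {d : ℕ → Fin 4} {M : Fin 4 → ℕ}

namespace PolyM

variable (P : PolyM n v d M)
include P

lemma M_lt (j : Fin 4) : M j < n := by
  have h0 := P.m01; have h1 := P.m12; have h2 := P.m23; have h3 := P.m3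
  fin_cases j
  · show M 0 < n; omega
  · show M 1 < n; omega
  · show M 2 < n; omega
  · show M 3 < n; omega

lemma lab_v {i : ℕ} (hi : i < n) : lab n v M (v i) = li M i := by
  have h : ∃ k, k < n ∧ v k = v i := ⟨i, hi, rfl⟩
  unfold lab
  rw [dif_pos h]
  rw [P.poly.inj _ h.choose_spec.1 _ hi h.choose_spec.2]

lemma lab_v_succ {i : ℕ} (hi : i < n) (hm : ∀ j, M j ≠ i) : lab n v M (v (i + 1)) = lab n v M (v i) := by
  have h0 := P.m01; have h1 := P.m12; have h2 := P.m23; have h3 := P.m3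
  have n0 := hm 0; have n1 := hm 1; have n2 := hm 2; have n3 := hm 3
  by_cases hin : i + 1 = n
  · rw [hin, P.poly.closed, P.lab_v (by omega), P.lab_v hi]
    unfold li
    rw [if_pos (Nat.zero_le _), if_neg (by omega), if_neg (by omega), if_neg (by omega), if_neg (by omega)]
  · rw [P.lab_v (by omega), P.lab_v hi]
    unfold li
    split_ifs <;> first | rfl | omega

lemma lab_mark (j : Fin 4) : lab n v M (v (M j)) = j - 1 := by
  have h0 := P.m01; have h1 := P.m12; have h2 := P.m23; have h3 := P.m3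
  rw [P.lab_v (P.M_lt j)]
  unfold li
  fin_cases j
  · show (if M 0 ≤ M 0 then (3 : Fin 4) else _) = _
    rw [if_pos le_rfl]; rfl
  · show (if M 1 ≤ M 0 then (3 : Fin 4) else if M 1 ≤ M 1 then 0 else _) = _
    rw [if_neg (by omega), if_pos le_rfl]; rfl
  · show (if M 2 ≤ M 0 then (3 : Fin 4) else if M 2 ≤ M 1 then 0 else if M 2 ≤ M 2 then 1 else _) = _
    rw [if_neg (by omega), if_neg (by omega), if_pos le_rfl]; rfl
  · show (if M 3 ≤ M 0 then (3 : Fin 4) else if M 3 ≤ M 1 then 0 else if M 3 ≤ M 2 then 1 else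
      if M 3 ≤ M 3 then 2 else 3) = _
    rw [if_neg (by omega), if_neg (by omega), if_neg (by omega), if_pos le_rfl]; rfl

lemma lab_mark_succ (j : Fin 4) : lab n v M (v (M j + 1)) = j := by
  have h0 := P.m01; have h1 := P.m12; have h2 := P.m23; have h3 := P.m3
  by_cases hin : M j + 1 = n
  · have hj : j = 3 := by
      fin_cases j
      · exfalso; have : M 0 + 1 = n := hin; omega
      · exfalso; have : M 1 + 1 = n := hin; omega
      · exfalso; have : M 2 + 1 = n := hin; omega
      · rfl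
    rw [hin, P.poly.closed, P.lab_v (by omega), hj]
    unfold li
    rw [if_pos (Nat.zero_le _)]
  · rw [P.lab_v (by have := P.M_lt j; omega)]
    unfold li
    fin_cases j
    · show (if M 0 + 1 ≤ M 0 then (3 : Fin 4) else if M 0 + 1 ≤ M 1 then 0 else _) = _
      rw [if_neg (by omega), if_pos (by omega)]; rfl
    · show (if M 1 + 1 ≤ M 0 then (3 : Fin 4) else if M 1 + 1 ≤ M 1 then 0 else if M 1 + 1 ≤ M 2 then 1 else _) = _
      rw [if_neg (by omega), if_neg (by omega), if_pos (by omega)]; rfl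
    · show (if M 2 + 1 ≤ M 0 then (3 : Fin 4) else if M 2 + 1 ≤ M 1 then 0 else if M 2 + 1 ≤ M 2 then 1 else
        if M 2 + 1 ≤ M 3 then 2 else 3) = _
      rw [if_neg (by omega), if_neg (by omega), if_neg (by omega), if_pos (by omega)]; rfl
    · show (if M 3 + 1 ≤ M 0 then (3 : Fin 4) else if M 3 + 1 ≤ M 1 then 0 else if M 3 + 1 ≤ M 2 then 1 else
        if M 3 + 1 ≤ M 3 then 2 else 3) = _
      rw [if_neg (by omega), if_neg (by omega), if_neg (by omega), if_neg (by omega)]; rfl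

lemma sc_cases (p : ℤ × ℤ) : sc n v p = 0 ∨ sc n v p = 1 := by
  have h := P.poly.values P.dirs (a := 1) (fun i hi => by
    have := P.ccw i hi
    exact ⟨this.1, by rw [this.2]; norm_num⟩) p
  norm_num at h
  exact h

lemma sc_of_not {p : ℤ × ℤ} (h : ¬ In n v p) : sc n v p = 0 := (P.sc_cases p).resolve_right h

/-- an interior cell and an exterior cell on the two sides of the ray from `w` in the direction `k` -/
lemma exists_edge {w : ℤ × ℤ} {k : Fin 4} (h1 : In n v (quad w k)) (h0 : ¬ In n v (quad w (k - 1))) :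
    ∃ i < n, v i = w ∧ v (i + 1) = w + dir k ∧ d i = k := by
  have hs := P.poly.toCWalk.step w k
  rw [h1, P.sc_of_not h0] at hs
  have : ∃ i ∈ range n, 0 < fl (v i) (v (i + 1)) w (w + dir k) := by
    by_contra hc
    push Not at hc
    have := Finset.sum_nonpos hc
    unfold flow at hs
    omega
  obtain ⟨i, hi, hp⟩ := this
  have hi' := mem_range.1 hi
  unfold fl at hp
  have hc : (v i).1 = w.1 ∧ (v i).2 = w.2 ∧ (v (i + 1)).1 = (w + dir k).1 ∧ (v (i + 1)).2 = (w + dir k).2 := by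
    split_ifs at hp with ha hb hb
    · omega
    · exact ⟨ha.1.1, ha.1.2, ha.2.1, ha.2.2⟩
    · omega
    · omega
  have e1 : v i = w := Prod.ext hc.1 hc.2.1
  have e2 : v (i + 1) = w + dir k := Prod.ext hc.2.2.1 hc.2.2.2
  refine ⟨i, hi', e1, e2, ?_⟩
  have e3 := P.dirs i hi'
  rw [e2, e1] at e3
  exact (dir_inj (add_left_cancel e3)).symm

lemma not_mark {i : ℕ} (h : d i ≠ 0) (j : Fin 4) : M j ≠ i := by
  rintro rfl
  exact h (P.east j)

/-- left wall -/
lemma west {x y : ℤ} (h1 : In n v (x, y)) (h0 : ¬ In n v (x - 1, y)) :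
    ∃ i < n, v i = (x, y + 1) ∧ v (i + 1) = (x, y) ∧ d i = 3 := by
  obtain ⟨i, hi, e1, e2, e3⟩ := P.exists_edge (w := (x, y + 1)) (k := 3)
    (by show In n v (x, y + 1 - 1); simpa using h1) (by show ¬ In n v (x - 1, y + 1 - 1); simpa using h0)
  exact ⟨i, hi, e1, by rw [e2]; simp [dir], e3⟩

/-- right wall -/
lemma rightw {x y : ℤ} (h1 : In n v (x - 1, y)) (h0 : ¬ In n v (x, y)) :
    ∃ i < n, v i = (x, y) ∧ v (i + 1) = (x, y + 1) ∧ d i = 1 := by
  obtain ⟨i, hi, e1, e2, e3⟩ := P.exists_edge (w := (x, y)) (k := 1)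
    (by show In n v (x - 1, y); exact h1) (by show ¬ In n v (x, y); exact h0)
  exact ⟨i, hi, e1, by rw [e2]; simp [dir], e3⟩

/-- floor -/
lemma floor {x y : ℤ} (h1 : In n v (x, y)) (h0 : ¬ In n v (x, y - 1)) :
    ∃ i < n, v i = (x, y) ∧ v (i + 1) = (x + 1, y) ∧ d i = 0 := by
  obtain ⟨i, hi, e1, e2, e3⟩ := P.exists_edge (w := (x, y)) (k := 0)
    (by show In n v (x, y); exact h1) (by show ¬ In n v (x, y - 1); exact h0)
  exact ⟨i, hi, e1, by rw [e2]; simp [dir], e3⟩

/-- ceiling -/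
lemma ceil {x y : ℤ} (h1 : In n v (x, y)) (h0 : ¬ In n v (x, y + 1)) :
    ∃ i < n, v i = (x + 1, y + 1) ∧ v (i + 1) = (x, y + 1) ∧ d i = 2 := by
  obtain ⟨i, hi, e1, e2, e3⟩ := P.exists_edge (w := (x + 1, y + 1)) (k := 2)
    (by show In n v (x + 1 - 1, y + 1 - 1); simpa using h1) (by show ¬ In n v (x + 1 - 1, y + 1); simpa using h0)
  exact ⟨i, hi, e1, by rw [e2]; simp [dir], e3⟩

lemma lab_west {x y : ℤ} (h1 : In n v (x, y)) (h0 : ¬ In n v (x - 1, y)) :
    lab n v M (x, y + 1) = lab n v M (x, y) := by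
  obtain ⟨i, hi, e1, e2, e3⟩ := P.west h1 h0
  have := P.lab_v_succ hi (P.not_mark (by rw [e3]; decide))
  rw [e1, e2] at this
  exact this.symm

lemma lab_right {x y : ℤ} (h1 : In n v (x - 1, y)) (h0 : ¬ In n v (x, y)) :
    lab n v M (x, y + 1) = lab n v M (x, y) := by
  obtain ⟨i, hi, e1, e2, e3⟩ := P.rightw h1 h0
  have := P.lab_v_succ hi (P.not_mark (by rw [e3]; decide))
  rw [e1, e2] at this
  exact this

lemma lab_ceil {x y : ℤ} (h1 : In n v (x, y)) (h0 : ¬ In n v (x, y + 1)) :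
    lab n v M (x, y + 1) = lab n v M (x + 1, y + 1) := by
  obtain ⟨i, hi, e1, e2, e3⟩ := P.ceil h1 h0
  have := P.lab_v_succ hi (P.not_mark (by rw [e3]; decide))
  rw [e1, e2] at this
  exact this

lemma lab_floor {x y : ℤ} (h1 : In n v (x, y)) (h0 : ¬ In n v (x, y - 1)) (hm : ∀ j, v (M j) ≠ (x, y)) :
    lab n v M (x + 1, y) = lab n v M (x, y) := by
  obtain ⟨i, hi, e1, e2, e3⟩ := P.floor h1 h0
  have := P.lab_v_succ hi (fun j hj => hm j (by rw [hj, e1]))
  rw [e1, e2] at this
  exact this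

/-- the cell above the marked floor is inside, the cell below is outside -/
lemma mark_in (j : Fin 4) : In n v (v (M j)) ∧ ¬ In n v ((v (M j)).1, (v (M j)).2 - 1) ∧
    v (M j + 1) = ((v (M j)).1 + 1, (v (M j)).2) := by
  have h := P.ccw (M j) (P.M_lt j)
  rw [P.east j] at h
  have h2 : sc n v ((v (M j)).1, (v (M j)).2 - 1) = 0 := h.2
  refine ⟨h.1, fun h' => ?_, ?_⟩
  · unfold In at h'
    omega
  · have e := P.dirs (M j) (P.M_lt j)
    rw [P.east j] at e
    rw [e]
    ext <;> simp [dir]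

lemma M_mono {j k : Fin 4} (h : j < k) : M j < M k := by
  have h0 := P.m01; have h1 := P.m12; have h2 := P.m23
  fin_cases j <;> fin_cases k <;> first
    | exact absurd h (by decide)
    | exact h0
    | exact h1
    | exact h2
    | exact lt_trans h0 h1
    | exact lt_trans h1 h2
    | exact lt_trans h0 (lt_trans h1 h2)

lemma mark_inj {j k : Fin 4} (h : v (M j) = v (M k)) : j = k := by
  have e := P.poly.inj _ (P.M_lt j) _ (P.M_lt k) h
  rcases lt_trichotomy j k with hl | hl | hl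
  · exact absurd e (P.M_mono hl).ne
  · exact hl
  · exact absurd e (P.M_mono hl).ne'

/-! ### the interior is finite and connected, the exterior is connected -/

lemma joined {p q : ℤ × ℤ} (hp : In n v p) (hq : In n v q) : Jn {r | In n v r} p q := by
  have ha : ∀ i < n, sc n v (quad (v i) (d i)) = 1 ∧ sc n v (quad (v i) (d i - 1)) = 1 - 1 := fun i hi =>
    ⟨(P.ccw i hi).1, by rw [(P.ccw i hi).2]; norm_num⟩
  obtain ⟨X, hX⟩ := exists_left_bound n v
  have key : ∀ p, In n v p → ∃ i < n, Jn {r | In n v r} p (quad (v i) (d i)) := by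
    intro p hp
    rcases P.poly.descend P.dirs ha X p with ⟨i, hi, -, h2⟩ | ⟨i, hi, h1, -⟩ | ⟨q, h1, -, h3, -⟩
    · exact ⟨i, hi, h2⟩
    · unfold In at hp
      omega
    · have h4 : sc n v q = 0 := sc_far fun i hi => lt_of_le_of_lt h1 (hX i hi)
      unfold In at hp
      omega
  obtain ⟨i, hi, h1⟩ := key p hp
  obtain ⟨j, hj, h2⟩ := key q hq
  exact h1.trans ((P.poly.left_joined P.dirs ha hi hj).trans h2.symm)

omit P in
lemma far_down {X : ℤ} (hX : ∀ i < n, X < (v i).1) {x : ℤ} (hx : x ≤ X) (y : ℤ) (k : ℕ) :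
    Jn {r | ¬ In n v r} (x, y) (x, y - k) := by
  have hn : ∀ z, ¬ In n v (x, z) := by
    intro z h
    have : sc n v (x, z) = 0 := sc_far fun i hi => lt_of_le_of_lt hx (hX i hi)
    unfold In at h
    omega
  induction k with
  | zero =>
    simp only [Nat.cast_zero, sub_zero]
    exact Relation.ReflTransGen.refl
  | succ k ih =>
    refine ih.trans (Jn.of_adj ?_ (hn _) (hn _))
    unfold Adj
    push_cast
    simp

/-- every exterior cell is joined to cells far below -/
lemma ext {p : ℤ × ℤ} (hp : ¬ In n v p) (N : ℤ) : ∃ q : ℤ × ℤ, q.2 < N ∧ Jn {r | ¬ In n v r} p q := by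
  have ha : ∀ i < n, sc n v (quad (v i) (d i)) = 1 ∧ sc n v (quad (v i) (d i - 1)) = 1 - 1 := fun i hi =>
    ⟨(P.ccw i hi).1, by rw [(P.ccw i hi).2]; norm_num⟩
  have hsub : {r | sc n v r = 1 - 1} ⊆ {r | ¬ In n v r} := by
    intro r hr h
    have hr' : sc n v r = 1 - 1 := hr
    unfold In at h
    omega
  have hmono : ∀ {S T : Set (ℤ × ℤ)}, S ⊆ T → ∀ {a b}, Jn S a b → Jn T a b := by
    intro S T hST a b hab
    unfold Jn at hab ⊢
    refine Relation.ReflTransGen.mono ?_ a b hab
    intro x y h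
    exact ⟨h.1, hST h.2.1, hST h.2.2⟩
  obtain ⟨X, hX⟩ := exists_left_bound n v
  -- a cell far to the left
  have hfar : ∀ q : ℤ × ℤ, q.1 ≤ X → ∃ r : ℤ × ℤ, r.2 < N ∧ Jn {r | ¬ In n v r} q r := by
    intro q hq
    refine ⟨(q.1, q.2 - (q.2 - N + 1).toNat), ?_, far_down hX hq q.2 _⟩
    show q.2 - ((q.2 - N + 1).toNat : ℤ) < N
    omega
  rcases P.poly.descend P.dirs ha X p with ⟨i, hi, h1, -⟩ | ⟨i, hi, h1, h2⟩ | ⟨q, h1, -, h3, h4⟩
  · exact absurd h1 hp
  · obtain ⟨e, he, hmin, hde⟩ := P.poly.exists_extreme P.dirs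
    -- the extreme edge goes south
    have hd3 : d e = 3 := by
      rcases hde with h5 | h5
      · exfalso
        have h6 := (P.ccw e he).1
        rw [h5] at h6
        have h7 : sc n v (quad (v e) 1) = 0 := by
          refine sc_far fun j hj => ?_
          show (v e).1 - 1 < (v j).1
          have := hmin j hj
          omega
        omega
      · exact h5
    have h5 := P.poly.right_joined P.dirs ha hi he
    have h6 : Jn {r | ¬ In n v r} p (quad (v e) (d e - 1)) := hmono hsub (h2.trans h5)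
    set q := quad (v e) (d e - 1) with hq
    have hq1 : q.1 = (v e).1 - 1 := by rw [hq, hd3]; rfl
    have hX' : ∀ i < n, (v e).1 - 1 < (v i).1 := fun j hj => by have := hmin j hj; omega
    refine ⟨(q.1, q.2 - (q.2 - N + 1).toNat), ?_, h6.trans (far_down hX' hq1.le q.2 _)⟩
    show q.2 - ((q.2 - N + 1).toNat : ℤ) < N
    omega
  · have h5 : Jn {r | ¬ In n v r} p q := by
      refine hmono ?_ h4
      intro r hr h
      have hr' : sc n v r = sc n v p := hr
      have := P.sc_of_not hp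
      unfold In at h
      omega
    obtain ⟨r, hr, h6⟩ := hfar q h1
    exact ⟨r, hr, h5.trans h6⟩

omit P in
lemma exists_bound (n : ℕ) (v : ℕ → ℤ × ℤ) : ∃ B : ℤ, ∀ i ≤ n, |(v i).1| < B ∧ |(v i).2| < B := by
  induction n with
  | zero =>
    refine ⟨|(v 0).1| + |(v 0).2| + 1, fun i hi => ?_⟩
    obtain rfl : i = 0 := by omega
    have h1 := abs_nonneg (v 0).1
    have h2 := abs_nonneg (v 0).2
    constructor <;> omega
  | succ m ih =>
    obtain ⟨B, hB⟩ := ih
    refine ⟨max B (|(v (m + 1)).1| + |(v (m + 1)).2| + 1), fun i hi => ?_⟩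
    rcases Nat.lt_or_ge m i with h | h
    · obtain rfl : i = m + 1 := by omega
      have h1 := abs_nonneg (v (m + 1)).1
      have h2 := abs_nonneg (v (m + 1)).2
      constructor <;> refine lt_of_lt_of_le ?_ (le_max_right _ _) <;> omega
    · have := hB i h
      exact ⟨lt_of_lt_of_le this.1 (le_max_left _ _), lt_of_lt_of_le this.2 (le_max_left _ _)⟩

/-- winding number zero far away -/
lemma sc_right {p : ℤ × ℤ} (hp : ∀ i ≤ n, (v i).1 ≤ p.1) : sc n v p = 0 := by
  have h1 : ∀ i ∈ range n, sphi (v i) (v (i + 1)) p =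
      (if (v (i + 1)).2 ≤ p.2 then (1 : ℤ) else 0) - (if (v i).2 ≤ p.2 then 1 else 0) := by
    intro i hi
    have hi' := mem_range.1 hi
    have ha := (P.poly.adj i hi').cases
    have h2 := hp i hi'.le
    unfold sphi
    rcases ha with ⟨a1, a2⟩ | ⟨a1, a2⟩ | ⟨a1, a2⟩ | ⟨a1, a2⟩ <;> split_ifs <;> omega
  unfold sc
  rw [sum_congr rfl h1, sum_range_sub (fun i => if (v i).2 ≤ p.2 then (1 : ℤ) else 0), P.poly.closed, sub_self]

lemma finite_In : {p | In n v p}.Finite := by
  obtain ⟨B, hB⟩ := exists_bound n v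
  refine (Set.Finite.prod (Set.finite_Icc (-B) B) (Set.finite_Icc (-B) B)).subset ?_
  intro p hp
  have hp' : sc n v p = 1 := hp
  rw [Set.mem_prod, Set.mem_Icc, Set.mem_Icc]
  by_contra hc
  have h0 : sc n v p = 0 := by
    by_cases h1 : p.1 < -B
    · exact sc_far fun i hi => by have := (abs_lt.1 (hB i hi.le).1).1; omega
    by_cases h2 : B < p.1
    · exact P.sc_right fun i hi => by have := (abs_lt.1 (hB i hi).1).2; omega
    · unfold sc
      refine sum_eq_zero fun i hi => ?_
      have hi' := mem_range.1 hi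
      have h3 := abs_lt.1 (hB i hi'.le).2
      have h4 := abs_lt.1 (hB (i + 1) hi').2
      unfold sphi
      rw [if_neg (by omega), if_neg (by omega), sub_zero]
  omega

end PolyM

end Full.Comb
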