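import Pool.Agent.Full.Comb.Def
import Pool.Agent.Full.Comb.Vert

/-!
# FULL, combs: the coarse data of a counterclockwise simple lattice polygon with four marked floors
-/

set_option autoImplicit false

namespace Full.Comb

variable {n : ℕ} {v : ℕ → ℤ × ℤ} {d : ℕ → Fin 4} {M : Fin 4 → ℕ}

namespace PolyM

/-- the coarse data -/
noncomputable def cdom (P : PolyM n v d M) : CDom where
  I := P.finite_In.toFinset
  lab := lab n v M
  mar j := v (M j)

lemma mem_cdom (P : PolyM n v d M) {p : ℤ × ℤ} : p ∈ P.cdom.I ↔ In n v p := by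
  show p ∈ P.finite_In.toFinset ↔ _
  rw [Set.Finite.mem_toFinset]
  rfl

lemma coe_cdom (P : PolyM n v d M) : (P.cdom.I : Set (ℤ × ℤ)) = {p | In n v p} :=
  Set.ext fun _ => P.mem_cdom

lemma coe_cdom_compl (P : PolyM n v d M) : ((P.cdom.I : Set (ℤ × ℤ))ᶜ) = {p | ¬ In n v p} := by
  rw [coe_cdom]
  rfl

/-- **the coarse data of a polygon are admissible** -/
theorem cdom_ok (P : PolyM n v d M) : P.cdom.Ok where
  ne := ⟨v (M 0), P.mem_cdom.2 (P.mark_in 0).1⟩
  conn p hp q hq := by
    rw [coe_cdom]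
    exact P.joined (P.mem_cdom.1 hp) (P.mem_cdom.1 hq)
  compl p hp N := by
    rw [coe_cdom_compl]
    obtain ⟨q, hq, hJ⟩ := P.ext (fun h => hp (P.mem_cdom.2 h)) N
    refine ⟨q, hq, ?_, hJ⟩
    rcases Relation.ReflTransGen.cases_tail hJ with h | ⟨r, -, h⟩
    · rw [h]; exact hp
    · exact fun h' => h.2.2 (P.mem_cdom.1 h')
  mar_mem j := P.mem_cdom.2 (P.mark_in j).1
  mar_below j := fun h => (P.mark_in j).2.1 (P.mem_cdom.1 h)
  mar_l j := P.lab_mark j
  mar_r j := by
    show lab n v M ((v (M j)).1 + 1, (v (M j)).2) = j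
    rw [← (P.mark_in j).2.2]
    exact P.lab_mark_succ j
  hor x y h hm := by
    rw [P.mem_cdom, P.mem_cdom] at h
    show lab n v M (x, y) = lab n v M (x + 1, y)
    by_cases hx : In n v (x, y)
    · exact (P.lab_floor hx (h.1 hx) hm).symm
    · have h1 : In n v (x, y - 1) := by
        by_contra h2
        exact hx (h.2 h2)
      have h3 := P.lab_ceil h1 (by rw [sub_add_cancel]; exact hx)
      rwa [sub_add_cancel] at h3
  ver x y h := by
    rw [P.mem_cdom, P.mem_cdom] at h
    show lab n v M (x, y) = lab n v M (x, y + 1)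
    by_cases hx : In n v (x, y)
    · exact (P.lab_west hx (h.1 hx)).symm
    · have h1 : In n v (x - 1, y) := by
        by_contra h2
        exact hx (h.2 h2)
      exact (P.lab_right h1 hx).symm

end PolyM

end Full.Comb
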