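import Pool.Agent.Full.End.Iface
import Pool.Agent.Full.Comb.Poly
import Pool.Agent.Full.Comb.Dist

/-!
# FULL, combs: the coarse polygons of the end game
-/

set_option autoImplicit false

namespace Full

open Comb Comb.CDom

namespace Coarse
variable (B : Coarse)

lemma exists_polyM : ∃ d, PolyM B.n B.v d B.M := by
  obtain ⟨d, hd⟩ := B.poly.toCWalk.exists_dirs
  obtain ⟨a, ha⟩ := B.poly.sides hd
  have h3 := B.poly.three
  have hMlt : ∀ j, B.M j < B.n := by
    have h0 := B.m01; have h1 := B.m12; have h2 := B.m23; have h3 := B.m3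
    intro j
    fin_cases j
    · show B.M 0 < B.n; omega
    · show B.M 1 < B.n; omega
    · show B.M 2 < B.n; omega
    · show B.M 3 < B.n; omega
  have ha1 : a = 1 := by
    have h1 := ha 0 (by omega)
    have h2 := B.ccw (quad (B.v 0) (d 0))
    have h4 := B.ccw (quad (B.v 0) (d 0 - 1))
    omega
  refine ⟨d, B.poly, hd, fun i hi => ?_, B.m01, B.m12, B.m23, B.m3, fun j => ?_⟩
  · have h1 := ha i hi
    omega
  · have h1 := hd (B.M j) (hMlt j)
    rw [B.east j] at h1
    have h2 : ((1, 0) : ℤ × ℤ) = Full.dir 0 := rfl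
    rw [h2] at h1
    exact (dir_inj (add_left_cancel h1)).symm

/-- directions of the edges -/
noncomputable def dd : ℕ → Fin 4 := B.exists_polyM.choose

lemma polyM : PolyM B.n B.v B.dd B.M := B.exists_polyM.choose_spec

/-- the coarse data of the polygon -/
noncomputable def cdom : CDom := B.polyM.cdom

lemma mem_I {p : ℤ × ℤ} : p ∈ B.cdom.I ↔ B.In p := B.polyM.mem_cdom

lemma cdom_mar (j : Fin 4) : B.cdom.mar j = B.v (B.M j) := rfl

lemma cdom_lab (p : ℤ × ℤ) : B.cdom.lab p = lab B.n B.v B.M p := rfl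

theorem cdom_ok : B.cdom.Ok := B.polyM.cdom_ok

/-- vertices of the boundary are vertices of the polygon -/
lemma exists_v {P : ℤ × ℤ} (h : B.cdom.BV P) : ∃ i < B.n, B.v i = P := by
  have hP := B.polyM
  -- the end point of an edge
  have hend : ∀ i < B.n, B.v (i + 1) = P → ∃ i < B.n, B.v i = P := by
    intro i hi h
    by_cases h1 : i + 1 = B.n
    · exact ⟨0, by omega, by rw [← B.poly.closed, ← h1, h]⟩
    · exact ⟨i + 1, by omega, h⟩
  have key : ∀ (w : ℤ × ℤ) (k : Fin 4), B.In (quad w k) → ¬ B.In (quad w (k - 1)) →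
      (w = P ∨ w + Full.dir k = P) → ∃ i < B.n, B.v i = P := by
    intro w k h1 h2 h3
    obtain ⟨i, hi, e1, e2, -⟩ := hP.exists_edge h1 h2
    rcases h3 with h3 | h3
    · exact ⟨i, hi, by rw [e1, h3]⟩
    · exact hend i hi (by rw [e2, h3])
  obtain ⟨x, y⟩ := P
  have hI : ∀ p, p ∈ B.cdom.I ↔ B.In p := fun p => B.mem_I
  unfold BV at h
  simp only [hI] at h
  rcases h with h | h | h | h
  · by_cases h1 : B.In (x, y)
    · -- interior on the right: edge from (x, y + 1) to (x, y)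
      refine key (x, y + 1) 3 ?_ ?_ (Or.inr ?_)
      · show B.In (x, y + 1 - 1); simpa using h1
      · show ¬ B.In (x - 1, y + 1 - 1); simpa using h.1 h1
      · ext <;> simp [Full.dir]
    · have h2 : B.In (x - 1, y) := by by_contra h2; exact h1 (h.2 h2)
      exact key (x, y) 1 h2 h1 (Or.inl rfl)
  · by_cases h1 : B.In (x, y - 1)
    · exact key (x, y) 3 h1 (h.1 h1) (Or.inl rfl)
    · have h2 : B.In (x - 1, y - 1) := by by_contra h2; exact h1 (h.2 h2)
      refine key (x, y - 1) 1 h2 h1 (Or.inr ?_)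
      ext <;> simp [Full.dir]
  · by_cases h1 : B.In (x, y)
    · exact key (x, y) 0 h1 (h.1 h1) (Or.inl rfl)
    · have h2 : B.In (x, y - 1) := by by_contra h2; exact h1 (h.2 h2)
      refine key (x + 1, y) 2 ?_ ?_ (Or.inr ?_)
      · show B.In (x + 1 - 1, y - 1); simpa using h2
      · show ¬ B.In (x + 1 - 1, y); simpa using h1
      · ext <;> simp [Full.dir]
  · by_cases h1 : B.In (x - 1, y)
    · refine key (x - 1, y) 0 h1 (h.1 h1) (Or.inr ?_)
      ext <;> simp [Full.dir]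
    · have h2 : B.In (x - 1, y - 1) := by by_contra h2; exact h1 (h.2 h2)
      exact key (x, y) 2 h2 h1 (Or.inl rfl)

/-- vertices of the polygon are vertices of the boundary -/
lemma bv_v {i : ℕ} (hi : i < B.n) : B.cdom.BV (B.v i) := by
  have hP := B.polyM
  have h := hP.ccw i hi
  have hI : ∀ p, p ∈ B.cdom.I ↔ B.In p := fun p => B.mem_I
  have h1 : quad (B.v i) (B.dd i) ∈ B.cdom.I := (hI _).2 h.1
  have h2 : quad (B.v i) (B.dd i - 1) ∉ B.cdom.I := by
    rw [hI]
    intro h3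
    have h4 : sc B.n B.v (quad (B.v i) (B.dd i - 1)) = 1 := h3
    omega
  generalize B.dd i = k at h1 h2
  unfold BV
  fin_cases k
  · right; right; left
    exact ⟨fun _ => h2, fun _ => h1⟩
  · left
    exact ⟨fun h3 => absurd h3 h2, fun h3 => absurd h1 h3⟩
  · right; right; right
    exact ⟨fun h3 => absurd h3 h2, fun h3 => absurd h1 h3⟩
  · right; left
    exact ⟨fun _ => h2, fun _ => h1⟩

lemma on_of_lab {i : ℕ} (hi : i < B.n) {j : Fin 4} (h : B.cdom.lab (B.v i) = j) : B.On j i := by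
  have h1 : B.cdom.lab (B.v i) = li B.M i := B.polyM.lab_v hi
  rw [h1] at h
  have h01 := B.m01; have h12 := B.m12; have h23 := B.m23; have h3 := B.m3
  subst h
  refine ⟨hi, ?_⟩
  unfold li
  by_cases c0 : i ≤ B.M 0
  · rw [if_pos c0, if_pos rfl]; exact Or.inl c0
  rw [if_neg c0]
  by_cases c1 : i ≤ B.M 1
  · rw [if_pos c1, if_neg (by decide)]; exact ⟨by omega, c1⟩
  rw [if_neg c1]
  by_cases c2 : i ≤ B.M 2
  · rw [if_pos c2, if_neg (by decide)]; exact ⟨by omega, c2⟩
  rw [if_neg c2]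
  by_cases c3 : i ≤ B.M 3
  · rw [if_pos c3, if_neg (by decide)]; exact ⟨by omega, c3⟩
  · rw [if_neg c3, if_pos rfl]; exact Or.inr (by omega)

lemma lab_of_on {i : ℕ} {j : Fin 4} (h : B.On j i) : B.cdom.lab (B.v i) = j ∨ i = B.M j := by
  obtain ⟨hi, h⟩ := h
  have h1 : B.cdom.lab (B.v i) = li B.M i := B.polyM.lab_v hi
  rw [h1]
  have h01 := B.m01; have h12 := B.m12; have h23 := B.m23; have h3 := B.m3
  unfold li
  fin_cases j
  · have h' : B.M 0 ≤ i ∧ i ≤ B.M 1 := h
    rcases eq_or_lt_of_le h'.1 with h4 | h4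
    · right; exact h4.symm
    · left; rw [if_neg (by omega), if_pos h'.2]; rfl
  · have h' : B.M 1 ≤ i ∧ i ≤ B.M 2 := h
    rcases eq_or_lt_of_le h'.1 with h4 | h4
    · right; exact h4.symm
    · left; rw [if_neg (by omega), if_neg (by omega), if_pos h'.2]; rfl
  · have h' : B.M 2 ≤ i ∧ i ≤ B.M 3 := h
    rcases eq_or_lt_of_le h'.1 with h4 | h4
    · right; exact h4.symm
    · left; rw [if_neg (by omega), if_neg (by omega), if_neg (by omega), if_pos h'.2]; rfl
  · have h' : i ≤ B.M 0 ∨ B.M 3 ≤ i := h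
    rcases h' with h4 | h4
    · left; rw [if_pos h4]; rfl
    · rcases eq_or_lt_of_le h4 with h5 | h5
      · right; exact h5.symm
      · left; rw [if_neg (by omega), if_neg (by omega), if_neg (by omega), if_neg (by omega)]; rfl

lemma norm_le_of_cl {U : ℤ} (hU : 0 < U) {P : ℤ × ℤ} {w : ℂ} (h : Cl U P w) : ‖w / (U : ℂ) - cp P‖ ≤ 2 := by
  have hU' : (0 : ℝ) < U := by exact_mod_cast hU
  have e : w / (U : ℂ) - cp P = ⟨(w.re - U * P.1) / U, (w.im - U * P.2) / U⟩ := by
    have e1 : (U : ℂ) = ((U : ℝ) : ℂ) := by push_cast; rfl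
    apply Complex.ext
    · rw [e1, Complex.sub_re, Complex.div_ofReal_re]
      show w.re / U - P.1 = (w.re - U * P.1) / U
      field_simp
    · rw [e1, Complex.sub_im, Complex.div_ofReal_im]
      show w.im / U - P.2 = (w.im - U * P.2) / U
      field_simp
  rw [e]
  refine (Complex.norm_le_abs_re_add_abs_im _).trans ?_
  show |(w.re - U * P.1) / U| + |(w.im - U * P.2) / U| ≤ 2
  rw [abs_div, abs_div, abs_of_pos hU']
  have h1 : |w.re - U * P.1| / U ≤ 1 := (div_le_one hU').2 h.1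
  have h2 : |w.im - U * P.2| / U ≤ 1 := (div_le_one hU').2 h.2
  linarith

variable {k H D : ℕ}

/-- **a wall with the label `j` is close to the arc `j`** -/
theorem arc_near (hP : Par k H D) {j : Fin 4} {w : ℂ} (hw : w ∈ (marks B.cdom_ok k H D).arc j) :
    ∃ i, B.On j i ∧ ‖w / (un k H : ℂ) - cp (B.v i)‖ ≤ 2 := by
  have hU : 2 * (D : ℤ) + 2 ≤ un k H := hP.small
  obtain ⟨P, h1, h2, h3⟩ := CDom.arc_near B.cdom_ok hP hw
  obtain ⟨i, hi, rfl⟩ := B.exists_v h1
  exact ⟨i, B.on_of_lab hi h2, norm_le_of_cl (by omega) h3⟩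

/-- **every vertex of the arc `j` is close to a wall with the label `j`** -/
theorem near_arc (hP : Par k H D) {j : Fin 4} {i : ℕ} (h : B.On j i) :
    ∃ w ∈ (marks B.cdom_ok k H D).arc j, ‖w / (un k H : ℂ) - cp (B.v i)‖ ≤ 2 := by
  have hU : 2 * (D : ℤ) + 2 ≤ un k H := hP.small
  obtain ⟨hh1, hh2⟩ := half_spec hU
  rcases B.lab_of_on h with h1 | h1
  · obtain ⟨w, hw1, hw2⟩ := CDom.near_arc B.cdom_ok hP (B.bv_v h.1)
    rw [h1] at hw1
    exact ⟨w, hw1, norm_le_of_cl (by omega) hw2⟩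
  · refine ⟨_, mark_pt B.cdom_ok hP j, norm_le_of_cl (by omega) ?_⟩
    rw [h1]
    have e : B.cdom.mar j = B.v (B.M j) := rfl
    rw [e]
    exact cl_of (by omega) (by omega) le_rfl le_rfl (by omega) (by omega) le_rfl le_rfl

end Coarse
end Full
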