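import Pool.Agent.Full.Comb.Block

/-!
# FULL, combs: joining points inside the domain of the comb shape
-/

set_option autoImplicit false

namespace Full
namespace Comb
namespace CDom
open Relation Set Metric

variable {C : CDom} {k H D : ℕ}

/-- points whose cell has only interior cells around are in the domain -/
theorem block_dom1 (P : Par k H D) {z : ℂ}
    (h : ∀ p' : ℤ × ℤ, |p'.1 - ⌊z.re / un k H⌋| ≤ 1 → |p'.2 - ⌊z.im / un k H⌋| ≤ 1 → p' ∈ C.I) :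
    z ∈ (C.shape k H D).dom := by
  have hu := un_pos k H
  have hu' : (0 : ℝ) < un k H := by exact_mod_cast hu
  have hs : 2 * (D : ℝ) + 2 ≤ un k H := by exact_mod_cast P.small
  have key : ∀ x y : ℝ, |x - y| < D + 0 + 1 → |⌊x / un k H⌋ - ⌊y / un k H⌋| ≤ 1 := by
    intro x y hxy
    rw [abs_lt] at hxy
    obtain ⟨a1, a2⟩ := (floor_div (x := x) hu).1 rfl
    obtain ⟨b1, b2⟩ := (floor_div (x := y) hu).1 rfl
    rw [abs_le]
    constructor
    · by_contra hcon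
      push Not at hcon
      have h1 : ⌊x / un k H⌋ + 2 ≤ ⌊y / un k H⌋ := by omega
      have h2 : ((⌊x / un k H⌋ : ℤ) : ℝ) + 2 ≤ (⌊y / un k H⌋ : ℤ) := by exact_mod_cast h1
      nlinarith
    · by_contra hcon
      push Not at hcon
      have h1 : ⌊y / un k H⌋ + 2 ≤ ⌊x / un k H⌋ := by omega
      have h2 : ((⌊y / un k H⌋ : ℤ) : ℝ) + 2 ≤ (⌊x / un k H⌋ : ℤ) := by exact_mod_cast h1
      nlinarith
  have h0 := ball_dom (C := C) P (z := z) (r := 0) fun w h1 h2 => h _ (key _ _ h1) (key _ _ h2)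
  exact h0 (mem_closedBall_self le_rfl)

theorem block_dom (P : Par k H D) {z : ℂ}
    (h : ∀ p' : ℤ × ℤ, |p'.1 - ⌊z.re / un k H⌋| ≤ 2 → |p'.2 - ⌊z.im / un k H⌋| ≤ 2 → p' ∈ C.I) :
    z ∈ (C.shape k H D).dom :=
  block_dom1 P fun p' h1 h2 => h p' (h1.trans (by norm_num)) (h2.trans (by norm_num))

/-- a convex subset of the domain -/
lemma joined_of_convex {S K : Set ℂ} (hK : Convex ℝ K) (hS : K ⊆ S) {x y : ℂ} (hx : x ∈ K) (hy : y ∈ K) :
    JoinedIn S x y :=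
  ((hK.isPathConnected ⟨x, hx⟩).joinedIn x hx y hy).mono hS

/-- the open neighbourhood of a horizontal pair of cells: the middle line -/
lemma mid_dom (P : Par k H D) {p : ℤ × ℤ} (hp : p ∈ C.I) (hq : (p.1 + 1, p.2) ∈ C.I) {z : ℂ}
    (h1 : (un k H * (p.1 + 1 / 2) : ℝ) ≤ z.re) (h2 : z.re ≤ un k H * (p.1 + 1 + 1 / 2))
    (h3 : z.im = un k H * (p.2 + 1 / 2)) : z ∈ (C.shape k H D).dom := by
  have hu := un_pos k H
  have hu' : (0 : ℝ) < un k H := by exact_mod_cast hu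
  have hs : 2 * (D : ℝ) + 2 ≤ un k H := by exact_mod_cast P.small
  have h0 := ball_dom (C := C) P (z := z) (r := 0) ?_
  · exact h0 (mem_closedBall_self le_rfl)
  · intro w w1 w2
    rw [abs_lt] at w1 w2
    have e2 : ⌊w.im / un k H⌋ = p.2 := by
      rw [floor_div hu]
      constructor
      · nlinarith
      · nlinarith
    rcases lt_or_ge w.re (un k H * (p.1 + 1)) with h5 | h5
    · have e1 : ⌊w.re / un k H⌋ = p.1 := by
        rw [floor_div hu]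
        constructor
        · nlinarith
        · exact h5
      have : cu k H w = p := Prod.ext e1 e2
      rwa [this]
    · have e1 : ⌊w.re / un k H⌋ = p.1 + 1 := by
        rw [floor_div hu]
        push_cast
        constructor
        · exact h5
        · nlinarith
      have : cu k H w = (p.1 + 1, p.2) := Prod.ext e1 e2
      rwa [this]

/-- the closed scaled cell -/
def blk (k H : ℕ) (p : ℤ × ℤ) : Set ℂ :=
  {z | ((un k H * p.1 : ℝ) ≤ z.re ∧ z.re ≤ un k H * (p.1 + 1)) ∧ (un k H * p.2 : ℝ) ≤ z.im ∧ z.im ≤ un k H * (p.2 + 1)}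

lemma cen_mem_blk (k H : ℕ) (p : ℤ × ℤ) : cen k H p ∈ blk k H p := by
  have hu' : (0 : ℝ) < un k H := by exact_mod_cast un_pos k H
  refine ⟨⟨?_, ?_⟩, ?_, ?_⟩ <;> simp only [cen] <;> nlinarith

lemma cen_mem_colm (P : Par k H D) (p : ℤ × ℤ) : cen k H p ∈ colm k H D p (un k H * (p.2 + 1) - 1) := by
  have hu' : (0 : ℝ) < un k H := by exact_mod_cast un_pos k H
  have hs : 2 * (D : ℝ) + 2 ≤ un k H := by exact_mod_cast P.small
  have hD : (1 : ℝ) ≤ D := by exact_mod_cast P.D_pos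
  refine ⟨⟨?_, ?_⟩, ?_, ?_⟩ <;> simp only [cen] <;> nlinarith

/-- the centre of a cell of the domain is in the domain -/
lemma cen_mem_dom (P : Par k H D) {p : ℤ × ℤ} (hp : p ∈ C.I) : cen k H p ∈ (C.shape k H D).dom :=
  col_dom hp (cen_mem_colm P p)

lemma join_right (P : Par k H D) {p : ℤ × ℤ} (hp : p ∈ C.I) (hq : (p.1 + 1, p.2) ∈ C.I) :
    JoinedIn ((C.shape k H D).dom ∩ (blk k H p ∪ blk k H (p.1 + 1, p.2))) (cen k H p) (cen k H (p.1 + 1, p.2)) := by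
  have hu' : (0 : ℝ) < un k H := by exact_mod_cast un_pos k H
  refine joined_of_convex (K := {z : ℂ | (un k H * (p.1 + 1 / 2) : ℝ) ≤ z.re} ∩ {z : ℂ | z.re ≤ un k H * (p.1 + 1 + 1 / 2)} ∩
    {z : ℂ | z.im = un k H * (p.2 + 1 / 2)}) ?_ ?_ ?_ ?_
  · refine ((convex_halfSpace_re_ge _).inter (convex_halfSpace_re_le _)).inter ?_
    have : {z : ℂ | z.im = un k H * (p.2 + 1 / 2)} = {z : ℂ | (un k H * (p.2 + 1 / 2) : ℝ) ≤ z.im} ∩
      {z : ℂ | z.im ≤ un k H * (p.2 + 1 / 2)} := by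
      ext z
      constructor
      · intro h
        exact ⟨le_of_eq (Eq.symm h), le_of_eq h⟩
      · intro h
        exact le_antisymm h.2 h.1
    rw [this]
    exact (convex_halfSpace_im_ge _).inter (convex_halfSpace_im_le _)
  · rintro z ⟨⟨h1, h2⟩, h3⟩
    have h1' : (un k H * (p.1 + 1 / 2) : ℝ) ≤ z.re := h1
    have h2' : z.re ≤ un k H * (p.1 + 1 + 1 / 2) := h2
    have h3' : z.im = un k H * (p.2 + 1 / 2) := h3
    refine ⟨mid_dom P hp hq h1 h2 h3, ?_⟩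
    rcases le_total z.re (un k H * (p.1 + 1)) with h5 | h5
    · left
      refine ⟨⟨?_, h5⟩, ?_, ?_⟩ <;> nlinarith
    · right
      refine ⟨⟨?_, ?_⟩, ?_, ?_⟩ <;> push_cast <;> nlinarith
  · refine ⟨⟨?_, ?_⟩, rfl⟩
    · show (un k H * (p.1 + 1 / 2) : ℝ) ≤ un k H * (p.1 + 1 / 2)
      exact le_rfl
    · show (un k H * (p.1 + 1 / 2) : ℝ) ≤ un k H * (p.1 + 1 + 1 / 2)
      nlinarith
  · refine ⟨⟨?_, ?_⟩, rfl⟩
    · show (un k H * (p.1 + 1 / 2) : ℝ) ≤ un k H * (((p.1 + 1 : ℤ) : ℝ) + 1 / 2)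
      push_cast
      nlinarith
    · show (un k H * (((p.1 + 1 : ℤ) : ℝ) + 1 / 2) : ℝ) ≤ un k H * (p.1 + 1 + 1 / 2)
      push_cast
      exact le_rfl

lemma join_up (P : Par k H D) {p : ℤ × ℤ} (hp : p ∈ C.I) (hq : (p.1, p.2 + 1) ∈ C.I) :
    JoinedIn ((C.shape k H D).dom ∩ (blk k H p ∪ blk k H (p.1, p.2 + 1))) (cen k H p) (cen k H (p.1, p.2 + 1)) := by
  have hu' : (0 : ℝ) < un k H := by exact_mod_cast un_pos k H
  have hs : 2 * (D : ℝ) + 2 ≤ un k H := by exact_mod_cast P.small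
  have hD : (1 : ℝ) ≤ D := by exact_mod_cast P.D_pos
  refine joined_of_convex (convex_colm (k := k) (H := H) (D := D) p (un k H * (p.2 + 2) - 1)) ?_ ?_ ?_
  · intro z hz
    refine ⟨col_dom' (mem_J.2 ⟨hp, hq⟩) hz, ?_⟩
    obtain ⟨⟨h1, h2⟩, h3, h4⟩ := hz
    rcases le_total z.im (un k H * (p.2 + 1)) with h5 | h5
    · left
      refine ⟨⟨?_, ?_⟩, ?_, h5⟩ <;> nlinarith
    · right
      refine ⟨⟨?_, ?_⟩, ?_, ?_⟩ <;> push_cast <;> nlinarith
  · refine ⟨⟨?_, ?_⟩, ?_, ?_⟩ <;> simp only [cen] <;> nlinarith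
  · refine ⟨⟨?_, ?_⟩, ?_, ?_⟩ <;> simp only [cen] <;> push_cast <;> nlinarith

/-- **the centres of adjacent cells are joined** inside the two cells -/
theorem join_adj (P : Par k H D) {p q : ℤ × ℤ} (hp : p ∈ C.I) (hq : q ∈ C.I) (h : Adj p q) :
    JoinedIn ((C.shape k H D).dom ∩ (blk k H p ∪ blk k H q)) (cen k H p) (cen k H q) := by
  rcases h.cases with ⟨h1, h2⟩ | ⟨h1, h2⟩ | ⟨h1, h2⟩ | ⟨h1, h2⟩
  · have e : q = (p.1 + 1, p.2) := Prod.ext h1 h2
    subst e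
    exact join_right P hp hq
  · have e : q = (p.1, p.2 + 1) := Prod.ext h1 h2
    subst e
    exact join_up P hp hq
  · have e : p = (q.1 + 1, q.2) := Prod.ext (by omega) h2.symm
    subst e
    rw [union_comm]
    exact (join_right P hq hp).symm
  · have e : p = (q.1, q.2 + 1) := Prod.ext h1.symm (by omega)
    subst e
    rw [union_comm]
    exact (join_up P hq hp).symm

/-- the centres of the cells of a chain are joined -/
theorem join_chain (P : Par k H D) {Q : ℤ × ℤ → Prop} {p q : ℤ × ℤ} (hp : p ∈ C.I) (hpQ : Q p)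
    (h : ReflTransGen (fun p p' => Adj p p' ∧ p' ∈ C.I ∧ Q p') p q) :
    q ∈ C.I ∧ Q q ∧ JoinedIn ((C.shape k H D).dom ∩ {z | ∃ r ∈ C.I, Q r ∧ z ∈ blk k H r}) (cen k H p) (cen k H q) := by
  induction h with
  | refl => exact ⟨hp, hpQ, JoinedIn.refl ⟨cen_mem_dom P hp, p, hp, hpQ, cen_mem_blk k H p⟩⟩
  | @tail b c _ hbc ih =>
    obtain ⟨h1, h2, h3⟩ := ih
    refine ⟨hbc.2.1, hbc.2.2, h3.trans ((join_adj P h1 hbc.2.1 hbc.1).mono ?_)⟩
    rintro z ⟨hz1, hz2 | hz2⟩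
    · exact ⟨hz1, b, h1, h2, hz2⟩
    · exact ⟨hz1, c, hbc.2.1, hbc.2.2, hz2⟩

/-- a point whose cell has only interior cells around is joined to the centre of its cell -/
theorem join_cen (P : Par k H D) {z : ℂ}
    (h : ∀ p' : ℤ × ℤ, |p'.1 - ⌊z.re / un k H⌋| ≤ 1 → |p'.2 - ⌊z.im / un k H⌋| ≤ 1 → p' ∈ C.I) :
    JoinedIn ((C.shape k H D).dom ∩ blk k H (cu k H z)) (cen k H (cu k H z)) z := by
  have hu := un_pos k H
  have hu' : (0 : ℝ) < un k H := by exact_mod_cast hu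
  obtain ⟨⟨a1, a2⟩, a3, a4⟩ := cu_eq.1 (rfl : cu k H z = cu k H z)
  refine joined_of_convex (K := ({w : ℂ | (un k H * (cu k H z).1 : ℝ) ≤ w.re} ∩
    {w : ℂ | w.re < un k H * ((cu k H z).1 + 1)}) ∩ ({w : ℂ | (un k H * (cu k H z).2 : ℝ) ≤ w.im} ∩
    {w : ℂ | w.im < un k H * ((cu k H z).2 + 1)})) ?_ ?_ ?_ ⟨⟨a1, a2⟩, a3, a4⟩
  · exact ((convex_halfSpace_re_ge _).inter (convex_halfSpace_re_lt _)).inter
      ((convex_halfSpace_im_ge _).inter (convex_halfSpace_im_lt _))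
  · rintro w ⟨⟨h1, h2⟩, h3, h4⟩
    have h1' : (un k H * (cu k H z).1 : ℝ) ≤ w.re := h1
    have h2' : w.re < un k H * ((cu k H z).1 + 1) := h2
    have h3' : (un k H * (cu k H z).2 : ℝ) ≤ w.im := h3
    have h4' : w.im < un k H * ((cu k H z).2 + 1) := h4
    refine ⟨block_dom1 P fun p' e1 e2 => h p' ?_ ?_, ⟨h1', h2'.le⟩, h3', h4'.le⟩
    · have : ⌊w.re / un k H⌋ = ⌊z.re / un k H⌋ := (floor_div hu).2 ⟨h1', h2'⟩
      rwa [this] at e1
    · have : ⌊w.im / un k H⌋ = ⌊z.im / un k H⌋ := (floor_div hu).2 ⟨h3', h4'⟩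
      rwa [this] at e2
  · refine ⟨⟨?_, ?_⟩, ?_, ?_⟩
    · show (un k H * (cu k H z).1 : ℝ) ≤ un k H * ((cu k H z).1 + 1 / 2); nlinarith
    · show (un k H * ((cu k H z).1 + 1 / 2) : ℝ) < un k H * ((cu k H z).1 + 1); nlinarith
    · show (un k H * (cu k H z).2 : ℝ) ≤ un k H * ((cu k H z).2 + 1 / 2); nlinarith
    · show (un k H * ((cu k H z).2 + 1 / 2) : ℝ) < un k H * ((cu k H z).2 + 1); nlinarith

/-- a point in the middle column of a cell is joined to the centre of the cell -/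
theorem join_col (P : Par k H D) {p : ℤ × ℤ} (hp : p ∈ C.I) {z : ℂ} (hz : z ∈ colm k H D p (un k H * (p.2 + 1) - 1)) :
    JoinedIn ((C.shape k H D).dom ∩ blk k H p) z (cen k H p) := by
  refine joined_of_convex (convex_colm p _) ?_ hz (cen_mem_colm P p)
  intro w hw
  refine ⟨col_dom hp hw, ?_⟩
  obtain ⟨⟨h1, h2⟩, h3, h4⟩ := hw
  have hD : (1 : ℝ) ≤ D := by exact_mod_cast P.D_pos
  exact ⟨⟨by linarith, by linarith⟩, h3.le, by linarith⟩

/-- a point of a block is close to every point of a close block -/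
lemma blk_dist {p q : ℤ × ℤ} {z w : ℂ} (hz : z ∈ blk k H p) (hw : w ∈ blk k H q) {d : ℝ}
    (h : ‖(⟨p.1, p.2⟩ : ℂ) - ⟨q.1, q.2⟩‖ ≤ d) : dist z w < un k H * (d + 3 / 2) := by
  have hu' : (0 : ℝ) < un k H := by exact_mod_cast un_pos k H
  obtain ⟨⟨a1, a2⟩, a3, a4⟩ := hz
  obtain ⟨⟨b1, b2⟩, b3, b4⟩ := hw
  set e : ℂ := ⟨p.1, p.2⟩ - ⟨q.1, q.2⟩ with he
  have e1 : e.re = p.1 - q.1 := rfl
  have e2 : e.im = p.2 - q.2 := rfl
  set f : ℂ := (z - w) - (un k H : ℝ) * e with hf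
  have f1 : |f.re| ≤ un k H := by
    have : f.re = z.re - w.re - un k H * (p.1 - q.1) := by
      rw [hf, Complex.sub_re, Complex.sub_re, Complex.re_ofReal_mul, e1]
    rw [this, abs_le]
    constructor <;> nlinarith
  have f2 : |f.im| ≤ un k H := by
    have : f.im = z.im - w.im - un k H * (p.2 - q.2) := by
      rw [hf, Complex.sub_im, Complex.sub_im, Complex.im_ofReal_mul, e2]
    rw [this, abs_le]
    constructor <;> nlinarith
  have f3 : ‖f‖ < un k H * (3 / 2) := by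
    have h1 : ‖f‖ ^ 2 = f.re ^ 2 + f.im ^ 2 := by rw [Complex.sq_norm, Complex.normSq_apply]; ring
    have h2 : f.re ^ 2 ≤ (un k H : ℝ) ^ 2 := sq_le_sq.2 (by rwa [abs_of_pos hu'])
    have h3 : f.im ^ 2 ≤ (un k H : ℝ) ^ 2 := sq_le_sq.2 (by rwa [abs_of_pos hu'])
    refine lt_of_pow_lt_pow_left₀ 2 (by positivity) ?_
    rw [h1]
    nlinarith
  have h4 : z - w = f + (un k H : ℝ) * e := by rw [hf]; ring
  rw [Complex.dist_eq, h4]
  calc ‖f + (un k H : ℝ) * e‖ ≤ ‖f‖ + ‖((un k H : ℝ) : ℂ) * e‖ := norm_add_le _ _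
    _ = ‖f‖ + un k H * ‖e‖ := by rw [norm_mul, Complex.norm_real, Real.norm_of_nonneg hu'.le]
    _ < un k H * (3 / 2) + un k H * d := by nlinarith [norm_nonneg e]
    _ = un k H * (d + 3 / 2) := by ring

/-- **joined to a mark**: `x` is in the middle column of the cell `p`, `z` is in the last cell of a chain of cells of
the domain at distance at most `d` from `p` -/
theorem join_mark (P : Par k H D) {p : ℤ × ℤ} (hp : p ∈ C.I) {x z : ℂ} {d : ℝ} (hd : 0 ≤ d)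
    (hx : x ∈ colm k H D p (un k H * (p.2 + 1) - 1))
    (h : ReflTransGen (fun q q' => Adj q q' ∧ q' ∈ C.I ∧ ‖(⟨q'.1, q'.2⟩ : ℂ) - ⟨p.1, p.2⟩‖ ≤ d) p (cu k H z))
    (hz : ∀ p' : ℤ × ℤ, |p'.1 - ⌊z.re / un k H⌋| ≤ 1 → |p'.2 - ⌊z.im / un k H⌋| ≤ 1 → p' ∈ C.I) :
    JoinedIn ((C.shape k H D).dom ∩ ball x (un k H * (d + 3 / 2))) z x := by
  have hQ : ‖(⟨p.1, p.2⟩ : ℂ) - ⟨p.1, p.2⟩‖ ≤ d := by rw [sub_self, norm_zero]; exact hd
  obtain ⟨h1, h2, h3⟩ := join_chain P (Q := fun q' => ‖(⟨q'.1, q'.2⟩ : ℂ) - ⟨p.1, p.2⟩‖ ≤ d) hp hQ h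
  have hxb : x ∈ blk k H p := by
    obtain ⟨⟨c1, c2⟩, c3, c4⟩ := hx
    have hD : (1 : ℝ) ≤ D := by exact_mod_cast P.D_pos
    exact ⟨⟨by linarith, by linarith⟩, c3.le, by linarith⟩
  have j1 : JoinedIn ((C.shape k H D).dom ∩ ball x (un k H * (d + 3 / 2))) x (cen k H p) :=
    (join_col P hp hx).mono fun w hw => ⟨hw.1, blk_dist hw.2 hxb hQ⟩
  have j2 : JoinedIn ((C.shape k H D).dom ∩ ball x (un k H * (d + 3 / 2))) (cen k H p) (cen k H (cu k H z)) :=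
    h3.mono fun w hw => by
      obtain ⟨hw1, r, -, hr, hw2⟩ := hw
      exact ⟨hw1, blk_dist hw2 hxb hr⟩
  have j3 : JoinedIn ((C.shape k H D).dom ∩ ball x (un k H * (d + 3 / 2))) (cen k H (cu k H z)) z :=
    (join_cen P hz).mono fun w hw => ⟨hw.1, blk_dist hw.2 hxb h2⟩
  exact (j1.trans (j2.trans j3)).symm

end CDom
end Comb
end Full
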