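import Pool.Agent.Full.Comb.Compl

/-!
# FULL, combs: the ladder of rows and bars of a rectangle
-/

set_option autoImplicit false

namespace Full
namespace Comb
namespace CDom

variable {C : CDom} {k H D : ℕ}

/-- the number of rows -/
theorem card_R : Fintype.card (C.shape k H D).R ≤ C.I.card * (k + 1) := by
  show Fintype.card ({p : ℤ × ℤ // p ∈ starts C.I} × Fin (k + 1)) ≤ _
  rw [Fintype.card_prod, Fintype.card_fin, Fintype.card_coe]
  exact Nat.mul_le_mul_right _ (Finset.card_le_card (Finset.filter_subset _ _))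

/-- the heights of the ladder -/
noncomputable def rung (k H : ℕ) (y : ℤ) (j : ℕ) : ℝ :=
  un k H * y + (H + 1) * (j / 2 : ℕ) + H * (j % 2 : ℕ)

lemma rung_even (k H : ℕ) (y : ℤ) (j : ℕ) : rung k H y (2 * j) = un k H * y + (H + 1) * j := by
  unfold rung
  rw [Nat.mul_div_cancel_left j (by norm_num), Nat.mul_mod_right]
  simp

lemma rung_odd (k H : ℕ) (y : ℤ) (j : ℕ) : rung k H y (2 * j + 1) = un k H * y + (H + 1) * j + H := by
  unfold rung
  have h1 : (2 * j + 1) / 2 = j := by omega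
  have h2 : (2 * j + 1) % 2 = 1 := by omega
  rw [h1, h2]
  simp

/-- **the ladder** of a rectangle `[a, b] x [c, d]` (in coarse units) inside the domain -/
theorem ladder (P : Par k H D) {A : ℝ} (hAD : A * H ≤ D) {a b c d : ℝ} (hab : a ≤ b)
    (h : ∀ x y : ℤ, ⌊a⌋ - 1 ≤ x → x ≤ ⌊b⌋ + 1 → ⌊c⌋ ≤ y → y ≤ ⌊d⌋ → (x, y) ∈ C.I) :
    ∃ V : ℕ → ℝ, V 0 ≤ un k H * c ∧ un k H * d ≤ V (2 * (k + 1) * (⌊d⌋ - ⌊c⌋ + 1).toNat) ∧
      (∀ j < 2 * (k + 1) * (⌊d⌋ - ⌊c⌋ + 1).toNat, V j ≤ V (j + 1)) ∧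
      ∀ j < 2 * (k + 1) * (⌊d⌋ - ⌊c⌋ + 1).toNat, V (j + 1) - V j ≤ 1 ∨ ∃ r : (C.shape k H D).R,
        V j = (C.shape k H D).yb (.inl r) ∧ V (j + 1) = (C.shape k H D).yt (.inl r) ∧
        ((C.shape k H D).xl (.inl r) + A * ((C.shape k H D).yt (.inl r) - (C.shape k H D).yb (.inl r)) ≤ un k H * a) ∧
        un k H * b ≤ (C.shape k H D).xr (.inl r) -
          A * ((C.shape k H D).yt (.inl r) - (C.shape k H D).yb (.inl r)) := by
  have hu := un_pos k H
  have hu' : (0 : ℝ) < un k H := by exact_mod_cast hu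
  have hs : 2 * (D : ℝ) + 2 ≤ un k H := by exact_mod_cast P.small
  have hun : (un k H : ℝ) = (k + 1) * (H + 1) := by unfold un; push_cast; ring
  refine ⟨rung k H ⌊c⌋, ?_, ?_, ?_, ?_⟩
  · have := rung_even k H ⌊c⌋ 0
    rw [mul_zero] at this
    rw [this]
    have := Int.floor_le c
    push_cast
    nlinarith
  · rw [mul_assoc, rung_even]
    have h1 : ((⌊d⌋ - ⌊c⌋ + 1 : ℤ) : ℝ) ≤ ((⌊d⌋ - ⌊c⌋ + 1).toNat : ℝ) := by exact_mod_cast Int.self_le_toNat _
    have h2 := Int.lt_floor_add_one d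
    push_cast at h1 ⊢
    have h3 : un k H * ((⌊d⌋ : ℝ) - ⌊c⌋ + 1) ≤ (un k H : ℝ) * ((⌊d⌋ - ⌊c⌋ + 1).toNat : ℝ) := by gcongr
    rw [hun] at h3 ⊢
    have h4 : (0 : ℝ) < (k + 1) * (H + 1) := by positivity
    nlinarith
  · intro j _
    rcases Nat.even_or_odd' j with ⟨i, rfl | rfl⟩
    · rw [rung_even, rung_odd]
      have : (0 : ℝ) ≤ H := by positivity
      linarith
    · have e : 2 * i + 1 + 1 = 2 * (i + 1) := by ring
      rw [e, rung_even, rung_odd]
      push_cast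
      linarith
  · intro j hj
    rcases Nat.even_or_odd' j with ⟨i, rfl | rfl⟩
    · right
      set y : ℤ := ⌊c⌋ + (i / (k + 1) : ℕ) with hy
      have g1 : i < (k + 1) * (⌊d⌋ - ⌊c⌋ + 1).toNat := by
        rw [mul_assoc] at hj
        exact lt_of_mul_lt_mul_left hj (by norm_num)
      have hi' : i / (k + 1) < (⌊d⌋ - ⌊c⌋ + 1).toNat := by
        rw [Nat.div_lt_iff_lt_mul (by omega)]
        linarith [mul_comm (k + 1) (⌊d⌋ - ⌊c⌋ + 1).toNat]
      have hyd : y ≤ ⌊d⌋ := by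
        have h1 : ((i / (k + 1) : ℕ) : ℤ) < (⌊d⌋ - ⌊c⌋ + 1).toNat := by exact_mod_cast hi'
        have h2 : 0 < (⌊d⌋ - ⌊c⌋ + 1).toNat := lt_of_le_of_lt (Nat.zero_le _) hi'
        have h3 : (((⌊d⌋ - ⌊c⌋ + 1).toNat : ℕ) : ℤ) = ⌊d⌋ - ⌊c⌋ + 1 := by
          rw [Int.toNat_of_nonneg]
          omega
        omega
      have hyc : ⌊c⌋ ≤ y := by
        rw [hy]
        exact le_add_of_nonneg_right (Int.natCast_nonneg _)
      have hfl : ⌊a⌋ ≤ ⌊b⌋ := Int.floor_le_floor hab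
      have hp : (⌊a⌋, y) ∈ C.I := h _ _ (by omega) (by omega) hyc hyd
      have h1 : lo C.I (⌊a⌋, y) ≤ ⌊a⌋ - 1 :=
        lo_between (p := (⌊a⌋, y)) (by show ⌊a⌋ - 1 ≤ ⌊a⌋; omega) fun z hz1 hz2 => h z y hz1 (by
          have : z ≤ ⌊a⌋ := hz2
          omega) hyc hyd
      have h2 : ⌊b⌋ + 2 ≤ hi C.I (⌊a⌋, y) :=
        hi_between (p := (⌊a⌋, y)) (by show ⌊a⌋ ≤ ⌊b⌋ + 2; omega) fun z hz1 hz2 => h z y (by
          have : ⌊a⌋ ≤ z := hz1
          omega) (by omega) hyc hyd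
      set r : (C.shape k H D).R := (⟨(lo C.I (⌊a⌋, y), y), st_mem hp⟩, ⟨i % (k + 1), Nat.mod_lt _ (by omega)⟩) with hr
      have hlv : C.lvl k H D (.inl r) = (k + 1) * ⌊c⌋ + i := by
        show (k + 1 : ℤ) * y + ((i % (k + 1) : ℕ) : ℤ) = _
        have e1 : ((i : ℕ) : ℤ) = ((k + 1) * (i / (k + 1)) + i % (k + 1) : ℕ) := by
          rw [Nat.div_add_mod]
        rw [e1, hy]
        push_cast
        ring
      have hyb : ((C.shape k H D).yb (.inl r) : ℝ) = un k H * ⌊c⌋ + (H + 1) * i := by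
        rw [yb_row, hlv, hun]
        push_cast
        ring
      have hyt : ((C.shape k H D).yt (.inl r) : ℝ) = un k H * ⌊c⌋ + (H + 1) * i + H := by
        rw [yt_row, hlv, hun]
        push_cast
        ring
      have hxl : ((C.shape k H D).xl (.inl r) : ℝ) = un k H * lo C.I (⌊a⌋, y) := by
        show ((un k H * lo C.I (⌊a⌋, y) : ℤ) : ℝ) = _
        push_cast
        rfl
      have hxr : ((C.shape k H D).xr (.inl r) : ℝ) = un k H * hi C.I (⌊a⌋, y) := by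
        show ((un k H * hi C.I (lo C.I (⌊a⌋, y), y) : ℤ) : ℝ) = _
        rw [hi_congr (p := (⌊a⌋, y)) le_rfl (lo_lt_hi hp)]
        push_cast
        rfl
      have hh : ((C.shape k H D).yt (.inl r) : ℝ) - (C.shape k H D).yb (.inl r) = H := by
        rw [hyb, hyt]
        ring
      refine ⟨r, ?_, ?_, ?_, ?_⟩
      · rw [rung_even, hyb]
      · rw [rung_odd, hyt]
      · rw [hh, hxl]
        have f1 := Int.floor_le a
        have f2 : (lo C.I (⌊a⌋, y) : ℝ) ≤ ⌊a⌋ - 1 := by exact_mod_cast h1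
        nlinarith
      · rw [hh, hxr]
        have f1 := Int.lt_floor_add_one b
        have f2 : (⌊b⌋ : ℝ) + 2 ≤ hi C.I (⌊a⌋, y) := by exact_mod_cast h2
        nlinarith
    · left
      have e : 2 * i + 1 + 1 = 2 * (i + 1) := by ring
      rw [e, rung_even, rung_odd]
      push_cast
      linarith

end CDom
end Comb
end Full
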