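import Pool.Agent.Full.Comb.Compl

/-!
# FULL, combs: the tiles of the comb shape and the coarse cells
-/

set_option autoImplicit false

namespace Full
namespace Comb
namespace CDom

variable {C : CDom} {k H D : ℕ}

/-- the strip and the run of a room -/
lemma room_bd (q : (C.shape k H D).Q) : ∃ (s : ℤ × ℤ) (A : Finset (ℤ × ℤ)), s ∈ starts A ∧ A ⊆ C.I ∧
    un k H * s.1 ≤ (C.shape k H D).xl q ∧ (C.shape k H D).xr q ≤ un k H * hi A s ∧
    un k H * s.2 ≤ (C.shape k H D).yb q ∧ (C.shape k H D).yt q ≤ un k H * (s.2 + 1) := by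
  have hu := un_pos k H
  obtain ⟨s, j⟩ | ⟨s, j⟩ | s := q
  · have hj : ((j : ℕ) : ℤ) + 1 ≤ k + 1 := by exact_mod_cast j.2
    refine ⟨s.1, C.I, s.2, Finset.Subset.refl _, le_rfl, le_rfl, ?_, ?_⟩
    · rw [yb_row, show C.lvl k H D (.inl (s, j)) = (k + 1 : ℤ) * s.1.2 + ((j : ℕ) : ℤ) from rfl]
      unfold un
      nlinarith
    · rw [yt_row, show C.lvl k H D (.inl (s, j)) = (k + 1 : ℤ) * s.1.2 + ((j : ℕ) : ℤ) from rfl]
      unfold un
      nlinarith
  · have hj : ((j : ℕ) : ℤ) + 1 ≤ k := by exact_mod_cast j.2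
    refine ⟨s.1, C.I, s.2, Finset.Subset.refl _, ?_, ?_, ?_, ?_⟩
    · show un k H * s.1.1 ≤ un k H * s.1.1 + D
      omega
    · show un k H * hi C.I s.1 - D ≤ un k H * hi C.I s.1
      omega
    · rw [yb_link, show C.lvl k H D (.inr (.inl (s, j))) = (k + 1 : ℤ) * s.1.2 + ((j : ℕ) : ℤ) from rfl]
      unfold un
      nlinarith
    · rw [yt_link, show C.lvl k H D (.inr (.inl (s, j))) = (k + 1 : ℤ) * s.1.2 + ((j : ℕ) : ℤ) from rfl]
      unfold un
      nlinarith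
  · refine ⟨s.1, C.J, s.2, fun p hp => (mem_J.1 hp).1, ?_, ?_, ?_, ?_⟩
    · show un k H * s.1.1 ≤ un k H * s.1.1 + D
      omega
    · show un k H * hi C.J s.1 - D ≤ un k H * hi C.J s.1
      omega
    · show un k H * s.1.2 ≤ un k H * (s.1.2 + 1) - 1
      nlinarith
    · show un k H * (s.1.2 + 1) ≤ un k H * (s.1.2 + 1)
      exact le_rfl

lemma mem_T {n : ℕ} {s : (C.shape k H D).Q × Bool → ℕ} {t : ℤ × ℤ} : t ∈ (C.shape k H D).T n s ↔
    ∃ q, (n * (C.shape k H D).xl q + s (q, false) ≤ t.1 ∧ t.1 < n * (C.shape k H D).xr q + s (q, true)) ∧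
      n * (C.shape k H D).yb q ≤ t.2 ∧ t.2 < n * (C.shape k H D).yt q := by
  unfold Shape.T Shape.room
  rw [Finset.mem_biUnion]
  constructor
  · rintro ⟨q, -, h⟩
    exact ⟨q, mem_box.1 h⟩
  · rintro ⟨q, h⟩
    exact ⟨q, Finset.mem_univ q, mem_box.2 h⟩

/-- **the tiles of the shape are close to the cells of the domain** -/
theorem tile_sub (P : Par k H D) {n : ℕ} {s : (C.shape k H D).Q × Bool → ℕ} (hs : ∀ v, 4 * s v ≤ n) {t : ℤ × ℤ}
    (ht : t ∈ (C.shape k H D).T n s) {i : ℤ} (hi : i = 0 ∨ i = 1) :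
    ∃ p ∈ C.I, |p.1 - (t.1 + i) / (n * un k H)| ≤ 1 ∧ |p.2 - t.2 / (n * un k H)| ≤ 1 := by
  have hu := un_pos k H
  have hsm := P.small
  have hDp := P.D_pos
  obtain ⟨q, ⟨h1, h2⟩, h3, h4⟩ := mem_T.1 ht
  obtain ⟨a, A, ha, hA, e1, e2, e3, e4⟩ := room_bd q
  have hs1 := hs (q, false)
  have hs2 := hs (q, true)
  have hn : (1 : ℤ) ≤ n := by
    rcases Nat.eq_zero_or_pos n with h | h
    · subst h
      exfalso
      push_cast at h1 h2
      omega
    · exact_mod_cast h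
  have hN : (0 : ℤ) < n * un k H := by positivity
  have hU4 : 4 ≤ un k H := by omega
  have hN4 : 4 * (n : ℤ) ≤ n * un k H := by nlinarith
  have hlt := start_lt_hi ha
  have c1 : a.1 ≤ (t.1 + i) / (n * un k H) := by
    refine Int.le_ediv_of_mul_le hN ?_
    have : (n : ℤ) * (un k H * a.1) ≤ n * (C.shape k H D).xl q := by gcongr
    have e : a.1 * (n * un k H) = n * (un k H * a.1) := by ring
    rw [e]
    omega
  have c2 : (t.1 + i) / (n * un k H) < Comb.hi A a + 1 := by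
    refine Int.ediv_lt_of_lt_mul hN ?_
    have : (n : ℤ) * (C.shape k H D).xr q ≤ n * (un k H * Comb.hi A a) := by gcongr
    have e : (Comb.hi A a + 1) * (n * un k H) = n * (un k H * Comb.hi A a) + n * un k H := by ring
    rw [e]
    omega
  have c3 : t.2 / (n * un k H) = a.2 := by
    rw [div_iff hN]
    have g1 : (n : ℤ) * (un k H * a.2) ≤ n * (C.shape k H D).yb q := by gcongr
    have g2 : (n : ℤ) * (C.shape k H D).yt q ≤ n * (un k H * (a.2 + 1)) := by gcongr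
    constructor
    · rw [mul_assoc]; omega
    · rw [mul_assoc]; omega
  refine ⟨(min ((t.1 + i) / (n * un k H)) (Comb.hi A a - 1), a.2), ?_, ?_, ?_⟩
  · refine hA (mem_run_start ha (le_min c1 (by show a.1 ≤ Comb.hi A a - 1; omega)) ?_)
    exact lt_of_le_of_lt (min_le_right _ _) (by omega)
  · rw [abs_le]
    rcases min_cases ((t.1 + i) / (n * un k H)) (Comb.hi A a - 1) with ⟨e, _⟩ | ⟨e, _⟩ <;>
      simp only [e] <;> constructor <;> omega
  · rw [c3]
    simp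

lemma lo_three {A : Finset (ℤ × ℤ)} {a b : ℤ} (h1 : (a - 1, b) ∈ A) (h2 : (a, b) ∈ A) : lo A (a, b) ≤ a - 1 := by
  refine lo_between (p := (a, b)) (by show a - 1 ≤ a; omega) fun z hz1 hz2 => ?_
  have hz2' : z ≤ a := hz2
  rcases lt_or_eq_of_le hz2' with h | h
  · have : z = a - 1 := by omega
    rw [this]; exact h1
  · rw [h]; exact h2

lemma hi_three {A : Finset (ℤ × ℤ)} {a b : ℤ} (h1 : (a + 1, b) ∈ A) (h2 : (a, b) ∈ A) : a + 2 ≤ hi A (a, b) := by
  refine hi_between (p := (a, b)) (by show a ≤ a + 2; omega) fun z hz1 hz2 => ?_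
  have hz1' : a ≤ z := hz1
  rcases lt_or_eq_of_le hz1' with h | h
  · have : z = a + 1 := by omega
    rw [this]; exact h1
  · rw [← h]; exact h2

/-- **the tiles in the middle of the domain are tiles of the shape** -/
theorem tile_int (P : Par k H D) {n : ℕ} (hn : 1 ≤ n) {s : (C.shape k H D).Q × Bool → ℕ} (hs : ∀ v, 4 * s v ≤ n)
    {f : ℤ × ℤ} (h : ∀ p' : ℤ × ℤ, |p'.1 - f.1 / (n * un k H)| ≤ 1 → |p'.2 - f.2 / (n * un k H)| ≤ 1 → p' ∈ C.I) {i : ℤ}
    (hi : i = 0 ∨ i = 1) : (f.1 - i, f.2) ∈ (C.shape k H D).T n s := by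
  have hu := un_pos k H
  have hsm := P.small
  have hDp := P.D_pos
  have hn' : (1 : ℤ) ≤ n := by exact_mod_cast hn
  have hn0 : (0 : ℤ) < n := by omega
  have hN : (0 : ℤ) < n * un k H := by positivity
  set a := f.1 / (n * un k H) with ha
  obtain ⟨a1, a2⟩ := (div_iff (a := a) hN).1 rfl
  obtain ⟨y, t, ⟨ht0, htk⟩, hy, l1, l2⟩ := exists_lev k H (f.2 / n)
  have hb : f.2 / (n * un k H) = y := by
    rw [← Int.ediv_ediv_of_nonneg hn0.le, hy]
  obtain ⟨z1, z2⟩ := (div_iff (U := (n : ℤ)) (c := f.2) (a := f.2 / n) hn0).1 rfl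
  rw [hb] at h
  have hc : ∀ d e : ℤ, |d| ≤ 1 → |e| ≤ 1 → (a + d, y + e) ∈ C.I := fun d e hd he =>
    h (a + d, y + e) (by simpa using hd) (by simpa using he)
  have m0 : (a, y) ∈ C.I := by simpa using hc 0 0 (by norm_num) (by norm_num)
  have m1 : (a - 1, y) ∈ C.I := by simpa [sub_eq_add_neg] using hc (-1) 0 (by norm_num) (by norm_num)
  have m2 : (a + 1, y) ∈ C.I := by simpa using hc 1 0 (by norm_num) (by norm_num)
  have n0 : (a, y + 1) ∈ C.I := by simpa using hc 0 1 (by norm_num) (by norm_num)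
  have n1 : (a - 1, y + 1) ∈ C.I := by simpa [sub_eq_add_neg] using hc (-1) 1 (by norm_num) (by norm_num)
  have n2 : (a + 1, y + 1) ∈ C.I := by simpa using hc 1 1 (by norm_num) (by norm_num)
  have bl := lo_three m1 m0
  have bh := hi_three m2 m0
  have hU4 : 4 ≤ un k H := by omega
  -- the horizontal bounds
  have hx : ∀ lo' hi'' δ : ℤ, lo' ≤ a - 1 → a + 2 ≤ hi'' → 0 ≤ δ → 2 * δ + 2 ≤ un k H → ∀ s1 s2 : ℕ, 4 * s1 ≤ n →
      4 * s2 ≤ n → n * (un k H * lo' + δ) + s1 ≤ f.1 - i ∧ f.1 - i < n * (un k H * hi'' - δ) + s2 := by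
    intro lo' hi'' δ g1 g2 g3 g4 s1 s2 g5 g6
    have k1 : n * (un k H * lo') ≤ n * (un k H * (a - 1)) := by gcongr
    have k2 : n * (un k H * (a + 2)) ≤ n * (un k H * hi'') := by gcongr
    have k3 : (n : ℤ) * (2 * δ + 2) ≤ n * un k H := by gcongr
    have k4 : 0 ≤ n * δ := by positivity
    have e1 : n * (un k H * lo' + δ) = n * (un k H * lo') + n * δ := by ring
    have e2 : n * (un k H * (a - 1)) = n * un k H * a - n * un k H := by ring
    have e3 : n * (un k H * hi'' - δ) = n * (un k H * hi'') - n * δ := by ring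
    have e4 : n * (un k H * (a + 2)) = n * un k H * a + 2 * (n * un k H) := by ring
    have e5 : n * un k H * (a + 1) = n * un k H * a + n * un k H := by ring
    have e6 : (n : ℤ) * (2 * δ + 2) = 2 * (n * δ) + 2 * n := by ring
    rw [e1, e3]
    rw [e5] at a2
    rw [e2] at k1
    rw [e4] at k2
    rw [e6] at k3
    rcases hi with hi | hi <;> subst hi <;> constructor <;> omega
  rw [mem_T]
  by_cases h3 : f.2 / n < (H + 1) * ((k + 1) * y + t) + H
  · obtain ⟨j, hj⟩ : ∃ j : ℕ, t = j := ⟨t.toNat, by omega⟩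
    subst hj
    refine ⟨.inl (⟨(lo C.I (a, y), y), st_mem m0⟩, ⟨j, by omega⟩), ?_, ?_⟩
    · have e : Comb.hi C.I (lo C.I (a, y), y) = Comb.hi C.I (a, y) := hi_congr (p := (a, y)) le_rfl (lo_lt_hi m0)
      show n * (un k H * lo C.I (a, y)) + _ ≤ f.1 - i ∧ f.1 - i < n * (un k H * Comb.hi C.I (lo C.I (a, y), y)) + _
      rw [e]
      have := hx _ _ 0 bl bh le_rfl (by omega) _ _ (hs (.inl (⟨(lo C.I (a, y), y), st_mem m0⟩, ⟨j, by omega⟩), false))
        (hs (.inl (⟨(lo C.I (a, y), y), st_mem m0⟩, ⟨j, by omega⟩), true))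
      rwa [add_zero, sub_zero] at this
    · rw [yb_row, yt_row, show C.lvl k H D (.inl (⟨(lo C.I (a, y), y), st_mem m0⟩, ⟨j, by omega⟩)) =
        (k + 1 : ℤ) * y + (j : ℤ) from rfl]
      show n * ((H + 1 : ℤ) * ((k + 1) * y + j)) ≤ f.2 ∧ f.2 < n * ((H + 1 : ℤ) * ((k + 1) * y + j) + H)
      constructor
      · exact le_trans (by gcongr) z1
      · exact lt_of_lt_of_le z2 (mul_le_mul_of_nonneg_left (by omega) hn0.le)
  · have h4 : f.2 / n = (H + 1) * ((k + 1) * y + t) + H := by omega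
    rcases lt_or_eq_of_le htk with htk' | htk'
    · obtain ⟨j, hj⟩ : ∃ j : ℕ, t = j := ⟨t.toNat, by omega⟩
      subst hj
      refine ⟨.inr (.inl (⟨(lo C.I (a, y), y), st_mem m0⟩, ⟨j, by omega⟩)), ?_, ?_⟩
      · have e : Comb.hi C.I (lo C.I (a, y), y) = Comb.hi C.I (a, y) := hi_congr (p := (a, y)) le_rfl (lo_lt_hi m0)
        show n * (un k H * lo C.I (a, y) + D) + _ ≤ f.1 - i ∧
          f.1 - i < n * (un k H * Comb.hi C.I (lo C.I (a, y), y) - D) + _
        rw [e]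
        exact hx _ _ D bl bh (by positivity) hsm _ _ (hs _) (hs _)
      · rw [yb_link, yt_link, show C.lvl k H D (.inr (.inl (⟨(lo C.I (a, y), y), st_mem m0⟩, ⟨j, by omega⟩))) =
          (k + 1 : ℤ) * y + (j : ℤ) from rfl]
        show n * ((H + 1 : ℤ) * ((k + 1) * y + j) + H) ≤ f.2 ∧ f.2 < n * ((H + 1 : ℤ) * ((k + 1) * y + j) + H + 1)
        rw [← h4]
        exact ⟨z1, z2⟩
    · subst htk'
      have j0 : (a, y) ∈ C.J := mem_J.2 ⟨m0, n0⟩
      have cl := lo_three (mem_J.2 ⟨m1, n1⟩) j0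
      have ch := hi_three (mem_J.2 ⟨m2, n2⟩) j0
      refine ⟨.inr (.inr ⟨(lo C.J (a, y), y), st_mem j0⟩), ?_, ?_⟩
      · have e : Comb.hi C.J (lo C.J (a, y), y) = Comb.hi C.J (a, y) := hi_congr (p := (a, y)) le_rfl (lo_lt_hi j0)
        show n * (un k H * lo C.J (a, y) + D) + _ ≤ f.1 - i ∧
          f.1 - i < n * (un k H * Comb.hi C.J (lo C.J (a, y), y) - D) + _
        rw [e]
        exact hx _ _ D cl ch (by positivity) hsm _ _ (hs _) (hs _)
      · rw [yb_link, yt_link, show C.lvl k H D (.inr (.inr ⟨(lo C.J (a, y), y), st_mem j0⟩)) =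
          (k + 1 : ℤ) * y + (k : ℤ) from rfl]
        show n * ((H + 1 : ℤ) * ((k + 1) * y + k) + H) ≤ f.2 ∧ f.2 < n * ((H + 1 : ℤ) * ((k + 1) * y + k) + H + 1)
        rw [← h4]
        exact ⟨z1, z2⟩

end CDom
end Comb
end Full
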