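import Pool.Agent.Full.Comb.Lat
import Pool.Agent.Full.Comb.Join
import Pool.Agent.Full.Comb.Tiles
import Pool.Agent.Full.Comb.Coarse
import Pool.Agent.Full.Comb.Ladder
import Pool.Agent.Full.Geo.Walls
import Pool.Agent.Full.Geo.Cycle
import Pool.Agent.Full.Geo.Label

/-!
# FULL, combs: the comb shape refines the polygon
-/

set_option autoImplicit false

open Complex Set Filter Topology Metric H47Perc

namespace Full

namespace Coarse

/-- the cells around a deep point are inside -/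
lemma Deep.block {B : Coarse} {z : ℂ} (h : B.Deep z 5) {p' : ℤ × ℤ} (h1 : |p'.1 - ⌊z.re⌋| ≤ 1) (h2 : |p'.2 - ⌊z.im⌋| ≤ 1) :
    B.In p' := by
  set w : ℂ := ⟨z.re + (p'.1 - ⌊z.re⌋ : ℤ), z.im + (p'.2 - ⌊z.im⌋ : ℤ)⟩ with hw
  have hc : cell w = p' := by
    unfold cell
    rw [hw]
    ext
    · show ⌊z.re + ((p'.1 - ⌊z.re⌋ : ℤ) : ℝ)⌋ = p'.1
      rw [Int.floor_add_intCast]
      ring
    · show ⌊z.im + ((p'.2 - ⌊z.im⌋ : ℤ) : ℝ)⌋ = p'.2
      rw [Int.floor_add_intCast]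
      ring
  have hd : ‖w - z‖ ≤ 1 + 1 := by
    refine norm_sub_le_of ?_ ?_
    · rw [hw]
      show |z.re + ((p'.1 - ⌊z.re⌋ : ℤ) : ℝ) - z.re| ≤ 1
      rw [add_sub_cancel_left, ← Int.cast_abs]
      exact_mod_cast h1
    · rw [hw]
      show |z.im + ((p'.2 - ⌊z.im⌋ : ℤ) : ℝ) - z.im| ≤ 1
      rw [add_sub_cancel_left, ← Int.cast_abs]
      exact_mod_cast h2
  rw [← hc]
  exact (h.ball (r := 2) (by linarith) (by norm_num) (R' := 3) (by norm_num)).1

end Coarse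

namespace Comb
namespace CDom
variable {C : CDom} {k H D : ℕ}

lemma scale_floor (k H : ℕ) (z : ℂ) : ⌊(((un k H : ℤ) : ℂ) * z).re / un k H⌋ = ⌊z.re⌋ ∧ ⌊(((un k H : ℤ) : ℂ) * z).im / un k H⌋ = ⌊z.im⌋ := by
  have hu : (0 : ℝ) < un k H := by exact_mod_cast un_pos k H
  have e : ((un k H : ℤ) : ℂ) = ((un k H : ℝ) : ℂ) := by norm_cast
  rw [e]
  simp only [Complex.mul_re, Complex.mul_im, Complex.ofReal_re, Complex.ofReal_im, zero_mul, sub_zero, add_zero]
  rw [mul_div_cancel_left₀ _ hu.ne', mul_div_cancel_left₀ _ hu.ne']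
  exact ⟨rfl, rfl⟩

/-- deep points are in the domain -/
lemma fit_dom {B : Coarse} (hI : ∀ p, p ∈ C.I ↔ B.In p) (P : Par k H D) {z : ℂ} (hz : B.Deep z 5) :
    ((un k H : ℤ) : ℂ) * z ∈ (C.shape k H D).dom := by
  refine block_dom1 P fun p' h1 h2 => ?_
  rw [(scale_floor k H z).1] at h1
  rw [(scale_floor k H z).2] at h2
  exact (hI p').2 (hz.block h1 h2)

lemma pt_eq (hC : C.Ok) (j : Fin 4) : (marks hC k H D).pt j =
    ⟨((un k H * (C.mar j).1 + un k H / 2 : ℤ) : ℝ) + 1 / 8, ((un k H * (C.mar j).2 : ℤ) : ℝ) + 1 / 8⟩ := by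
  have e : (C.shape k H D).yb (.inl ((marks hC k H D).room j)) = un k H * (C.mar j).2 := by
    show un k H * (C.mar j).2 + (((0 : Fin (k + 1)) : ℕ) : ℤ) * (H + 1) = un k H * (C.mar j).2
    simp
  unfold Shape.Marks.pt
  rw [e]
  rfl

lemma pt_mem (hC : C.Ok) (P : Par k H D) (j : Fin 4) :
    (marks hC k H D).pt j ∈ colm k H D (C.mar j) (un k H * ((C.mar j).2 + 1) - 1) := by
  rw [pt_eq]
  have hs := P.small
  have hu := un_pos k H
  have h1 := half_spec (D := (D : ℤ)) hs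
  have hD := P.D_pos
  have hH := P.H_pos
  have hu3 : (4 : ℤ) ≤ un k H := by omega
  have h2 : ((D : ℝ) + 1 ≤ ((un k H / 2 : ℤ) : ℝ)) := by exact_mod_cast h1.1
  have h3 : ((un k H / 2 : ℤ) : ℝ) + D + 1 ≤ un k H := by exact_mod_cast h1.2
  have h4 : (4 : ℝ) ≤ un k H := by exact_mod_cast hu3
  refine ⟨⟨?_, ?_⟩, ?_, ?_⟩
  · simp only
    push_cast
    linarith
  · simp only
    push_cast
    linarith
  · simp only
    push_cast
    linarith
  · simp only
    push_cast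
    linarith

end CDom
end Comb

open Comb Comb.CDom

/-- the parameters of the combs -/
lemma par_comb {A H : ℕ} (hA : 1 ≤ A) (hH : 1 ≤ H) : Par (2 * A + 1) H (A * H) where
  H_pos := hH
  D_pos := Nat.mul_pos hA hH
  small := by
    unfold un
    push_cast
    nlinarith

lemma un_comb (A H : ℕ) : un (2 * A + 1) H = (ucomb A H : ℕ) := by
  unfold un ucomb
  push_cast
  ring

/-- **the comb shape refines the polygon** -/
theorem Coarse.fits (B : Coarse) {k H D : ℕ} (P : Par k H D) {U : ℕ} (hU : un k H = U) :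
    Fits B (B.cdom.shape k H D) (marks B.cdom_ok k H D) U := by
  have hC := B.cdom_ok
  have hs := P.small
  have hu := un_pos k H
  have hD := P.D_pos
  have hu4 : (4 : ℤ) ≤ un k H := by omega
  have hUr : (U : ℝ) = (un k H : ℝ) := by rw [hU]; norm_cast
  have hUc : ((U : ℝ) : ℂ) = ((un k H : ℤ) : ℂ) := by rw [hU]; norm_cast
  have h4 : (4 : ℝ) ≤ (un k H : ℝ) := by exact_mod_cast hu4
  refine ⟨shape_ok hC P, marks_ok hC P, by rw [hUr]; linarith, fun z hz => ?_, fun j w hw => ?_, fun j i hi => ?_, fun j => ?_,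
    fun j z d hz hacc => ?_, ?_⟩
  · rw [hUc]
    exact fit_dom (fun p => B.mem_I) P hz
  · rw [hUc]
    exact B.arc_near P hw
  · rw [hUc]
    exact B.near_arc P hi
  · rw [hUc, pt_eq]
    have hh := half_spec (D := (D : ℤ)) hs
    have hu' : (0 : ℝ) < un k H := by linarith
    have h5 : (((un k H / 2 : ℤ) : ℝ)) ≤ un k H / 2 := by
      have : 2 * (un k H / 2) ≤ un k H := by omega
      have h6 : (2 : ℝ) * ((un k H / 2 : ℤ) : ℝ) ≤ un k H := by exact_mod_cast this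
      linarith
    have h7 : (0 : ℝ) ≤ ((un k H / 2 : ℤ) : ℝ) := by
      have : 0 ≤ un k H / 2 := by omega
      exact_mod_cast this
    have e1 : ((un k H : ℤ) : ℂ) = ((un k H : ℝ) : ℂ) := by norm_cast
    have hn : ‖(⟨((un k H * (B.cdom.mar j).1 + un k H / 2 : ℤ) : ℝ) + 1 / 8, ((un k H * (B.cdom.mar j).2 : ℤ) : ℝ) + 1 / 8⟩ : ℂ) /
        ((un k H : ℤ) : ℂ) - cp (B.v (B.M j))‖ ≤ 9 / 16 + 1 / 32 := by
      refine Coarse.norm_sub_le_of ?_ ?_
      · rw [e1, Complex.div_ofReal_re]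
        have : (((un k H * (B.cdom.mar j).1 + un k H / 2 : ℤ) : ℝ) + 1 / 8) / (un k H : ℝ) - (cp (B.v (B.M j))).re =
            (((un k H / 2 : ℤ) : ℝ) + 1 / 8) / un k H := by
          rw [B.cdom_mar]
          simp only [cp]
          push_cast
          field_simp
          ring
        simp only
        rw [this, abs_of_nonneg (by positivity), div_le_iff₀ hu']
        linarith
      · rw [e1, Complex.div_ofReal_im]
        have : (((un k H * (B.cdom.mar j).2 : ℤ) : ℝ) + 1 / 8) / (un k H : ℝ) - (cp (B.v (B.M j))).im =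
            (1 / 8) / un k H := by
          rw [B.cdom_mar]
          simp only [cp]
          push_cast
          field_simp
          ring
        simp only
        rw [this, abs_of_nonneg (by positivity), div_le_iff₀ hu']
        linarith
    linarith
  · have hd : 0 ≤ d := by
      by_contra hcon
      push Not at hcon
      unfold Coarse.Acc at hacc
      rcases Relation.ReflTransGen.cases_tail hacc with h2 | ⟨p, -, -, -, h2⟩
      · have h3 := Fits.norm_sub_cell z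
        rw [h2] at h3
        have h4 := hz.2 (B.M j) (Fits.On_M B j).1 trivial
        linarith
      · have := norm_nonneg (cp (cell z) - cp (B.v (B.M j)))
        linarith
    have hcu : cu k H (((un k H : ℤ) : ℂ) * z) = cell z := by
      unfold cu cell
      rw [(scale_floor k H z).1, (scale_floor k H z).2]
    have key := join_mark (C := B.cdom) P (p := B.cdom.mar j) (hC.mar_mem j) (x := (marks hC k H D).pt j)
      (z := ((un k H : ℤ) : ℂ) * z) (d := d) hd (pt_mem hC P j) (by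
        rw [hcu, B.cdom_mar]
        unfold Coarse.Acc at hacc
        refine Relation.ReflTransGen.mono ?_ _ _ hacc
        rintro p p' ⟨h1, h2, h3⟩
        exact ⟨h1, B.mem_I.2 h2, h3⟩) (by
        intro p' h1 h2
        rw [(scale_floor k H z).1] at h1
        rw [(scale_floor k H z).2] at h2
        exact B.mem_I.2 ((hz.weaken (by norm_num)).block h1 h2))
    rw [hUc, hUr]
    refine key.mono (inter_subset_inter_right _ (ball_subset_ball ?_))
    have : (0 : ℝ) < un k H := by linarith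
    gcongr
    norm_num
  · have hfin : (Set.image2 (fun (p : ℤ × ℤ) (i : ℕ) => ‖cp p - cp (B.v i)‖) (B.cdom.I : Set (ℤ × ℤ)) (Set.Iic B.n)).Finite :=
      Set.Finite.image2 _ (Finset.finite_toSet _) (Set.finite_Iic _)
    obtain ⟨K, hK⟩ := hfin.bddAbove
    refine ⟨K + 2, fun z hz i hi => ?_⟩
    have h1 : ‖cp (cell z) - cp (B.v i)‖ ≤ K := hK ⟨cell z, B.mem_I.2 hz, i, hi, rfl⟩
    have h2 := Fits.norm_sub_cell z
    have e : z - cp (B.v i) = (z - cp (cell z)) + (cp (cell z) - cp (B.v i)) := by ring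
    rw [e]
    exact (norm_add_le _ _).trans (by linarith)

lemma Shape.Sh.smallF {S : Shape} {n : ℕ} (hn : 8 ≤ n) (a : Shape.Sh S n) : S.Small n a.s ∧ ∀ j, 4 * a.σ j ≤ n := by
  refine ⟨⟨hn, fun v => ?_⟩, fun j => ?_⟩
  · have := (a.1 v).2
    show 4 * ((a.1 v : Fin (n / 4)) : ℕ) ≤ n
    omega
  · have := (a.2 j).2
    show 4 * ((a.2 j : Fin (n / 4)) : ℕ) ≤ n
    omega

/-- **the fine region of the comb shape** -/
theorem Coarse.fitsT (B : Coarse) {k H D : ℕ} (P : Par k H D) {U : ℕ} (hU : un k H = U) {n : ℕ} (hn : 8 ≤ n)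
    (a : Shape.Sh (B.cdom.shape k H D) n) : Fits.FitsT B (B.cdom.shape k H D) (marks B.cdom_ok k H D) U n a := by
  have hC := B.cdom_ok
  have hS := shape_ok hC P
  have hm := marks_ok hC P
  obtain ⟨ha1, ha2⟩ := a.smallF hn
  have hcast : ((n * U : ℕ) : ℤ) = n * un k H := by rw [hU]; push_cast; rfl
  refine ⟨fun t ht i hi => ?_, fun f hf i hi => ?_, fun x y hx hy => ?_, ?_⟩
  · obtain ⟨p, hp, h1, h2⟩ := tile_sub (C := B.cdom) P ha1.2 ht hi
    refine ⟨p, B.mem_I.1 hp, ?_, ?_⟩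
    · show |p.1 - (t.1 + i) / ((n * U : ℕ) : ℤ)| ≤ 1
      rw [hcast]; exact h1
    · show |p.2 - t.2 / ((n * U : ℕ) : ℤ)| ≤ 1
      rw [hcast]; exact h2
  · refine tile_int (C := B.cdom) P (by omega) ha1.2 (fun p' h1 h2 => B.mem_I.2 (hf p' ?_ ?_)) hi
    · show |p'.1 - f.1 / ((n * U : ℕ) : ℤ)| ≤ 1
      rw [hcast]; exact h1
    · show |p'.2 - f.2 / ((n * U : ℕ) : ℤ)| ≤ 1
      rw [hcast]; exact h2
  · obtain ⟨l, -, hl⟩ := Shape.cycle hS ha1.two hx hy
    exact ⟨l, hl⟩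
  · exact Shape.exists_lab hS (marks hC k H D) hm ha1 ha2

/-- **there are admissible shifts for the four marks** -/
theorem Shape.exists_wall4F {S : Shape} (hS : S.Ok) {m : S.Marks} (hm : m.Ok) {n : ℕ} (hn : 8 ≤ n) :
    ∃ (a : Shape.Sh S n) (w : _), Shape.IsW4 m n a w := by
  obtain ⟨c, hc⟩ := Shape.exists_adm4 (n := n) hm hn
  have h2 : 0 < n / 4 := by omega
  let a : Shape.Sh S n := (fun _ => ⟨0, h2⟩, c)
  obtain ⟨ha1, ha2⟩ := a.smallF hn
  have h := Shape.labCyc hS m hm ha1.two ha2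
  exact ⟨a, (Shape.isW4_iff h).2 hc⟩

/-- a real number of the interval close to an integer -/
lemma exists_clamp {a b : ℝ} (hab : a ≤ b) {x : ℤ} (h1 : ⌊a⌋ - 1 ≤ x) (h2 : x ≤ ⌊b⌋ + 1) :
    ∃ t ∈ Icc a b, |x - ⌊t⌋| ≤ 1 := by
  rcases le_or_gt (x : ℝ) a with h3 | h3
  · refine ⟨a, ⟨le_rfl, hab⟩, ?_⟩
    have h4 : x ≤ ⌊a⌋ := Int.le_floor.2 h3
    rw [abs_le]
    constructor <;> omega
  · rcases le_or_gt b x with h4 | h4
    · refine ⟨b, ⟨hab, le_rfl⟩, ?_⟩
      have h5 : ⌊b⌋ ≤ x := by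
        have := (Int.floor_le b).trans h4
        exact_mod_cast this
      rw [abs_le]
      constructor <;> omega
    · refine ⟨x, ⟨h3.le, h4.le⟩, ?_⟩
      rw [Int.floor_intCast, sub_self, abs_zero]
      exact zero_le_one

/-- **every polygon has comb shapes** -/
theorem Coarse.combs (B : Coarse) : Combs B := by
  obtain ⟨K, hK⟩ := (B.fits (par_comb (A := 1) (H := 1) le_rfl le_rfl) (un_comb 1 1)).bdd
  refine ⟨B.cdom.I.card + 2 * (2 * |K| + 2), by positivity, fun A H hA hH => ?_⟩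
  have P := par_comb hA hH
  have hU := un_comb A H
  refine ⟨_, _, B.fits P hU, chan B.cdom_ok P (by push_cast; exact le_rfl), ?_, ?_, fun n hn a => B.fitsT P hU hn a,
    fun n hn => Shape.exists_wall4F (shape_ok B.cdom_ok P) (marks_ok B.cdom_ok P) hn⟩
  · have h1 := CDom.card_R (C := B.cdom) (k := 2 * A + 1) (H := H) (D := A * H)
    have h2 : (Fintype.card (B.cdom.shape (2 * A + 1) H (A * H)).R : ℝ) ≤ (B.cdom.I.card * (2 * A + 1 + 1) : ℕ) := by
      exact_mod_cast h1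
    push_cast at h2
    have h3 : 0 ≤ 2 * (2 * |K| + 2) * (2 * (A : ℝ) + 2) := by positivity
    linarith
  · intro x₁ x₂ y₁ y₂ hx hy hz
    have hin : ∀ x y : ℤ, ⌊x₁⌋ - 1 ≤ x → x ≤ ⌊x₂⌋ + 1 → ⌊y₁⌋ ≤ y → y ≤ ⌊y₂⌋ → (x, y) ∈ B.cdom.I := by
      intro x y h1 h2 h3 h4
      obtain ⟨t, ht, ht2⟩ := exists_clamp hx.le h1 h2
      obtain ⟨u, hu, hu2⟩ := exists_clamp hy.le (x := y) (by omega) (by omega)
      have hd := hz ⟨t, u⟩ (by rw [mem_reProdIm]; exact ⟨ht, hu⟩)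
      exact B.mem_I.2 ((hd.weaken (by norm_num)).block ht2 hu2)
    obtain ⟨V, V0, Vn, Vm, hV⟩ := CDom.ladder (C := B.cdom) P (A := (A : ℝ)) (by push_cast; exact le_rfl) hx.le hin
    refine ⟨_, V, ?_, ?_, ?_, Vm, hV⟩
    · -- the number of slabs
      have m1 := hz ⟨x₁, y₁⟩ (by rw [mem_reProdIm]; exact ⟨⟨le_rfl, hx.le⟩, le_rfl, hy.le⟩)
      have m2 := hz ⟨x₁, y₂⟩ (by rw [mem_reProdIm]; exact ⟨⟨le_rfl, hx.le⟩, hy.le, le_rfl⟩)
      have k1 := hK _ m1.1 0 (Nat.zero_le _)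
      have k2 := hK _ m2.1 0 (Nat.zero_le _)
      have k3 : ‖(⟨x₁, y₂⟩ : ℂ) - ⟨x₁, y₁⟩‖ ≤ 2 * K := by
        have e : (⟨x₁, y₂⟩ : ℂ) - ⟨x₁, y₁⟩ = ((⟨x₁, y₂⟩ : ℂ) - cp (B.v 0)) - ((⟨x₁, y₁⟩ : ℂ) - cp (B.v 0)) := by ring
        rw [e]
        exact (norm_sub_le _ _).trans (by linarith)
      have k5 := Complex.abs_im_le_norm ((⟨x₁, y₂⟩ : ℂ) - ⟨x₁, y₁⟩)
      simp only [sub_im] at k5
      have k7 := le_abs_self (y₂ - y₁)
      have k8 := le_abs_self K
      have f1 := Int.floor_le y₂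
      have f2 := Int.lt_floor_add_one y₁
      have f3 : ((⌊y₂⌋ - ⌊y₁⌋ + 1 : ℤ) : ℝ) ≤ 2 * |K| + 2 := by push_cast; linarith
      have f4 : (((⌊y₂⌋ - ⌊y₁⌋ + 1).toNat : ℕ) : ℝ) ≤ 2 * |K| + 2 := by
        have h0 : 0 ≤ ⌊y₂⌋ - ⌊y₁⌋ + 1 := by
          have := Int.floor_le_floor hy.le
          omega
        have e := Int.toNat_of_nonneg h0
        have e2 : (((⌊y₂⌋ - ⌊y₁⌋ + 1).toNat : ℤ) : ℝ) = ((⌊y₂⌋ - ⌊y₁⌋ + 1 : ℤ) : ℝ) := by rw [e]
        rw [Int.cast_natCast] at e2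
        rw [e2]
        exact f3
      push_cast
      have h3 : (0 : ℝ) ≤ 2 * A + 2 := by positivity
      have h5 : (2 * (A : ℝ) + 2) * (((⌊y₂⌋ - ⌊y₁⌋ + 1).toNat : ℕ) : ℝ) ≤ (2 * A + 2) * (2 * |K| + 2) := by gcongr
      have h6 : 0 ≤ (B.cdom.I.card : ℝ) * (2 * A + 2) := by positivity
      nlinarith
    · rw [hU] at V0
      exact_mod_cast V0
    · rw [hU] at Vn
      exact_mod_cast Vn

/-- the lattice statement needs only the statements on the fine lattice -/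
theorem lat_of_stat (h1 : S1) (h2 : S2) (h3 : S3a) (h4 : S3b) (h5 : S4) (h6 : S5) : Lat :=
  lat_of_combs h1 h2 h3 h4 h5 h6 fun B => B.combs

end Full
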