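import Pool.Agent.Full.Comb.Compl

/-!
# FULL, combs: the domain of the comb shape and the coarse cells

`cu k H z` is the coarse cell of the point `z` of the plane of the shape.  The domain of the shape lies over the coarse
cells; a ball is in the domain if the cells are interior at distance `D + 1` from the ball; neighbouring cells are joined
inside the domain, and the marks are joined to their cells.
-/

set_option autoImplicit false

namespace Full
namespace Comb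
open Relation Set Metric

/-- the coarse cell of a point -/
noncomputable def cu (k H : ℕ) (z : ℂ) : ℤ × ℤ := (⌊z.re / un k H⌋, ⌊z.im / un k H⌋)

/-- the centre of a coarse cell -/
noncomputable def cen (k H : ℕ) (p : ℤ × ℤ) : ℂ := ⟨un k H * (p.1 + 1 / 2), un k H * (p.2 + 1 / 2)⟩

lemma floor_div {x : ℝ} {U a : ℤ} (hU : 0 < U) : ⌊x / U⌋ = a ↔ (U * a : ℝ) ≤ x ∧ x < U * (a + 1) := by
  have hU' : (0 : ℝ) < U := by exact_mod_cast hU
  rw [Int.floor_eq_iff, le_div_iff₀ hU', div_lt_iff₀ hU', mul_comm (a : ℝ), mul_comm ((a : ℝ) + 1)]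

lemma floor_div' {x : ℝ} {U : ℤ} (hU : 0 < U) : ⌊x / U⌋ = ⌊x⌋ / U := by
  rw [floor_div hU]
  obtain ⟨h1, h2⟩ := (div_iff hU).1 (rfl : ⌊x⌋ / U = ⌊x⌋ / U)
  have h3 := Int.floor_le x
  have h4 := Int.lt_floor_add_one x
  constructor
  · have : ((U * (⌊x⌋ / U) : ℤ) : ℝ) ≤ ⌊x⌋ := by exact_mod_cast h1
    push_cast at this
    linarith
  · have : ((⌊x⌋ + 1 : ℤ) : ℝ) ≤ ((U * (⌊x⌋ / U + 1) : ℤ) : ℝ) := by exact_mod_cast h2
    push_cast at this
    linarith

lemma cu_eq {k H : ℕ} {z : ℂ} {p : ℤ × ℤ} : cu k H z = p ↔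
    ((un k H * p.1 : ℝ) ≤ z.re ∧ z.re < un k H * (p.1 + 1)) ∧ (un k H * p.2 : ℝ) ≤ z.im ∧ z.im < un k H * (p.2 + 1) := by
  unfold cu
  rw [Prod.ext_iff, floor_div (un_pos k H), floor_div (un_pos k H)]

namespace CDom
variable {C : CDom} {k H D : ℕ}

/-- the closed rooms -/
def rooms (S : Shape) : Set ℂ :=
  {z | ∃ q, ((S.xl q : ℝ) ≤ z.re ∧ z.re ≤ S.xr q) ∧ (S.yb q : ℝ) ≤ z.im ∧ z.im ≤ S.yt q}

lemma dom_eq (S : Shape) : S.dom = interior (rooms S) := rfl

/-- integers between two floors -/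
lemma exists_between {U : ℤ} (hU : 0 < U) {x y : ℝ} {a : ℤ} (h1 : ⌊x / U⌋ ≤ a) (h2 : a ≤ ⌊y / U⌋) (hxy : x ≤ y) :
    ∃ w, x ≤ w ∧ w ≤ y ∧ ⌊w / U⌋ = a := by
  have hU' : (0 : ℝ) < U := by exact_mod_cast hU
  obtain ⟨a1, a2⟩ := (floor_div (x := x) hU).1 rfl
  obtain ⟨b1, b2⟩ := (floor_div (x := y) hU).1 rfl
  have h1' : ((⌊x / U⌋ : ℤ) : ℝ) ≤ a := by exact_mod_cast h1
  have h2' : (a : ℝ) ≤ ((⌊y / U⌋ : ℤ) : ℝ) := by exact_mod_cast h2
  refine ⟨max x (U * a), le_max_left _ _, max_le hxy ?_, ?_⟩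
  · nlinarith
  · rw [floor_div hU]
    refine ⟨le_max_right _ _, max_lt ?_ ?_⟩
    · nlinarith
    · nlinarith

/-- points whose neighbourhood lies over the cells of the domain are in the rooms -/
lemma mem_rooms (P : Par k H D) {z : ℂ}
    (h : ∀ w : ℂ, |w.re - z.re| ≤ D → |w.im - z.im| ≤ 1 → cu k H w ∈ C.I) : z ∈ rooms (C.shape k H D) := by
  have hu := un_pos k H
  have hu' : (0 : ℝ) < un k H := by exact_mod_cast hu
  have hD : (1 : ℝ) ≤ D := by exact_mod_cast P.D_pos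
  have hz : cu k H z ∈ C.I := h z (by rw [sub_self, abs_zero]; positivity) (by rw [sub_self, abs_zero]; positivity)
  obtain ⟨y, i, ⟨hi0, hik⟩, hy, h1, h2⟩ := exists_lev k H ⌊z.im⌋
  have hyz : ⌊z.im / un k H⌋ = y := by rw [floor_div' hu, hy]
  set p : ℤ × ℤ := (⌊z.re / un k H⌋, y) with hp_def
  have hp : p ∈ C.I := by
    have e : cu k H z = p := by unfold cu; rw [hyz]
    rwa [e] at hz
  have f1 := Int.floor_le z.im
  have f2 := Int.lt_floor_add_one z.im
  obtain ⟨c1, c2⟩ := (floor_div (x := z.re) hu).1 rfl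
  -- cells of the same strip at distance `D`
  have hrow : ∀ a : ℤ, ⌊(z.re - D) / un k H⌋ ≤ a → a ≤ ⌊(z.re + D) / un k H⌋ → (a, y) ∈ C.I := by
    intro a ha1 ha2
    obtain ⟨w, w1, w2, w3⟩ := exists_between hu ha1 ha2 (by linarith)
    have h5 := h ⟨w, z.im⟩ (by rw [abs_le]; constructor <;> simp only <;> linarith) (by simp)
    have e : cu k H ⟨w, z.im⟩ = (a, y) := by
      unfold cu
      simp only [w3, hyz]
    rwa [e] at h5
  by_cases h3 : ⌊z.im⌋ < (H + 1) * ((k + 1) * y + i) + H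
  · -- in a row
    obtain ⟨j, hj⟩ : ∃ j : ℕ, i = j := ⟨i.toNat, by omega⟩
    subst hj
    refine ⟨.inl (⟨(lo C.I p, y), st_mem hp⟩, ⟨j, by omega⟩), ?_, ?_⟩
    · show ((un k H * lo C.I p : ℤ) : ℝ) ≤ z.re ∧ z.re ≤ ((un k H * hi C.I (lo C.I p, y) : ℤ) : ℝ)
      have e : hi C.I (lo C.I p, y) = hi C.I p := hi_congr (p := p) le_rfl (lo_lt_hi hp)
      rw [e]
      push_cast
      have l1 : (lo C.I p : ℝ) ≤ (⌊z.re / un k H⌋ : ℤ) := by exact_mod_cast lo_le hp
      have l2 : ((⌊z.re / un k H⌋ : ℤ) : ℝ) + 1 ≤ hi C.I p := by exact_mod_cast lt_hi hp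
      constructor <;> nlinarith
    · rw [yb_row, yt_row, show C.lvl k H D (.inl (⟨(lo C.I p, y), st_mem hp⟩, ⟨j, by omega⟩)) =
        (k + 1 : ℤ) * y + (j : ℤ) from rfl]
      have g1 : (((H + 1 : ℤ) * ((k + 1) * y + j) : ℤ) : ℝ) ≤ ⌊z.im⌋ := by exact_mod_cast h1
      have g2 : ((⌊z.im⌋ + 1 : ℤ) : ℝ) ≤ (((H + 1 : ℤ) * ((k + 1) * y + j) + H : ℤ) : ℝ) := by exact_mod_cast h3
      rw [Int.cast_add, Int.cast_one] at g2
      constructor <;> linarith
  · have h4 : ⌊z.im⌋ = (H + 1) * ((k + 1) * y + i) + H := by omega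
    rcases lt_or_eq_of_le hik with hik' | hik'
    · -- in a link inside a strip
      have hlo : lo C.I p ≤ ⌊(z.re - D) / un k H⌋ := by
        refine lo_between (p := p) ?_ fun a ha1 ha2 => hrow a ha1 (ha2.trans ?_)
        · show ⌊(z.re - D) / un k H⌋ ≤ ⌊z.re / un k H⌋
          exact Int.floor_le_floor (by gcongr; linarith)
        · show ⌊z.re / un k H⌋ ≤ ⌊(z.re + D) / un k H⌋
          exact Int.floor_le_floor (by gcongr; linarith)
      have hhi : ⌊(z.re + D) / un k H⌋ + 1 ≤ hi C.I p := by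
        refine hi_between (p := p) ?_ fun a ha1 ha2 => hrow a (le_trans ?_ ha1) (by omega)
        · show ⌊z.re / un k H⌋ ≤ ⌊(z.re + D) / un k H⌋ + 1
          have : ⌊z.re / un k H⌋ ≤ ⌊(z.re + D) / un k H⌋ := Int.floor_le_floor (by gcongr; linarith)
          omega
        · show ⌊(z.re - D) / un k H⌋ ≤ ⌊z.re / un k H⌋
          exact Int.floor_le_floor (by gcongr; linarith)
      obtain ⟨j, hj⟩ : ∃ j : ℕ, i = j := ⟨i.toNat, by omega⟩
      subst hj
      refine ⟨.inr (.inl (⟨(lo C.I p, y), st_mem hp⟩, ⟨j, by omega⟩)), ?_, ?_⟩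
      · show ((un k H * lo C.I p + D : ℤ) : ℝ) ≤ z.re ∧ z.re ≤ ((un k H * hi C.I (lo C.I p, y) - D : ℤ) : ℝ)
        have e : hi C.I (lo C.I p, y) = hi C.I p := hi_congr (p := p) le_rfl (lo_lt_hi hp)
        rw [e]
        push_cast
        obtain ⟨d1, d2⟩ := (floor_div (x := z.re - D) hu).1 rfl
        obtain ⟨d3, d4⟩ := (floor_div (x := z.re + D) hu).1 rfl
        have l1 : (lo C.I p : ℝ) ≤ (⌊(z.re - D) / un k H⌋ : ℤ) := by exact_mod_cast hlo
        have l2 : ((⌊(z.re + D) / un k H⌋ : ℤ) : ℝ) + 1 ≤ hi C.I p := by exact_mod_cast hhi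
        constructor <;> nlinarith
      · rw [yb_link, yt_link, show C.lvl k H D (.inr (.inl (⟨(lo C.I p, y), st_mem hp⟩, ⟨j, by omega⟩))) =
          (k + 1 : ℤ) * y + (j : ℤ) from rfl]
        have g1 : ((⌊z.im⌋ : ℤ) : ℝ) = (((H + 1 : ℤ) * ((k + 1) * y + j) + H : ℤ) : ℝ) := by exact_mod_cast h4
        constructor
        · linarith
        · push_cast at g1 ⊢
          linarith
    · -- in a link between two strips
      subst hik'
      have hlast : ⌊z.im⌋ = un k H * (y + 1) - 1 := by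
        rw [h4]; unfold un; ring
      have hlast' : ((⌊z.im⌋ : ℤ) : ℝ) = un k H * (y + 1) - 1 := by exact_mod_cast hlast
      have hup : ∀ a : ℤ, ⌊(z.re - D) / un k H⌋ ≤ a → a ≤ ⌊(z.re + D) / un k H⌋ → (a, y + 1) ∈ C.I := by
        intro a ha1 ha2
        obtain ⟨w, w1, w2, w3⟩ := exists_between hu ha1 ha2 (by linarith)
        have h5 := h ⟨w, un k H * (y + 1)⟩ (by rw [abs_le]; constructor <;> simp only <;> linarith)
          (by rw [abs_le]; constructor <;> simp only <;> linarith)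
        have e : cu k H ⟨w, un k H * (y + 1)⟩ = (a, y + 1) := by
          unfold cu
          simp only [w3]
          congr 1
          rw [floor_div hu]
          push_cast
          constructor
          · linarith
          · nlinarith
        rwa [e] at h5
      have hJ : ∀ a : ℤ, ⌊(z.re - D) / un k H⌋ ≤ a → a ≤ ⌊(z.re + D) / un k H⌋ → (a, y) ∈ C.J :=
        fun a h5 h6 => mem_J.2 ⟨hrow a h5 h6, hup a h5 h6⟩
      have g1 : ⌊(z.re - D) / un k H⌋ ≤ ⌊z.re / un k H⌋ := Int.floor_le_floor (by gcongr; linarith)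
      have g2 : ⌊z.re / un k H⌋ ≤ ⌊(z.re + D) / un k H⌋ := Int.floor_le_floor (by gcongr; linarith)
      have hpJ : p ∈ C.J := hJ _ g1 g2
      have hlo : lo C.J p ≤ ⌊(z.re - D) / un k H⌋ :=
        lo_between (p := p) g1 fun a ha1 ha2 => hJ a ha1 (ha2.trans g2)
      have hhi : ⌊(z.re + D) / un k H⌋ + 1 ≤ hi C.J p :=
        hi_between (p := p) (by show ⌊z.re / un k H⌋ ≤ _; omega) fun a ha1 ha2 => hJ a (g1.trans ha1) (by omega)
      refine ⟨.inr (.inr ⟨(lo C.J p, y), st_mem hpJ⟩), ?_, ?_⟩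
      · show ((un k H * lo C.J p + D : ℤ) : ℝ) ≤ z.re ∧ z.re ≤ ((un k H * hi C.J (lo C.J p, y) - D : ℤ) : ℝ)
        have e : hi C.J (lo C.J p, y) = hi C.J p := hi_congr (p := p) le_rfl (lo_lt_hi hpJ)
        rw [e]
        push_cast
        obtain ⟨d1, d2⟩ := (floor_div (x := z.re - D) hu).1 rfl
        obtain ⟨d3, d4⟩ := (floor_div (x := z.re + D) hu).1 rfl
        have l1 : (lo C.J p : ℝ) ≤ (⌊(z.re - D) / un k H⌋ : ℤ) := by exact_mod_cast hlo
        have l2 : ((⌊(z.re + D) / un k H⌋ : ℤ) : ℝ) + 1 ≤ hi C.J p := by exact_mod_cast hhi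
        constructor <;> nlinarith
      · show ((un k H * (y + 1) - 1 : ℤ) : ℝ) ≤ z.im ∧ z.im ≤ ((un k H * (y + 1) : ℤ) : ℝ)
        push_cast
        constructor <;> linarith

/-- **balls in the domain**: the cells are interior at distance less than `D + 1` from the ball -/
theorem ball_dom (P : Par k H D) {z : ℂ} {r : ℝ}
    (h : ∀ w : ℂ, |w.re - z.re| < D + r + 1 → |w.im - z.im| < D + r + 1 → cu k H w ∈ C.I) :
    closedBall z r ⊆ (C.shape k H D).dom := by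
  intro x hx
  rw [dom_eq, mem_interior_iff_mem_nhds]
  refine Filter.mem_of_superset (ball_mem_nhds x (by norm_num : (0 : ℝ) < 1 / 2)) fun y hy => mem_rooms P fun w h1 h2 => ?_
  have hD : (1 : ℝ) ≤ D := by exact_mod_cast P.D_pos
  rw [mem_closedBall, Complex.dist_eq] at hx
  rw [mem_ball, Complex.dist_eq] at hy
  have a1 := Complex.abs_re_le_norm (x - z)
  have a2 := Complex.abs_im_le_norm (x - z)
  have a3 := Complex.abs_re_le_norm (y - x)
  have a4 := Complex.abs_im_le_norm (y - x)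
  rw [Complex.sub_re] at a1 a3
  rw [Complex.sub_im] at a2 a4
  refine h w ?_ ?_
  · have e : w.re - z.re = (w.re - y.re) + (y.re - x.re) + (x.re - z.re) := by ring
    rw [e]
    have := abs_add_three (w.re - y.re) (y.re - x.re) (x.re - z.re)
    linarith
  · have e : w.im - z.im = (w.im - y.im) + (y.im - x.im) + (x.im - z.im) := by ring
    rw [e]
    have := abs_add_three (w.im - y.im) (y.im - x.im) (x.im - z.im)
    linarith

/-- the domain lies over the closed cells -/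
theorem dom_sub {z : ℂ} (hz : z ∈ (C.shape k H D).dom) : ∃ p ∈ C.I,
    ((un k H * p.1 : ℝ) ≤ z.re ∧ z.re ≤ un k H * (p.1 + 1)) ∧ (un k H * p.2 : ℝ) ≤ z.im ∧ z.im ≤ un k H * (p.2 + 1) := by
  have hu := un_pos k H
  have hu' : (0 : ℝ) < un k H := by exact_mod_cast hu
  have hroom : ∀ (s : ℤ × ℤ) (A : Finset (ℤ × ℤ)), s ∈ starts A → A ⊆ C.I → ∀ y1 y2 : ℝ,
      (un k H * s.2 : ℝ) ≤ y1 → y2 ≤ un k H * (s.2 + 1) → (un k H * s.1 : ℝ) ≤ z.re → z.re ≤ un k H * hi A s →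
      y1 ≤ z.im → z.im ≤ y2 → ∃ p ∈ C.I,
    ((un k H * p.1 : ℝ) ≤ z.re ∧ z.re ≤ un k H * (p.1 + 1)) ∧ (un k H * p.2 : ℝ) ≤ z.im ∧ z.im ≤ un k H * (p.2 + 1) := by
    intro s A hs hA y1 y2 e1 e2 e3 e4 e5 e6
    have hlt := start_lt_hi hs
    have hlt' : (s.1 : ℝ) + 1 ≤ hi A s := by exact_mod_cast hlt
    -- the column, the last one for the right end
    set a : ℤ := min ⌊z.re / un k H⌋ (hi A s - 1) with ha
    obtain ⟨c1, c2⟩ := (floor_div (x := z.re) hu).1 rfl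
    have h1 : s.1 ≤ a := by
      refine le_min ?_ (by omega)
      rw [Int.le_floor, le_div_iff₀ hu']
      linarith [mul_comm (s.1 : ℝ) (un k H)]
    have h2 : a < hi A s := lt_of_le_of_lt (min_le_right _ _) (by omega)
    refine ⟨(a, s.2), hA (mem_run_start hs h1 h2), ⟨?_, ?_⟩, by show (un k H * s.2 : ℝ) ≤ z.im; linarith,
      by show z.im ≤ un k H * (s.2 + 1); linarith⟩
    · have : (a : ℝ) ≤ (⌊z.re / un k H⌋ : ℤ) := by exact_mod_cast min_le_left _ _
      show (un k H * a : ℝ) ≤ z.re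
      nlinarith
    · show z.re ≤ un k H * (a + 1)
      rcases min_choice ⌊z.re / un k H⌋ (hi A s - 1) with h3 | h3
      · rw [ha, h3]; exact c2.le
      · rw [ha, h3]; push_cast; linarith
  have hJI : C.J ⊆ C.I := fun p hp => (mem_J.1 hp).1
  obtain ⟨q, ⟨hx1, hx2⟩, hy1, hy2⟩ : z ∈ rooms (C.shape k H D) := interior_subset hz
  obtain ⟨s, j⟩ | ⟨s, j⟩ | s := q
  · rw [yb_row, show C.lvl k H D (.inl (s, j)) = (k + 1 : ℤ) * s.1.2 + ((j : ℕ) : ℤ) from rfl] at hy1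
    rw [yt_row, show C.lvl k H D (.inl (s, j)) = (k + 1 : ℤ) * s.1.2 + ((j : ℕ) : ℤ) from rfl] at hy2
    have hj : ((j : ℕ) : ℝ) + 1 ≤ k + 1 := by exact_mod_cast j.2
    change ((un k H * s.1.1 : ℤ) : ℝ) ≤ z.re at hx1
    change z.re ≤ ((un k H * hi C.I s.1 : ℤ) : ℝ) at hx2
    push_cast at hx1 hx2 hy1 hy2
    refine hroom s.1 C.I s.2 Subset.rfl _ _ ?_ ?_ hx1 hx2 hy1 hy2
    · unfold un; push_cast; nlinarith
    · unfold un; push_cast; nlinarith
  · rw [yb_link, show C.lvl k H D (.inr (.inl (s, j))) = (k + 1 : ℤ) * s.1.2 + ((j : ℕ) : ℤ) from rfl] at hy1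
    rw [yt_link, show C.lvl k H D (.inr (.inl (s, j))) = (k + 1 : ℤ) * s.1.2 + ((j : ℕ) : ℤ) from rfl] at hy2
    have hj : ((j : ℕ) : ℝ) + 1 ≤ k := by exact_mod_cast j.2
    change ((un k H * s.1.1 + D : ℤ) : ℝ) ≤ z.re at hx1
    change z.re ≤ ((un k H * hi C.I s.1 - D : ℤ) : ℝ) at hx2
    push_cast at hx1 hx2 hy1 hy2
    refine hroom s.1 C.I s.2 Subset.rfl _ _ ?_ ?_ (by linarith) (by linarith) hy1 hy2
    · unfold un; push_cast; nlinarith
    · unfold un; push_cast; nlinarith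
  · change ((un k H * (s.1.2 + 1) - 1 : ℤ) : ℝ) ≤ z.im at hy1
    change z.im ≤ ((un k H * (s.1.2 + 1) : ℤ) : ℝ) at hy2
    change ((un k H * s.1.1 + D : ℤ) : ℝ) ≤ z.re at hx1
    change z.re ≤ ((un k H * hi C.J s.1 - D : ℤ) : ℝ) at hx2
    have h1 : (1 : ℝ) ≤ un k H := by exact_mod_cast hu
    push_cast at hx1 hx2 hy1 hy2
    refine hroom s.1 C.J s.2 hJI _ _ ?_ ?_ (by linarith) (by linarith) hy1 hy2
    · nlinarith
    · linarith

/-- the middle column of a cell -/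
def colm (k H D : ℕ) (p : ℤ × ℤ) (t : ℝ) : Set ℂ :=
  {z | ((un k H * p.1 + D : ℝ) < z.re ∧ z.re < un k H * (p.1 + 1) - D) ∧ (un k H * p.2 : ℝ) < z.im ∧ z.im < t}

lemma convex_colm (p : ℤ × ℤ) (t : ℝ) : Convex ℝ (colm k H D p t) := by
  have h1 : colm k H D p t = {z : ℂ | (un k H * p.1 + D : ℝ) < z.re} ∩ {z | z.re < un k H * (p.1 + 1) - D} ∩
      ({z | (un k H * p.2 : ℝ) < z.im} ∩ {z | z.im < t}) := by
    ext z
    simp only [colm, mem_inter_iff, mem_setOf_eq]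
  rw [h1]
  exact ((convex_halfSpace_re_gt _).inter (convex_halfSpace_re_lt _)).inter
    ((convex_halfSpace_im_gt _).inter (convex_halfSpace_im_lt _))

lemma isOpen_colm (p : ℤ × ℤ) (t : ℝ) : IsOpen (colm k H D p t) := by
  have h1 : colm k H D p t = {z : ℂ | (un k H * p.1 + D : ℝ) < z.re} ∩ {z | z.re < un k H * (p.1 + 1) - D} ∩
      ({z | (un k H * p.2 : ℝ) < z.im} ∩ {z | z.im < t}) := by
    ext z
    simp only [colm, mem_inter_iff, mem_setOf_eq]
  rw [h1]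
  exact ((isOpen_lt continuous_const Complex.continuous_re).inter (isOpen_lt Complex.continuous_re continuous_const)).inter
    ((isOpen_lt continuous_const Complex.continuous_im).inter (isOpen_lt Complex.continuous_im continuous_const))

lemma cen_re (k H : ℕ) (p : ℤ × ℤ) : (cen k H p).re = un k H * (p.1 + 1 / 2) := rfl
lemma cen_im (k H : ℕ) (p : ℤ × ℤ) : (cen k H p).im = un k H * (p.2 + 1 / 2) := rfl

/-- points of the rooms in a column -/
lemma col_rooms {z : ℂ} {p : ℤ × ℤ} (hp : p ∈ C.I)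
    (hx : (un k H * p.1 + D : ℝ) ≤ z.re ∧ z.re ≤ un k H * (p.1 + 1) - D) (hy : (un k H * p.2 : ℝ) ≤ z.im)
    (hy' : z.im < un k H * (p.2 + 1) - 1) : z ∈ rooms (C.shape k H D) := by
  have hu := un_pos k H
  have hu' : (0 : ℝ) < un k H := by exact_mod_cast hu
  obtain ⟨y, i, ⟨hi0, hik⟩, hyy, h1, h2⟩ := exists_lev k H ⌊z.im⌋
  have hyz : ⌊z.im / un k H⌋ = y := by rw [floor_div' hu, hyy]
  have hyp : y = p.2 := by
    rw [← hyz, floor_div hu]
    constructor <;> linarith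
  subst hyp
  have f1 := Int.floor_le z.im
  have f2 := Int.lt_floor_add_one z.im
  have hlo : (lo C.I p : ℝ) ≤ p.1 := by exact_mod_cast lo_le hp
  have hhi : (p.1 : ℝ) + 1 ≤ hi C.I p := by exact_mod_cast lt_hi hp
  have e : hi C.I (lo C.I p, p.2) = hi C.I p := hi_congr (p := p) le_rfl (lo_lt_hi hp)
  by_cases h3 : ⌊z.im⌋ < (H + 1) * ((k + 1) * p.2 + i) + H
  · obtain ⟨j, hj⟩ : ∃ j : ℕ, i = j := ⟨i.toNat, by omega⟩
    subst hj
    refine ⟨.inl (⟨(lo C.I p, p.2), st_mem hp⟩, ⟨j, by omega⟩), ?_, ?_⟩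
    · show ((un k H * lo C.I p : ℤ) : ℝ) ≤ z.re ∧ z.re ≤ ((un k H * hi C.I (lo C.I p, p.2) : ℤ) : ℝ)
      rw [e]
      push_cast
      have hD0 : (0 : ℝ) ≤ D := by positivity
      constructor <;> nlinarith [hx.1, hx.2]
    · rw [yb_row, yt_row, show C.lvl k H D (.inl (⟨(lo C.I p, p.2), st_mem hp⟩, ⟨j, by omega⟩)) =
        (k + 1 : ℤ) * p.2 + (j : ℤ) from rfl]
      have g1 : (((H + 1 : ℤ) * ((k + 1) * p.2 + j) : ℤ) : ℝ) ≤ ⌊z.im⌋ := by exact_mod_cast h1
      have g2 : ((⌊z.im⌋ + 1 : ℤ) : ℝ) ≤ (((H + 1 : ℤ) * ((k + 1) * p.2 + j) + H : ℤ) : ℝ) := by exact_mod_cast h3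
      rw [Int.cast_add, Int.cast_one] at g2
      constructor <;> linarith
  · have h4 : ⌊z.im⌋ = (H + 1) * ((k + 1) * p.2 + i) + H := by omega
    rcases lt_or_eq_of_le hik with hik' | hik'
    · obtain ⟨j, hj⟩ : ∃ j : ℕ, i = j := ⟨i.toNat, by omega⟩
      subst hj
      refine ⟨.inr (.inl (⟨(lo C.I p, p.2), st_mem hp⟩, ⟨j, by omega⟩)), ?_, ?_⟩
      · show ((un k H * lo C.I p + D : ℤ) : ℝ) ≤ z.re ∧ z.re ≤ ((un k H * hi C.I (lo C.I p, p.2) - D : ℤ) : ℝ)
        rw [e]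
        push_cast
        constructor <;> nlinarith [hx.1, hx.2]
      · rw [yb_link, yt_link, show C.lvl k H D (.inr (.inl (⟨(lo C.I p, p.2), st_mem hp⟩, ⟨j, by omega⟩))) =
          (k + 1 : ℤ) * p.2 + (j : ℤ) from rfl]
        have g1 : ((⌊z.im⌋ : ℤ) : ℝ) = (((H + 1 : ℤ) * ((k + 1) * p.2 + j) + H : ℤ) : ℝ) := by exact_mod_cast h4
        constructor
        · linarith
        · push_cast at g1 ⊢
          linarith
    · exfalso
      subst hik'
      have hlast : ⌊z.im⌋ = un k H * (p.2 + 1) - 1 := by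
        rw [h4]; unfold un; ring
      have hlast' : ((⌊z.im⌋ : ℤ) : ℝ) = un k H * (p.2 + 1) - 1 := by exact_mod_cast hlast
      linarith

/-- the middle column of a cell is in the domain -/
lemma col_dom {p : ℤ × ℤ} (hp : p ∈ C.I) :
    colm k H D p (un k H * (p.2 + 1) - 1) ⊆ (C.shape k H D).dom := by
  rw [dom_eq]
  refine interior_maximal ?_ (isOpen_colm _ _)
  rintro z ⟨⟨h1, h2⟩, h3, h4⟩
  exact col_rooms hp ⟨h1.le, h2.le⟩ h3.le h4

/-- the middle column of two cells on top of each other is in the domain -/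
lemma col_dom' {p : ℤ × ℤ} (hp : p ∈ C.J) :
    colm k H D p (un k H * (p.2 + 2) - 1) ⊆ (C.shape k H D).dom := by
  have hu := un_pos k H
  have hu' : (0 : ℝ) < un k H := by exact_mod_cast hu
  rw [dom_eq]
  refine interior_maximal ?_ (isOpen_colm _ _)
  rintro z ⟨⟨h1, h2⟩, h3, h4⟩
  rcases lt_or_ge z.im (un k H * (p.2 + 1) - 1) with h5 | h5
  · exact col_rooms (mem_J.1 hp).1 ⟨h1.le, h2.le⟩ h3.le h5
  · rcases le_or_gt z.im (un k H * (p.2 + 1)) with h6 | h6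
    · refine ⟨.inr (.inr ⟨(lo C.J p, p.2), st_mem hp⟩), ?_, ?_⟩
      · show ((un k H * lo C.J p + D : ℤ) : ℝ) ≤ z.re ∧ z.re ≤ ((un k H * hi C.J (lo C.J p, p.2) - D : ℤ) : ℝ)
        have e : hi C.J (lo C.J p, p.2) = hi C.J p := hi_congr (p := p) le_rfl (lo_lt_hi hp)
        have hlo : (lo C.J p : ℝ) ≤ p.1 := by exact_mod_cast lo_le hp
        have hhi : (p.1 : ℝ) + 1 ≤ hi C.J p := by exact_mod_cast lt_hi hp
        rw [e]
        push_cast
        constructor <;> nlinarith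
      · show ((un k H * (p.2 + 1) - 1 : ℤ) : ℝ) ≤ z.im ∧ z.im ≤ ((un k H * (p.2 + 1) : ℤ) : ℝ)
        push_cast
        exact ⟨h5, h6⟩
    · refine col_rooms (p := (p.1, p.2 + 1)) (mem_J.1 hp).2 ⟨h1.le, h2.le⟩ ?_ ?_
      · push_cast; linarith
      · push_cast; linarith

end CDom
end Comb
end Full
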