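import Pool.Agent.Full.Comb.Ok

/-!
# FULL, combs: the complement of the comb shape is connected to infinity
-/

set_option autoImplicit false

namespace Full
namespace Comb
open Relation

lemma div_iff {U c a : ℤ} (hU : 0 < U) : c / U = a ↔ U * a ≤ c ∧ c < U * (a + 1) := by
  constructor
  · intro h
    subst h
    have h1 := Int.mul_ediv_add_emod c U
    have h2 := Int.emod_nonneg c hU.ne'
    have h3 := Int.emod_lt_of_pos c hU
    constructor <;> nlinarith
  · rintro ⟨h1, h2⟩
    apply le_antisymm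
    · have h3 : c / U < a + 1 := Int.ediv_lt_of_lt_mul hU (by linarith [mul_comm U (a + 1)])
      omega
    · exact Int.le_ediv_of_mul_le hU (by linarith [mul_comm U a])

/-- the coarse cell of a unit cell of the shape -/
def co (k H : ℕ) (c : ℤ × ℤ) : ℤ × ℤ := (c.1 / un k H, c.2 / un k H)

lemma co_eq {k H : ℕ} {c p : ℤ × ℤ} : co k H c = p ↔
    (un k H * p.1 ≤ c.1 ∧ c.1 < un k H * (p.1 + 1)) ∧ un k H * p.2 ≤ c.2 ∧ c.2 < un k H * (p.2 + 1) := by
  unfold co
  rw [Prod.ext_iff, div_iff (un_pos k H), div_iff (un_pos k H)]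

/-- level decomposition of a height -/
lemma exists_lev (k H : ℕ) (z : ℤ) : ∃ y i : ℤ, (0 ≤ i ∧ i ≤ k) ∧ z / un k H = y ∧
    (H + 1 : ℤ) * ((k + 1) * y + i) ≤ z ∧ z < (H + 1) * ((k + 1) * y + i) + (H + 1) := by
  obtain ⟨h1, h2⟩ := (div_iff (U := (H + 1 : ℤ)) (c := z) (by positivity)).1 rfl
  set t := z / (H + 1 : ℤ)
  obtain ⟨h3, h4⟩ := (div_iff (U := (k + 1 : ℤ)) (c := t) (by positivity)).1 rfl
  set y := t / (k + 1 : ℤ)
  refine ⟨y, t - (k + 1) * y, ⟨by linarith, by linarith⟩, ?_, ?_, ?_⟩
  · rw [div_iff (un_pos k H)]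
    unfold un
    constructor
    · nlinarith
    · have h5 : t + 1 ≤ (k + 1 : ℤ) * (y + 1) := by linarith
      nlinarith
  · have e : (k + 1 : ℤ) * y + (t - (k + 1) * y) = t := by ring
    rw [e]; exact h1
  · have e : (k + 1 : ℤ) * y + (t - (k + 1) * y) = t := by ring
    rw [e]; linarith

/-- the strip of a level -/
lemma strip_of_lev {k H : ℕ} {y i z : ℤ} (h0 : 0 ≤ i) (hk : i ≤ k)
    (h1 : (H + 1 : ℤ) * ((k + 1) * y + i) ≤ z) (h2 : z < (H + 1) * ((k + 1) * y + i) + (H + 1)) :
    z / un k H = y := by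
  rw [div_iff (un_pos k H)]
  unfold un
  constructor
  · nlinarith
  · have h3 : (H + 1 : ℤ) * i ≤ (H + 1) * k := by nlinarith
    nlinarith

/-- a column with `U a ≤ x < U b` -/
lemma col_of {U a b x : ℤ} (hU : 0 < U) (h1 : U * a ≤ x) (h2 : x < U * b) : a ≤ x / U ∧ x / U < b :=
  ⟨Int.le_ediv_of_mul_le hU (by linarith [mul_comm U a]), Int.ediv_lt_of_lt_mul hU (by linarith [mul_comm U b])⟩

lemma of_col {U a b x : ℤ} (hU : 0 < U) (h1 : a ≤ x / U) (h2 : x / U < b) : U * a ≤ x ∧ x < U * b := by
  obtain ⟨h3, h4⟩ := (div_iff (U := U) (c := x) hU).1 rfl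
  constructor <;> nlinarith

namespace CDom
variable {C : CDom} {k H D : ℕ}

/-! ### cells of the shape -/

lemma row_mem {c : ℤ × ℤ} {y i : ℤ} (h0 : 0 ≤ i) (hk : i ≤ k) (hc : co k H c ∈ C.I)
    (h1 : (H + 1 : ℤ) * ((k + 1) * y + i) ≤ c.2) (h2 : c.2 < (H + 1) * ((k + 1) * y + i) + H) :
    c ∈ (C.shape k H D).cells := by
  have hy : c.2 / un k H = y := strip_of_lev h0 hk h1 (by linarith)
  have hp : (c.1 / un k H, y) ∈ C.I := by
    have : co k H c = (c.1 / un k H, y) := by unfold co; rw [hy]
    rwa [this] at hc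
  set p : ℤ × ℤ := (c.1 / un k H, y)
  obtain ⟨j, hj⟩ : ∃ j : ℕ, i = j := ⟨i.toNat, by omega⟩
  subst hj
  refine ⟨.inl (⟨(lo C.I p, y), st_mem hp⟩, ⟨j, by omega⟩), ?_, ?_⟩
  · show un k H * lo C.I p ≤ c.1 ∧ c.1 < un k H * hi C.I (lo C.I p, y)
    have e : hi C.I (lo C.I p, y) = hi C.I p := hi_congr (p := p) le_rfl (lo_lt_hi hp)
    rw [e]
    exact of_col (un_pos k H) (lo_le hp) (lt_hi hp)
  · show un k H * y + (j : ℕ) * (H + 1) ≤ c.2 ∧ c.2 < un k H * y + (j : ℕ) * (H + 1) + H
    have e := un_eq k H y (j : ℤ)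
    rw [e]
    exact ⟨h1, h2⟩

/-- cells of the shape at the height of a bar -/
lemma bar_cases {c : ℤ × ℤ} {y i : ℤ} (h0 : 0 ≤ i) (hk : i ≤ k) (h2 : c.2 = (H + 1) * ((k + 1) * y + i) + H)
    (hc : c ∈ (C.shape k H D).cells) :
    (i < k ∧ ∃ s ∈ starts C.I, s.2 = y ∧ un k H * s.1 + D ≤ c.1 ∧ c.1 < un k H * hi C.I s - D) ∨
    (i = k ∧ ∃ s ∈ starts C.J, s.2 = y ∧ un k H * s.1 + D ≤ c.1 ∧ c.1 < un k H * hi C.J s - D) := by
  obtain ⟨q, hx, hy⟩ := hc
  obtain r | l := q
  · exfalso
    rw [yb_row, yt_row, h2] at hy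
    generalize C.lvl k H D (.inl r) = t at hy
    rcases lt_trichotomy t ((k + 1) * y + i) with h | h | h
    · have := lev_lt (H := H) h
      linarith [hy.2]
    · rw [h] at hy
      linarith [hy.2]
    · have := lev_lt (H := H) h
      linarith [hy.1]
  · rw [yb_link, yt_link, h2] at hy
    have ht : C.lvl k H D (.inr l) = (k + 1) * y + i := by
      rcases lt_trichotomy (C.lvl k H D (.inr l)) ((k + 1) * y + i) with h | h | h
      · have := lev_lt (H := H) h
        linarith [hy.2]
      · exact h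
      · have := lev_lt (H := H) h
        linarith [hy.1]
    obtain ⟨s, j⟩ | s := l
    · obtain ⟨e1, e2⟩ := lev_inj (k := k) (i := ((j : ℕ) : ℤ)) (i' := i) (by positivity)
        (by have := j.2; omega) h0 hk ht
      left
      refine ⟨by rw [← e2]; exact_mod_cast j.2, s.1, s.2, e1, hx.1, hx.2⟩
    · obtain ⟨e1, e2⟩ := lev_inj (k := k) (i := (k : ℤ)) (i' := i) (by positivity) le_rfl h0 hk ht
      right
      exact ⟨e2.symm, s.1, s.2, e1, hx.1, hx.2⟩

lemma link_mem {s : ℤ × ℤ} (hs : s ∈ starts C.I) {x i : ℤ} (h0 : 0 ≤ i) (hk : i < k)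
    (h1 : un k H * s.1 + D ≤ x) (h2 : x < un k H * hi C.I s - D) :
    (x, (H + 1) * ((k + 1) * s.2 + i) + H) ∈ (C.shape k H D).cells := by
  obtain ⟨j, hj⟩ : ∃ j : ℕ, i = j := ⟨i.toNat, by omega⟩
  subst hj
  refine ⟨.inr (.inl (⟨s, hs⟩, ⟨j, by omega⟩)), ⟨h1, h2⟩, ?_⟩
  rw [yb_link, yt_link]
  show (H + 1 : ℤ) * ((k + 1) * s.2 + (j : ℕ)) + H ≤ (H + 1) * ((k + 1) * s.2 + (j : ℤ)) + H ∧
    (H + 1 : ℤ) * ((k + 1) * s.2 + (j : ℤ)) + H < (H + 1) * ((k + 1) * s.2 + (j : ℕ)) + H + 1
  constructor <;> linarith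

lemma link_mem' {s : ℤ × ℤ} (hs : s ∈ starts C.J) {x : ℤ}
    (h1 : un k H * s.1 + D ≤ x) (h2 : x < un k H * hi C.J s - D) :
    (x, (H + 1) * ((k + 1) * s.2 + k) + H) ∈ (C.shape k H D).cells := by
  refine ⟨.inr (.inr ⟨s, hs⟩), ⟨h1, h2⟩, ?_⟩
  rw [yb_link, yt_link]
  show (H + 1 : ℤ) * ((k + 1) * s.2 + k) + H ≤ (H + 1) * ((k + 1) * s.2 + k) + H ∧
    (H + 1 : ℤ) * ((k + 1) * s.2 + k) + H < (H + 1) * ((k + 1) * s.2 + k) + H + 1
  constructor <;> linarith

/-- the cells of the shape are in the coarse cells of the domain -/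
lemma co_mem {c : ℤ × ℤ} (hc : c ∈ (C.shape k H D).cells) : co k H c ∈ C.I := by
  have hu := un_pos k H
  obtain ⟨q, hx, hy⟩ := hc
  obtain ⟨s, j⟩ | ⟨s, j⟩ | s := q
  · have h1 := col_of hu (show un k H * s.1.1 ≤ c.1 from hx.1) (show c.1 < un k H * hi C.I s.1 from hx.2)
    have h2 : c.2 / un k H = s.1.2 := by
      have hj := j.2
      rw [yb_row, yt_row, show C.lvl k H D (.inl (s, j)) = (k + 1 : ℤ) * s.1.2 + ((j : ℕ) : ℤ) from rfl] at hy
      exact strip_of_lev (i := ((j : ℕ) : ℤ)) (by positivity) (by omega) hy.1 (by linarith [hy.2])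
    have h3 := mem_run_start s.2 h1.1 h1.2
    unfold co
    rw [h2]
    exact h3
  · have h1 := col_of hu (show un k H * s.1.1 ≤ c.1 by
      have : un k H * s.1.1 + D ≤ c.1 := hx.1
      linarith) (show c.1 < un k H * hi C.I s.1 by
      have : c.1 < un k H * hi C.I s.1 - D := hx.2
      linarith)
    have h2 : c.2 / un k H = s.1.2 := by
      have hj := j.2
      rw [yb_link, yt_link,
        show C.lvl k H D (.inr (.inl (s, j))) = (k + 1 : ℤ) * s.1.2 + ((j : ℕ) : ℤ) from rfl] at hy
      exact strip_of_lev (i := ((j : ℕ) : ℤ)) (by positivity) (by omega) (by linarith [hy.1]) (by linarith [hy.2])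
    have h3 := mem_run_start s.2 h1.1 h1.2
    unfold co
    rw [h2]
    exact h3
  · have h1 := col_of hu (show un k H * s.1.1 ≤ c.1 by
      have : un k H * s.1.1 + D ≤ c.1 := hx.1
      linarith) (show c.1 < un k H * hi C.J s.1 by
      have : c.1 < un k H * hi C.J s.1 - D := hx.2
      linarith)
    have h2 : c.2 / un k H = s.1.2 := by
      rw [yb_link, yt_link, show C.lvl k H D (.inr (.inr s)) = (k + 1 : ℤ) * s.1.2 + k from rfl] at hy
      exact strip_of_lev (i := (k : ℤ)) (by positivity) le_rfl (by linarith [hy.1]) (by linarith [hy.2])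
    have h3 := (mem_J.1 (mem_run_start s.2 h1.1 h1.2)).1
    unfold co
    rw [h2]
    exact h3

/-! ### paths in the complement -/

/-- joined in the complement of the shape -/
abbrev Rt (S : Shape) (a b : ℤ × ℤ) : Prop :=
  ReflTransGen (fun u v : ℤ × ℤ => v ∉ S.cells ∧
    ((v.1 = u.1 ∧ |v.2 - u.2| = 1) ∨ (v.2 = u.2 ∧ |v.1 - u.1| = 1))) a b

lemma hmove {S : Shape} {a b y : ℤ} (h : ∀ x, (a ≤ x ∧ x ≤ b) ∨ (b ≤ x ∧ x ≤ a) → (x, y) ∉ S.cells) :
    Rt S (a, y) (b, y) := by
  rcases le_total a b with hab | hab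
  · induction b, hab using Int.leInduction with
    | base => exact ReflTransGen.refl
    | succ b hb ih =>
      refine (ih fun x hx => h x (by omega)).tail ⟨h (b + 1) (by omega), Or.inr ⟨rfl, ?_⟩⟩
      show |b + 1 - b| = 1
      simp
  · induction b, hab using Int.leInductionDown with
    | base => exact ReflTransGen.refl
    | pred b hb ih =>
      refine (ih fun x hx => h x (by omega)).tail ⟨h (b - 1) (by omega), Or.inr ⟨rfl, ?_⟩⟩
      show |b - 1 - b| = 1
      simp

lemma vmove {S : Shape} {a b x : ℤ} (h : ∀ y, (a ≤ y ∧ y ≤ b) ∨ (b ≤ y ∧ y ≤ a) → (x, y) ∉ S.cells) :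
    Rt S (x, a) (x, b) := by
  rcases le_total a b with hab | hab
  · induction b, hab using Int.leInduction with
    | base => exact ReflTransGen.refl
    | succ b hb ih =>
      refine (ih fun x hx => h x (by omega)).tail ⟨h (b + 1) (by omega), Or.inl ⟨rfl, ?_⟩⟩
      show |b + 1 - b| = 1
      simp
  · induction b, hab using Int.leInductionDown with
    | base => exact ReflTransGen.refl
    | pred b hb ih =>
      refine (ih fun x hx => h x (by omega)).tail ⟨h (b - 1) (by omega), Or.inl ⟨rfl, ?_⟩⟩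
      show |b - 1 - b| = 1
      simp

lemma not_mem_of_co {c : ℤ × ℤ} (h : co k H c ∉ C.I) : c ∉ (C.shape k H D).cells :=
  fun h1 => h (co_mem h1)

/-- two unit cells of one exterior coarse cell are joined -/
lemma block_move {c c' : ℤ × ℤ} (h : co k H c ∉ C.I) (h' : co k H c' = co k H c) :
    Rt (C.shape k H D) c c' := by
  obtain ⟨⟨a1, a2⟩, a3, a4⟩ := co_eq.1 (rfl : co k H c = co k H c)
  obtain ⟨⟨b1, b2⟩, b3, b4⟩ := co_eq.1 h'
  have h1 : Rt (C.shape k H D) (c.1, c.2) (c'.1, c.2) := by
    refine hmove fun x hx => not_mem_of_co ?_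
    have : co k H (x, c.2) = co k H c := co_eq.2 ⟨⟨by show _ ≤ x; omega, by show x < _; omega⟩, a3, a4⟩
    rwa [this]
  have h2 : Rt (C.shape k H D) (c'.1, c.2) (c'.1, c'.2) := by
    refine vmove fun y hy => not_mem_of_co ?_
    have : co k H (c'.1, y) = co k H c := co_eq.2 ⟨⟨b1, b2⟩, by show _ ≤ y; omega, by show y < _; omega⟩
    rwa [this]
  exact h1.trans h2

/-- the corner of a coarse cell -/
def cnr (k H : ℕ) (p : ℤ × ℤ) : ℤ × ℤ := (un k H * p.1, un k H * p.2)

lemma co_cnr (k H : ℕ) (p : ℤ × ℤ) : co k H (cnr k H p) = p := by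
  have hu := un_pos k H
  refine co_eq.2 ⟨⟨le_rfl, ?_⟩, le_rfl, ?_⟩ <;> show un k H * _ < un k H * (_ + 1) <;> nlinarith

/-- adjacent exterior coarse cells are joined -/
lemma adj_move {p q : ℤ × ℤ} (hp : p ∉ C.I) (hq : q ∉ C.I) (h : Adj p q) :
    Rt (C.shape k H D) (cnr k H p) (cnr k H q) := by
  have hu := un_pos k H
  -- a step from the coarse cell `p` to the coarse cell `q`
  have key : ∀ c c' : ℤ × ℤ, co k H c = p → co k H c' = q →
      ((c'.1 = c.1 ∧ |c'.2 - c.2| = 1) ∨ (c'.2 = c.2 ∧ |c'.1 - c.1| = 1)) →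
      Rt (C.shape k H D) (cnr k H p) (cnr k H q) := by
    intro c c' h1 h2 h3
    have m1 : Rt (C.shape k H D) (cnr k H p) c := block_move (by rwa [co_cnr]) (by rw [co_cnr, h1])
    have m2 : Rt (C.shape k H D) c' (cnr k H q) := block_move (by rwa [h2]) (by rw [co_cnr, h2])
    exact (m1.tail ⟨not_mem_of_co (by rwa [h2]), h3⟩).trans m2
  rcases h.cases with ⟨h1, h2⟩ | ⟨h1, h2⟩ | ⟨h1, h2⟩ | ⟨h1, h2⟩
  · refine key (un k H * q.1 - 1, un k H * p.2) (un k H * q.1, un k H * q.2) (co_eq.2 ?_) (co_cnr k H q) ?_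
    · rw [h1]
      refine ⟨⟨?_, ?_⟩, le_rfl, ?_⟩
      · show un k H * p.1 ≤ un k H * (p.1 + 1) - 1; nlinarith
      · show un k H * (p.1 + 1) - 1 < un k H * (p.1 + 1); linarith
      · show un k H * p.2 < un k H * (p.2 + 1); nlinarith
    · right
      refine ⟨by show un k H * q.2 = un k H * p.2; rw [h2], ?_⟩
      show |un k H * q.1 - (un k H * q.1 - 1)| = 1
      simp
  · refine key (un k H * p.1, un k H * q.2 - 1) (un k H * q.1, un k H * q.2) (co_eq.2 ?_) (co_cnr k H q) ?_
    · rw [h2]
      refine ⟨⟨le_rfl, ?_⟩, ?_, ?_⟩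
      · show un k H * p.1 < un k H * (p.1 + 1); nlinarith
      · show un k H * p.2 ≤ un k H * (p.2 + 1) - 1; nlinarith
      · show un k H * (p.2 + 1) - 1 < un k H * (p.2 + 1); linarith
    · left
      refine ⟨by show un k H * q.1 = un k H * p.1; rw [h1], ?_⟩
      show |un k H * q.2 - (un k H * q.2 - 1)| = 1
      simp
  · refine key (un k H * p.1, un k H * p.2) (un k H * p.1 - 1, un k H * p.2) (co_cnr k H p) (co_eq.2 ?_) ?_
    · have e : p.1 = q.1 + 1 := by omega
      rw [e, h2]
      refine ⟨⟨?_, ?_⟩, le_rfl, ?_⟩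
      · show un k H * q.1 ≤ un k H * (q.1 + 1) - 1; nlinarith
      · show un k H * (q.1 + 1) - 1 < un k H * (q.1 + 1); linarith
      · show un k H * p.2 < un k H * (p.2 + 1); nlinarith
    · right
      refine ⟨rfl, ?_⟩
      show |un k H * p.1 - 1 - un k H * p.1| = 1
      simp
  · refine key (un k H * p.1, un k H * p.2) (un k H * p.1, un k H * p.2 - 1) (co_cnr k H p) (co_eq.2 ?_) ?_
    · have e : p.2 = q.2 + 1 := by omega
      rw [e, h1]
      refine ⟨⟨le_rfl, ?_⟩, ?_, ?_⟩
      · show un k H * p.1 < un k H * (p.1 + 1); nlinarith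
      · show un k H * q.2 ≤ un k H * (q.2 + 1) - 1; nlinarith
      · show un k H * (q.2 + 1) - 1 < un k H * (q.2 + 1); linarith
    · left
      refine ⟨rfl, ?_⟩
      show |un k H * p.2 - 1 - un k H * p.2| = 1
      simp

lemma jn_move {p q : ℤ × ℤ} (h : Jn ((C.I : Set (ℤ × ℤ))ᶜ) p q) :
    Rt (C.shape k H D) (cnr k H p) (cnr k H q) := by
  induction h with
  | refl => exact ReflTransGen.refl
  | tail _ hbc ih => exact ih.trans (adj_move hbc.2.1 hbc.2.2 hbc.1)

/-- the unit cells of the exterior coarse cells -/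
lemma compl_out (hC : C.Ok) {c : ℤ × ℤ} (h : co k H c ∉ C.I) (N : ℤ) : ∃ c' : ℤ × ℤ, c'.2 < N ∧
    Rt (C.shape k H D) c c' := by
  obtain ⟨q, hq, -, hj⟩ := hC.compl _ h (min N 0)
  refine ⟨cnr k H q, ?_, (block_move h (by rw [co_cnr])).trans (jn_move hj)⟩
  have hu := un_pos k H
  show un k H * q.2 < N
  have h1 : q.2 < N := lt_of_lt_of_le hq (min_le_left _ _)
  have h2 : q.2 < 0 := lt_of_lt_of_le hq (min_le_right _ _)
  nlinarith

/-- the cells of the bars -/
lemma compl_bar (P : Par k H D) {c : ℤ × ℤ} (hc : c ∉ (C.shape k H D).cells) :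
    ∃ c', co k H c' ∉ C.I ∧ Rt (C.shape k H D) c c' := by
  have hu := un_pos k H
  have hs := P.small
  have hD := P.D_pos
  by_cases hI : co k H c ∈ C.I
  · obtain ⟨y, i, ⟨hi0, hik⟩, hy, h1, h2⟩ := exists_lev k H c.2
    have h3 : c.2 = (H + 1) * ((k + 1) * y + i) + H := by
      by_contra hne
      exact hc (row_mem hi0 hik hI h1 (by omega))
    have hp : (c.1 / un k H, y) ∈ C.I := by
      have : co k H c = (c.1 / un k H, y) := by unfold co; rw [hy]
      rwa [this] at hI
    set p : ℤ × ℤ := (c.1 / un k H, y) with hp_def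
    have hcol := (div_iff hu).1 (rfl : c.1 / un k H = c.1 / un k H)
    -- the strip of the bar
    have hstrip : ∀ x : ℤ, co k H (x, c.2) = (x / un k H, y) := by
      intro x; unfold co; rw [hy]
    rcases lt_or_eq_of_le hik with hik' | hik'
    · -- inside a strip
      have hst := st_mem hp
      set s : ℤ × ℤ := (lo C.I p, p.2) with hs_def
      have hhi : hi C.I s = hi C.I p := hi_congr (p := p) le_rfl (lo_lt_hi hp)
      have hnot : ∀ x, un k H * s.1 ≤ x → x < un k H * hi C.I s →
          (x < un k H * s.1 + D ∨ un k H * hi C.I s - D ≤ x) → (x, c.2) ∉ (C.shape k H D).cells := by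
        intro x hx1 hx2 hx3 hmem
        rcases bar_cases (c := (x, c.2)) hi0 hik h3 hmem with ⟨-, s', hs', hs'y, h5, h6⟩ | ⟨h5, -⟩
        · have h5' : un k H * s'.1 + D ≤ x := h5
          have h6' : x < un k H * hi C.I s' - D := h6
          have e : s = s' := start_unique hst hs' hs'y.symm (by
            by_contra hcon
            push Not at hcon
            nlinarith) (by
            by_contra hcon
            push Not at hcon
            nlinarith)
          rw [← e] at h5' h6'
          omega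
        · omega
      have hcx : un k H * s.1 ≤ c.1 ∧ c.1 < un k H * hi C.I s := by
        rw [hhi]
        exact of_col hu (lo_le hp) (lt_hi hp)
      have hcase : c.1 < un k H * s.1 + D ∨ un k H * hi C.I s - D ≤ c.1 := by
        by_contra hcon
        push Not at hcon
        apply hc
        have := link_mem (C := C) (D := D) (H := H) hst (i := i) hi0 hik' hcon.1 hcon.2
        have e : (c.1, (H + 1) * ((k + 1) * s.2 + i) + H) = c := Prod.ext rfl h3.symm
        rwa [e] at this
      rcases hcase with h5 | h5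
      · refine ⟨(un k H * s.1 - 1, c.2), ?_, ?_⟩
        · rw [hstrip]
          have e : (un k H * s.1 - 1) / un k H = s.1 - 1 := by
            rw [div_iff hu]; constructor <;> nlinarith
          rw [e]
          exact lo_not (p := p)
        · refine hmove (a := c.1) fun x hx => ?_
          rcases lt_or_ge x (un k H * s.1) with h6 | h6
          · have e1 : x = un k H * s.1 - 1 := by omega
            have e : (un k H * s.1 - 1) / un k H = s.1 - 1 := by
              rw [div_iff hu]; constructor <;> nlinarith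
            refine not_mem_of_co ?_
            rw [hstrip, e1, e]
            exact lo_not (p := p)
          · exact hnot x h6 (by omega) (Or.inl (by omega))
      · refine ⟨(un k H * hi C.I s, c.2), ?_, ?_⟩
        · rw [hstrip]
          have e : (un k H * hi C.I s) / un k H = hi C.I s := by
            rw [div_iff hu]; constructor <;> nlinarith
          rw [e]
          exact hi_not (p := s)
        · refine hmove (a := c.1) fun x hx => ?_
          rcases lt_or_ge x (un k H * hi C.I s) with h6 | h6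
          · exact hnot x (by omega) h6 (Or.inr (by omega))
          · have e1 : x = un k H * hi C.I s := by omega
            have e : (un k H * hi C.I s) / un k H = hi C.I s := by
              rw [div_iff hu]; constructor <;> nlinarith
            refine not_mem_of_co ?_
            rw [hstrip, e1, e]
            exact hi_not (p := s)
    · -- between two strips
      subst hik'
      have hc2 : c.2 = un k H * (y + 1) - 1 := by
        rw [h3]; unfold un; ring
      -- one step up
      have hup : ∀ x : ℤ, (x, c.2) ∉ (C.shape k H D).cells → (x / un k H, y + 1) ∉ C.I →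
          ∃ c', co k H c' ∉ C.I ∧ Rt (C.shape k H D) (x, c.2) c' := by
        intro x _ hx2
        have e : co k H (x, c.2 + 1) = (x / un k H, y + 1) := by
          unfold co
          have : (c.2 + 1) / un k H = y + 1 := by
            rw [div_iff hu, hc2]; constructor <;> nlinarith
          rw [this]
        refine ⟨(x, c.2 + 1), by rwa [e], ReflTransGen.single ⟨not_mem_of_co (by rwa [e]), Or.inl ⟨rfl, ?_⟩⟩⟩
        show |c.2 + 1 - c.2| = 1
        simp
      -- cells with a missing neighbour above or in the bar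
      have hgo : ∀ x : ℤ, (x, c.2) ∉ (C.shape k H D).cells → (x / un k H, y) ∉ C.J →
          ∃ c', co k H c' ∉ C.I ∧ Rt (C.shape k H D) (x, c.2) c' := by
        intro x hx1 hx2
        by_cases h5 : (x / un k H, y) ∈ C.I
        · exact hup x hx1 fun h6 => hx2 (mem_J.2 ⟨h5, h6⟩)
        · exact ⟨(x, c.2), by rwa [hstrip], ReflTransGen.refl⟩
      have hnJ : ∀ x : ℤ, (x / un k H, y) ∉ C.J → (x, c.2) ∉ (C.shape k H D).cells := by
        intro x hx hmem
        rcases bar_cases (c := (x, c.2)) hi0 hik h3 hmem with ⟨h5, -⟩ | ⟨-, s', hs', hs'y, h5, h6⟩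
        · exact absurd h5 (lt_irrefl _)
        · have h5' : un k H * s'.1 + D ≤ x := h5
          have h6' : x < un k H * hi C.J s' - D := h6
          have h7 := col_of hu (show un k H * s'.1 ≤ x by linarith) (show x < un k H * hi C.J s' by linarith)
          have h8 := mem_run_start hs' h7.1 h7.2
          rw [hs'y] at h8
          exact hx h8
      by_cases hJ : p ∈ C.J
      · have hst := st_mem hJ
        set s : ℤ × ℤ := (lo C.J p, p.2) with hs_def
        have hhi : hi C.J s = hi C.J p := hi_congr (p := p) le_rfl (lo_lt_hi hJ)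
        have hnot : ∀ x, un k H * s.1 ≤ x → x < un k H * hi C.J s →
            (x < un k H * s.1 + D ∨ un k H * hi C.J s - D ≤ x) → (x, c.2) ∉ (C.shape k H D).cells := by
          intro x hx1 hx2 hx3 hmem
          rcases bar_cases (c := (x, c.2)) hi0 hik h3 hmem with ⟨h5, -⟩ | ⟨-, s', hs', hs'y, h5, h6⟩
          · exact absurd h5 (lt_irrefl _)
          · have h5' : un k H * s'.1 + D ≤ x := h5
            have h6' : x < un k H * hi C.J s' - D := h6
            have e : s = s' := start_unique hst hs' hs'y.symm (by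
              by_contra hcon
              push Not at hcon
              nlinarith) (by
              by_contra hcon
              push Not at hcon
              nlinarith)
            rw [← e] at h5' h6'
            omega
        have hcx : un k H * s.1 ≤ c.1 ∧ c.1 < un k H * hi C.J s := by
          rw [hhi]
          exact of_col hu (lo_le hJ) (lt_hi hJ)
        have hcase : c.1 < un k H * s.1 + D ∨ un k H * hi C.J s - D ≤ c.1 := by
          by_contra hcon
          push Not at hcon
          apply hc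
          have := link_mem' (C := C) (D := D) (H := H) (k := k) hst hcon.1 hcon.2
          have e : (c.1, (H + 1) * ((k + 1) * s.2 + k) + H) = c := Prod.ext rfl h3.symm
          rwa [e] at this
        rcases hcase with h5 | h5
        · have e : (un k H * s.1 - 1) / un k H = s.1 - 1 := by
            rw [div_iff hu]; constructor <;> nlinarith
          have hnJ' : ((un k H * s.1 - 1) / un k H, y) ∉ C.J := by
            rw [e]
            exact lo_not (p := p)
          obtain ⟨c', h6, h7⟩ := hgo _ (hnJ _ hnJ') hnJ'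
          refine ⟨c', h6, ReflTransGen.trans (hmove (a := c.1) (b := un k H * s.1 - 1) fun x hx => ?_) h7⟩
          rcases lt_or_ge x (un k H * s.1) with h8 | h8
          · have e1 : x = un k H * s.1 - 1 := by omega
            rw [e1]
            exact hnJ _ hnJ'
          · exact hnot x h8 (by omega) (Or.inl (by omega))
        · have e : (un k H * hi C.J s) / un k H = hi C.J s := by
            rw [div_iff hu]; constructor <;> nlinarith
          have hnJ' : ((un k H * hi C.J s) / un k H, y) ∉ C.J := by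
            rw [e]
            exact hi_not (p := s)
          obtain ⟨c', h6, h7⟩ := hgo _ (hnJ _ hnJ') hnJ'
          refine ⟨c', h6, ReflTransGen.trans (hmove (a := c.1) (b := un k H * hi C.J s) fun x hx => ?_) h7⟩
          rcases lt_or_ge x (un k H * hi C.J s) with h8 | h8
          · exact hnot x (by omega) h8 (Or.inr (by omega))
          · have e1 : x = un k H * hi C.J s := by omega
            rw [e1]
            exact hnJ _ hnJ'
      · obtain ⟨c', h6, h7⟩ := hgo c.1 hc hJ
        exact ⟨c', h6, h7⟩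
  · exact ⟨c, hI, ReflTransGen.refl⟩

/-- **the comb shape is admissible** -/
theorem shape_ok (hC : C.Ok) (P : Par k H D) : (C.shape k H D).Ok where
  x_lt := x_lt P
  y_lt := y_lt P
  on_y := on_y
  dn_l := dn_l P
  dn_r := dn_r P
  up_l := up_l P
  up_r := up_r P
  sep := sep P
  conn := conn hC
  compl := fun c hc N => by
    obtain ⟨c1, h1, h2⟩ := compl_bar P hc
    obtain ⟨c2, h3, h4⟩ := compl_out hC h1 N
    exact ⟨c2, h3, h2.trans h4⟩

end CDom
end Comb
end Full
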