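import Pool.Agent.Full.Comb.Ana
import Pool.Agent.Full.Asm.L7S

/-!
# FULL, combs: contour sums of the observable of a shape which refines a polygon
-/

set_option autoImplicit false

open Complex Set Filter Topology Metric H47Perc

namespace Full
namespace Fits
variable {B : Coarse} {S : Shape} {m : S.Marks} {U : ℝ}
open Shape

/-- points of the enlarged rectangle -/
lemma deep9 {x₁ x₂ y₁ y₂ : ℝ} (hx : x₁ < x₂) (hz : ∀ z ∈ Icc x₁ x₂ ×ℂ Icc y₁ y₂, B.Deep z 10) {z : ℂ}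
    (h : z ∈ Icc x₁ (x₂ + 1) ×ℂ Icc y₁ y₂) : B.Deep z 9 := by
  rw [mem_reProdIm] at h
  have h1 : (⟨min z.re x₂, z.im⟩ : ℂ) ∈ Icc x₁ x₂ ×ℂ Icc y₁ y₂ := by
    rw [mem_reProdIm]
    exact ⟨⟨le_min h.1.1 hx.le, min_le_right _ _⟩, h.2⟩
  refine (hz _ h1).ball (r := 1) ?_ (by norm_num) (by norm_num)
  have e : z - (⟨min z.re x₂, z.im⟩ : ℂ) = ((z.re - min z.re x₂ : ℝ) : ℂ) := by
    apply Complex.ext <;> simp
  rw [e, Complex.norm_real, Real.norm_eq_abs]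
  rcases min_cases z.re x₂ with ⟨h2, -⟩ | ⟨h2, h3⟩
  · rw [h2, sub_self, abs_zero]; norm_num
  · rw [h2, abs_of_nonneg (by linarith)]
    linarith [h.1.2]

/-- **contour sums** -/
theorem contour (h : Fits B S m U) (h2 : S2) {x₁ x₂ y₁ y₂ : ℝ} (hx : x₁ < x₂) (hy : y₁ < y₂)
    (hz : ∀ z ∈ Icc x₁ x₂ ×ℂ Icc y₁ y₂, B.Deep z 10) {C₀ η₁ : ℝ} (hC₀ : 1 ≤ C₀)
    (hs : SlabsOK C₀ atTop (fun (n : ℕ) z => F m n (U * z)) (fun n : ℕ => 1 / (U * n)) x₁ (x₂ + 1) y₁ y₂ η₁)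
    {η' : ℝ} (hη : 0 < η') :
    ∀ᶠ n : ℕ in atTop, ‖dcont (1 / (U * n)) (fun z => F m n (U * z)) x₁ x₂ y₁ y₂‖ ≤
      2 * ((x₂ - x₁) + (y₂ - y₁) + 3) * η₁ + η' := by
  have hU := h.pos
  obtain ⟨N, v, p, v0, vn, vmono, hp0, hsum, hk⟩ := hs
  have hδ0 : ∀ᶠ n : ℕ in atTop, 0 < 1 / (U * (n : ℝ)) := by
    filter_upwards [eventually_gt_atTop 0] with n hn
    have : (0 : ℝ) < n := by exact_mod_cast hn
    positivity
  have hδ : Tendsto (fun n : ℕ => 1 / (U * (n : ℝ))) atTop (𝓝 0) := by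
    refine tendsto_const_nhds.div_atTop ?_
    exact (tendsto_natCast_atTop_atTop).const_mul_atTop hU
  have heq : AEC atTop (Icc x₁ (x₂ + 1) ×ℂ Icc y₁ y₂) (fun (n : ℕ) z => F m n (U * z)) := by
    obtain ⟨C', c', hc', h2⟩ := h2
    intro ε hε
    obtain ⟨ρ, hρ, hρ1, hρ2⟩ : ∃ ρ > 0, ρ ≤ 1 ∧ |C'| * (ρ / 4) ^ c' < ε / 2 := by
      have h3 : Tendsto (fun ρ : ℝ => |C'| * (ρ / 4) ^ c') (𝓝 0) (𝓝 (|C'| * (0 / 4) ^ c')) := by
        refine Tendsto.const_mul _ ?_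
        have h4 : Tendsto (fun ρ : ℝ => ρ / 4) (𝓝 0) (𝓝 (0 / 4)) := tendsto_id.div_const 4
        exact h4.rpow_const (Or.inr hc'.le)
      rw [zero_div, Real.zero_rpow hc'.ne', mul_zero] at h3
      have h4 := h3.eventually (gt_mem_nhds (show (0 : ℝ) < ε / 2 by linarith))
      rw [Metric.eventually_nhds_iff] at h4
      obtain ⟨r, hr, h5⟩ := h4
      refine ⟨min 1 (r / 2), by positivity, min_le_left _ _, h5 ?_⟩
      rw [Real.dist_eq, sub_zero, abs_of_pos (by positivity)]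
      exact (min_le_right _ _).trans_lt (by linarith)
    refine ⟨ρ, hρ, ?_⟩
    filter_upwards [h2 S h.ok m h.mok (U * 4) (by linarith [h.one]) (ε / 2) (by linarith)] with n hn z hz1 w _ hzw
    have hd : dist ((U : ℂ) * z) (U * w) = U * dist z w := by
      rw [dist_eq_norm, dist_eq_norm, ← mul_sub, norm_mul, Complex.norm_real, Real.norm_eq_abs, abs_of_pos hU]
    have h5 := hn (U * z) (U * w) (h.closedBall_sub (deep9 hx hz hz1) (by norm_num)) (by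
      rw [hd, mul_div_assoc]
      refine mul_le_mul_of_nonneg_left ?_ hU.le
      linarith)
    rw [hd, mul_div_mul_left _ _ hU.ne'] at h5
    have h6 : C' * (dist z w / 4) ^ c' ≤ |C'| * (ρ / 4) ^ c' := by
      have h7 : (dist z w / 4) ^ c' ≤ (ρ / 4) ^ c' :=
        Real.rpow_le_rpow (by positivity) (by linarith) hc'.le
      calc C' * (dist z w / 4) ^ c' ≤ |C'| * (dist z w / 4) ^ c' :=
            mul_le_mul_of_nonneg_right (le_abs_self _) (by positivity)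
        _ ≤ |C'| * (ρ / 4) ^ c' := mul_le_mul_of_nonneg_left h7 (abs_nonneg _)
    rw [dist_eq_norm]
    linarith
  have key := dcont_le_of_engine (l := atTop) (F := fun (n : ℕ) z => F m n (U * z)) (δ := fun n : ℕ => 1 / (U * (n : ℝ)))
    hδ0 hδ hx.le hy.le one_pos heq (B := 3) (Eventually.of_forall fun n z _ => norm_F_le m n _) v0 vn vmono hp0 hC₀
    (fun k hkN => by
      rcases hk k hkN with ⟨g1, g2⟩ | g
      · exact Or.inl ⟨g1, fun x hx' => g2 x ⟨hx'.1, by linarith [hx'.2]⟩⟩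
      · exact Or.inr g) hη
  filter_upwards [key] with n hn
  refine hn.trans ?_
  have h8 : 0 ≤ 2 * ((x₂ - x₁) + (y₂ - y₁) + 3) := by linarith
  have := mul_le_mul_of_nonneg_left hsum h8
  linarith

end Fits
end Full
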