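import Pool.Agent.Full.Def.Shape
import Pool.Agent.Full.End.PolyIn

/-!
# FULL, combs: from a labelled domain of lattice cells to a shape

`CDom`: a finite set `I` of coarse cells with labels of the vertices of its boundary.  Every strip of cells of
`I` is cut into runs; every run is cut into `k + 1` rows of height `H`, separated by bars of thickness one; the
bars are open in the middle, dead ends of depth `D` remain at both ends.  A coarse cell has the side
`U = (k + 1) (H + 1)`.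
-/

set_option autoImplicit false

namespace Full
namespace Comb
open Relation

/-! ### runs of a finite set of cells -/

section run
variable (A : Finset (ℤ × ℤ)) (p : ℤ × ℤ)

/-- left end of the run of `p` -/
noncomputable def lo : ℤ := sSup {x : ℤ | x ≤ p.1 ∧ (x, p.2) ∉ A} + 1

/-- right end of the run of `p` -/
noncomputable def hi : ℤ := sInf {x : ℤ | p.1 ≤ x ∧ (x, p.2) ∉ A}

/-- the first cells of the runs -/
def starts : Finset (ℤ × ℤ) := A.filter fun p => (p.1 - 1, p.2) ∉ A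

variable {A} {p}

lemma exists_left : ∃ x : ℤ, x ≤ p.1 ∧ (x, p.2) ∉ A := by
  by_contra h
  push Not at h
  have h1 : Set.Finite {q : ℤ × ℤ | q ∈ A} := A.finite_toSet
  have h2 : Set.Infinite (Set.Iic p.1) := Set.Iic_infinite _
  refine h2 ((h1.preimage (f := fun x : ℤ => (x, p.2)) ?_).subset fun x hx => h x hx)
  intro x _ y _ h
  exact congrArg Prod.fst h

lemma exists_right : ∃ x : ℤ, p.1 ≤ x ∧ (x, p.2) ∉ A := by
  by_contra h
  push Not at h
  have h1 : Set.Finite {q : ℤ × ℤ | q ∈ A} := A.finite_toSet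
  have h2 : Set.Infinite (Set.Ici p.1) := Set.Ici_infinite _
  refine h2 ((h1.preimage (f := fun x : ℤ => (x, p.2)) ?_).subset fun x hx => h x hx)
  intro x _ y _ h
  exact congrArg Prod.fst h

lemma lo_spec : lo A p - 1 ≤ p.1 ∧ (lo A p - 1, p.2) ∉ A := by
  have h := Int.csSup_mem (s := {x : ℤ | x ≤ p.1 ∧ (x, p.2) ∉ A}) exists_left ⟨p.1, fun x hx => hx.1⟩
  unfold lo
  rwa [add_sub_cancel_right]

lemma hi_spec : p.1 ≤ hi A p ∧ (hi A p, p.2) ∉ A :=
  Int.csInf_mem (s := {x : ℤ | p.1 ≤ x ∧ (x, p.2) ∉ A}) exists_right ⟨p.1, fun x hx => hx.1⟩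

lemma lo_not : (lo A p - 1, p.2) ∉ A := lo_spec.2

lemma hi_not : (hi A p, p.2) ∉ A := hi_spec.2

lemma mem_of_lo {x : ℤ} (h1 : lo A p ≤ x) (h2 : x ≤ p.1) : (x, p.2) ∈ A := by
  by_contra h
  have h3 := le_csSup (s := {x : ℤ | x ≤ p.1 ∧ (x, p.2) ∉ A}) ⟨p.1, fun x hx => hx.1⟩ ⟨h2, h⟩
  unfold lo at h1
  omega

lemma mem_of_hi {x : ℤ} (h1 : p.1 ≤ x) (h2 : x < hi A p) : (x, p.2) ∈ A := by
  by_contra h
  have h3 := csInf_le (s := {x : ℤ | p.1 ≤ x ∧ (x, p.2) ∉ A}) ⟨p.1, fun x hx => hx.1⟩ ⟨h1, h⟩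
  unfold hi at h2
  omega

/-- the cells of the run of `p` -/
lemma mem_run {x : ℤ} (h1 : lo A p ≤ x) (h2 : x < hi A p) : (x, p.2) ∈ A := by
  rcases le_total x p.1 with h | h
  · exact mem_of_lo h1 h
  · exact mem_of_hi h h2

lemma lo_le (h : p ∈ A) : lo A p ≤ p.1 := by
  have h1 := lo_spec (A := A) (p := p)
  rcases lt_or_eq_of_le h1.1 with h2 | h2
  · omega
  · exact absurd h (by rw [h2] at h1; exact h1.2)

lemma lt_hi (h : p ∈ A) : p.1 < hi A p := by
  have h1 := hi_spec (A := A) (p := p)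
  rcases lt_or_eq_of_le h1.1 with h2 | h2
  · exact h2
  · exact absurd h (by rw [← h2] at h1; exact h1.2)

lemma lo_lt_hi (h : p ∈ A) : lo A p < hi A p := (lo_le h).trans_lt (lt_hi h)

/-- characterisation of the left end -/
lemma lo_eq {x : ℤ} (h1 : (x - 1, p.2) ∉ A) (h2 : x ≤ p.1 + 1) (h3 : ∀ y, x ≤ y → y ≤ p.1 → (y, p.2) ∈ A) :
    lo A p = x := by
  have h4 := lo_spec (A := A) (p := p)
  rcases lt_trichotomy (lo A p) x with h | h | h
  · exact absurd (mem_of_lo (A := A) (p := p) (x := x - 1) (by omega) (by omega)) h1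
  · exact h
  · exact absurd (h3 (lo A p - 1) (by omega) h4.1) h4.2

/-- characterisation of the right end -/
lemma hi_eq {x : ℤ} (h1 : (x, p.2) ∉ A) (h2 : p.1 ≤ x) (h3 : ∀ y, p.1 ≤ y → y < x → (y, p.2) ∈ A) :
    hi A p = x := by
  have h4 := hi_spec (A := A) (p := p)
  rcases lt_trichotomy (hi A p) x with h | h | h
  · exact absurd (h3 (hi A p) h4.1 h) h4.2
  · exact h
  · exact absurd (mem_of_hi (A := A) (p := p) h2 h) h1

/-- cells of one run have the same left end -/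
lemma lo_congr {x : ℤ} (h1 : lo A p ≤ x) (h2 : x < hi A p) : lo A (x, p.2) = lo A p :=
  lo_eq (p := (x, p.2)) lo_not (by show lo A p ≤ x + 1; omega) fun y hy1 hy2 =>
    mem_run (p := p) hy1 (lt_of_le_of_lt hy2 h2)

lemma hi_congr {x : ℤ} (h1 : lo A p ≤ x) (h2 : x < hi A p) : hi A (x, p.2) = hi A p :=
  hi_eq (p := (x, p.2)) hi_not (by show x ≤ hi A p; omega) fun y hy1 hy2 =>
    mem_run (p := p) (le_trans h1 hy1) hy2

lemma mem_starts : p ∈ starts A ↔ p ∈ A ∧ (p.1 - 1, p.2) ∉ A := by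
  unfold starts
  rw [Finset.mem_filter]

lemma lo_start (h : p ∈ starts A) : lo A p = p.1 := by
  rw [mem_starts] at h
  refine lo_eq h.2 (by omega) fun y h1 h2 => ?_
  have : y = p.1 := le_antisymm h2 h1
  subst this
  exact h.1

lemma start_lt_hi (h : p ∈ starts A) : p.1 < hi A p := lt_hi (mem_starts.1 h).1

lemma mem_run_start (h : p ∈ starts A) {x : ℤ} (h1 : p.1 ≤ x) (h2 : x < hi A p) : (x, p.2) ∈ A :=
  mem_run (by rw [lo_start h]; exact h1) h2

/-- the first cell of the run of `p` -/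
lemma st_mem (h : p ∈ A) : (lo A p, p.2) ∈ starts A :=
  mem_starts.2 ⟨mem_run le_rfl (lo_lt_hi h), lo_not⟩

/-- two runs of the same strip which meet are equal -/
lemma start_unique {p q : ℤ × ℤ} (hp : p ∈ starts A) (hq : q ∈ starts A) (h : p.2 = q.2) (h1 : p.1 < hi A q)
    (h2 : q.1 < hi A p) : p = q := by
  rcases lt_trichotomy p.1 q.1 with h3 | h3 | h3
  · exfalso
    have h4 := mem_run_start hp (x := q.1 - 1) (by omega) (by omega)
    rw [h] at h4
    exact (mem_starts.1 hq).2 h4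
  · exact Prod.ext h3 h
  · exfalso
    have h4 := mem_run_start hq (x := p.1 - 1) (by omega) (by omega)
    rw [← h] at h4
    exact (mem_starts.1 hp).2 h4

/-- distinct runs of the same strip are separated -/
lemma start_sep {p q : ℤ × ℤ} (hp : p ∈ starts A) (hq : q ∈ starts A) (h : p.2 = q.2) (hne : p ≠ q) :
    hi A p < q.1 ∨ hi A q < p.1 := by
  by_contra hcon
  push Not at hcon
  obtain ⟨h1, h2⟩ := hcon
  have h1' : q.1 ≠ hi A p := by
    intro h3
    have h4 : (hi A p, p.2) ∉ A := hi_not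
    rw [← h3, h] at h4
    exact h4 (mem_starts.1 hq).1
  have h2' : p.1 ≠ hi A q := by
    intro h3
    have h4 : (hi A q, q.2) ∉ A := hi_not
    rw [← h3, ← h] at h4
    exact h4 (mem_starts.1 hp).1
  exact hne (start_unique hp hq h (by omega) (by omega))

end run

/-! ### the coarse data -/

/-- labelled domains of coarse cells: the cells, labels of the vertices of the boundary, the cells above the
marked sides -/
structure CDom where
  I : Finset (ℤ × ℤ)
  lab : ℤ × ℤ → Fin 4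
  mar : Fin 4 → ℤ × ℤ

namespace CDom
variable (C : CDom)

/-- admissible coarse data -/
structure Ok : Prop where
  ne : C.I.Nonempty
  conn : ∀ p ∈ C.I, ∀ q ∈ C.I, Jn (C.I : Set (ℤ × ℤ)) p q
  compl : ∀ p, p ∉ C.I → ∀ N : ℤ, ∃ q : ℤ × ℤ, q.2 < N ∧ q ∉ C.I ∧ Jn ((C.I : Set (ℤ × ℤ))ᶜ) p q
  mar_mem : ∀ j, C.mar j ∈ C.I
  mar_below : ∀ j, ((C.mar j).1, (C.mar j).2 - 1) ∉ C.I
  mar_l : ∀ j, C.lab (C.mar j) = j - 1
  mar_r : ∀ j, C.lab ((C.mar j).1 + 1, (C.mar j).2) = j
  hor : ∀ x y : ℤ, ((x, y) ∈ C.I ↔ (x, y - 1) ∉ C.I) → (∀ j, C.mar j ≠ (x, y)) → C.lab (x, y) = C.lab (x + 1, y)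
  ver : ∀ x y : ℤ, ((x, y) ∈ C.I ↔ (x - 1, y) ∉ C.I) → C.lab (x, y) = C.lab (x, y + 1)

/-- the cells below a cell of the domain -/
def J : Finset (ℤ × ℤ) := C.I.filter fun p => (p.1, p.2 + 1) ∈ C.I

variable {C} in
lemma mem_J {p : ℤ × ℤ} : p ∈ C.J ↔ p ∈ C.I ∧ (p.1, p.2 + 1) ∈ C.I := by
  unfold J
  rw [Finset.mem_filter]

end CDom

/-- side of a coarse cell in the units of the shape -/
def un (k H : ℕ) : ℤ := (k + 1) * (H + 1)

/-- admissible parameters: `k + 1` rows of height `H`, dead ends of depth `D` -/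
structure Par (k H D : ℕ) : Prop where
  H_pos : 1 ≤ H
  D_pos : 1 ≤ D
  small : 2 * (D : ℤ) + 2 ≤ un k H

namespace CDom
variable (C : CDom) (k H D : ℕ)

/-- **the comb shape** of the coarse data -/
noncomputable def shape : Shape where
  R := {p : ℤ × ℤ // p ∈ starts C.I} × Fin (k + 1)
  K := ({p : ℤ × ℤ // p ∈ starts C.I} × Fin k) ⊕ {p : ℤ × ℤ // p ∈ starts C.J}
  fR := inferInstance
  fK := inferInstance
  xl
    | .inl (p, _) => un k H * p.1.1
    | .inr (.inl (p, _)) => un k H * p.1.1 + D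
    | .inr (.inr p) => un k H * p.1.1 + D
  xr
    | .inl (p, _) => un k H * hi C.I p.1
    | .inr (.inl (p, _)) => un k H * hi C.I p.1 - D
    | .inr (.inr p) => un k H * hi C.J p.1 - D
  yb
    | .inl (p, i) => un k H * p.1.2 + (i : ℕ) * (H + 1)
    | .inr (.inl (p, i)) => un k H * p.1.2 + (i : ℕ) * (H + 1) + H
    | .inr (.inr p) => un k H * (p.1.2 + 1) - 1
  yt
    | .inl (p, i) => un k H * p.1.2 + (i : ℕ) * (H + 1) + H
    | .inr (.inl (p, i)) => un k H * p.1.2 + (i : ℕ) * (H + 1) + H + 1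
    | .inr (.inr p) => un k H * (p.1.2 + 1)
  dn
    | .inl (p, i) => (p, i.castSucc)
    | .inr p => (⟨(lo C.I p.1, p.1.2), st_mem (mem_J.1 (mem_starts.1 p.2).1).1⟩, Fin.last k)
  up
    | .inl (p, i) => (p, i.succ)
    | .inr p => (⟨(lo C.I (p.1.1, p.1.2 + 1), p.1.2 + 1), st_mem (p := (p.1.1, p.1.2 + 1))
        (mem_J.1 (mem_starts.1 p.2).1).2⟩, 0)

end CDom

end Comb
end Full
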