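import Pool.Agent.Full.Comb.Lev

/-!
# FULL, combs: marks and labels of the comb shape
-/

set_option autoImplicit false

namespace Full
namespace Comb
namespace CDom
variable {C : CDom}

lemma J_sub {c y : ℤ} (h : (c, y) ∈ C.J) : (c, y) ∈ C.I := (mem_J.1 h).1

lemma J_sub' {c y : ℤ} (h : (c, y - 1) ∈ C.J) : (c, y) ∈ C.I := by
  have := (mem_J.1 h).2
  simpa using this

/-- the labels inside a strip -/
noncomputable def inn (C : CDom) (U D : ℤ) (p : ℤ × ℤ) (x : ℤ) : Fin 4 :=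
  if x ≤ U * p.1 + D then C.lab p else C.lab (hi C.I p, p.2)

/-- the labels of the floor (`b = false`) or the ceiling (`b = true`) of the row `i` of the run of `p`; left
(`t = true`) or right (`t = false`) half of the cell `x` -/
noncomputable def L (C : CDom) (k H D : ℕ) (t : Bool) (r : (C.shape k H D).R) (b : Bool) (x : ℤ) : Fin 4 :=
  if b = false ∧ r.2 = 0 then C.lev (un k H) D t r.1.1.1 (hi C.I r.1.1) (r.1.1.2 - 1) r.1.1.2 x
  else if b = true ∧ r.2 = Fin.last k then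
    C.lev (un k H) D t r.1.1.1 (hi C.I r.1.1) r.1.1.2 (r.1.1.2 + 1) x
  else C.inn (un k H) D r.1.1 x

/-- **the marks and the labels of the comb shape** -/
noncomputable def marks (hC : C.Ok) (k H D : ℕ) : (C.shape k H D).Marks where
  room j := (⟨(lo C.I (C.mar j), (C.mar j).2), st_mem (hC.mar_mem j)⟩, 0)
  top _ := false
  x j := un k H * (C.mar j).1 + un k H / 2
  wl
    | .inl r => C.lab r.1.1
    | .inr (.inl r) => C.lab r.1.1
    | .inr (.inr p) => C.lab (p.1.1, p.1.2 + 1)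
  wr
    | .inl r => C.lab (hi C.I r.1.1, r.1.1.2)
    | .inr (.inl r) => C.lab (hi C.I r.1.1, r.1.1.2)
    | .inr (.inr p) => C.lab (hi C.J p.1, p.1.2 + 1)
  La := C.L k H D true
  Lb := C.L k H D false

variable {k H D : ℕ}

/-- the openings of a row -/
lemma att_cases {l : (C.shape k H D).K} {r : (C.shape k H D).R} {b : Bool} (h : (C.shape k H D).Att l r b) :
    (∃ i : Fin k, l = .inl (r.1, i) ∧ ¬ (b = false ∧ r.2 = 0) ∧ ¬ (b = true ∧ r.2 = Fin.last k)) ∨
    (∃ q : {p : ℤ × ℤ // p ∈ starts C.J}, l = .inr q ∧ b = true ∧ r.2 = Fin.last k ∧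
      r.1.1 = (lo C.I q.1, q.1.2)) ∨
    (∃ q : {p : ℤ × ℤ // p ∈ starts C.J}, l = .inr q ∧ b = false ∧ r.2 = 0 ∧
      r.1.1 = (lo C.I (q.1.1, q.1.2 + 1), q.1.2 + 1)) := by
  rcases l with ⟨p, i⟩ | q
  · left
    cases b with
    | false =>
      have h' : (p, i.succ) = r := h
      rw [← h']
      exact ⟨i, rfl, fun h1 => absurd h1.2 (Fin.succ_ne_zero i), fun h1 => absurd h1.1 Bool.false_ne_true⟩
    | true =>
      have h' : (p, i.castSucc) = r := h
      rw [← h']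
      refine ⟨i, rfl, fun h1 => absurd h1.1 (by decide), fun h1 => ?_⟩
      exact absurd h1.2 (Fin.castSucc_lt_last i).ne
  · right
    cases b with
    | false =>
      right
      have h' : ((⟨(lo C.I (q.1.1, q.1.2 + 1), q.1.2 + 1), st_mem (p := (q.1.1, q.1.2 + 1))
        (mem_J.1 (mem_starts.1 q.2).1).2⟩, 0) : (C.shape k H D).R) = r := h
      rw [← h']
      exact ⟨q, rfl, rfl, rfl, rfl⟩
    | true =>
      left
      have h' : ((⟨(lo C.I q.1, q.1.2), st_mem (mem_J.1 (mem_starts.1 q.2).1).1⟩, Fin.last k) :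
        (C.shape k H D).R) = r := h
      rw [← h']
      exact ⟨q, rfl, rfl, rfl, rfl⟩

/-- an opening between two strips is attached to the run above and to the run below -/
lemma att_up {r : (C.shape k H D).R} (h0 : r.2 = 0) {c : ℤ} (hJ : (c, r.1.1.2 - 1) ∈ C.J) (h1 : r.1.1.1 ≤ c)
    (h2 : c < hi C.I r.1.1) :
    (C.shape k H D).Att (.inr ⟨(lo C.J (c, r.1.1.2 - 1), r.1.1.2 - 1), st_mem hJ⟩) r false := by
  obtain ⟨⟨⟨x₀, y⟩, hp⟩, i⟩ := r
  have hi0 : i = 0 := h0
  subst hi0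
  have hn := (mem_starts.1 hp).2
  have hl : (x₀ - 1, y - 1) ∉ C.J := fun h => hn (J_sub' h)
  have hr : (hi C.I (x₀, y), y - 1) ∉ C.J := fun h => hi_not (A := C.I) (p := (x₀, y)) (J_sub' h)
  have h3 := run_in (c := c) hl hr h1 h2
  have h4 : lo C.J (c, y - 1) ≤ c := lo_le hJ
  show ((⟨(lo C.I (lo C.J (c, y - 1), y - 1 + 1), y - 1 + 1), _⟩, 0) : (C.shape k H D).R) = _
  have e : y - 1 + 1 = y := by ring
  have h5 : lo C.I (lo C.J (c, y - 1), y) = x₀ := by
    have h6 := lo_congr (A := C.I) (p := (x₀, y)) (x := lo C.J (c, y - 1)) (by rw [lo_start hp]; exact h3.1)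
      (lt_of_le_of_lt h4 h2)
    have h7 : lo C.I (x₀, y) = x₀ := lo_start hp
    rw [h7] at h6
    exact h6
  refine Prod.ext (Subtype.ext ?_) rfl
  show (lo C.I (lo C.J (c, y - 1), y - 1 + 1), y - 1 + 1) = (x₀, y)
  rw [e, h5]

lemma att_dn {r : (C.shape k H D).R} (h0 : r.2 = Fin.last k) {c : ℤ} (hJ : (c, r.1.1.2) ∈ C.J) (h1 : r.1.1.1 ≤ c)
    (h2 : c < hi C.I r.1.1) :
    (C.shape k H D).Att (.inr ⟨(lo C.J (c, r.1.1.2), r.1.1.2), st_mem hJ⟩) r true := by
  obtain ⟨⟨⟨x₀, y⟩, hp⟩, i⟩ := r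
  have hi0 : i = Fin.last k := h0
  subst hi0
  have hn := (mem_starts.1 hp).2
  have hl : (x₀ - 1, y) ∉ C.J := fun h => hn (J_sub h)
  have hr : (hi C.I (x₀, y), y) ∉ C.J := fun h => hi_not (A := C.I) (p := (x₀, y)) (J_sub h)
  have h3 := run_in (c := c) hl hr h1 h2
  have h4 : lo C.J (c, y) ≤ c := lo_le hJ
  have h5 : lo C.I (lo C.J (c, y), y) = x₀ := by
    have h6 := lo_congr (A := C.I) (p := (x₀, y)) (x := lo C.J (c, y)) (by rw [lo_start hp]; exact h3.1)
      (lt_of_le_of_lt h4 h2)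
    have h7 : lo C.I (x₀, y) = x₀ := lo_start hp
    rw [h7] at h6
    exact h6
  show ((⟨(lo C.I (lo C.J (c, y), y), y), _⟩, Fin.last k) : (C.shape k H D).R) = _
  refine Prod.ext (Subtype.ext ?_) rfl
  show (lo C.I (lo C.J (c, y), y), y) = (x₀, y)
  rw [h5]

/-- the run of `J` under a run of `I` -/
lemma in_up {r : (C.shape k H D).R} {q : {p : ℤ × ℤ // p ∈ starts C.J}}
    (h : r.1.1 = (lo C.I (q.1.1, q.1.2 + 1), q.1.2 + 1)) :
    q.1.2 = r.1.1.2 - 1 ∧ r.1.1.1 ≤ q.1.1 ∧ q.1.1 < hi C.I r.1.1 ∧ hi C.J q.1 ≤ hi C.I r.1.1 := by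
  have hq := (mem_J.1 (mem_starts.1 q.2).1).2
  have h1 : lo C.I (q.1.1, q.1.2 + 1) ≤ q.1.1 := lo_le hq
  have h2 : q.1.1 < hi C.I (q.1.1, q.1.2 + 1) := lt_hi hq
  have h3 : hi C.I r.1.1 = hi C.I (q.1.1, q.1.2 + 1) := by
    rw [h]
    exact hi_congr (p := (q.1.1, q.1.2 + 1)) le_rfl (h1.trans_lt h2)
  rw [h3]
  refine ⟨by rw [h]; show q.1.2 = q.1.2 + 1 - 1; ring, by rw [h]; exact h1, h2, ?_⟩
  by_contra h4
  have h5 := mem_of_hi (A := C.J) (p := q.1) (x := hi C.I (q.1.1, q.1.2 + 1)) h2.le (not_le.1 h4)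
  exact hi_not (A := C.I) (p := (q.1.1, q.1.2 + 1)) (mem_J.1 h5).2

lemma in_dn {r : (C.shape k H D).R} {q : {p : ℤ × ℤ // p ∈ starts C.J}}
    (h : r.1.1 = (lo C.I q.1, q.1.2)) :
    q.1.2 = r.1.1.2 ∧ r.1.1.1 ≤ q.1.1 ∧ q.1.1 < hi C.I r.1.1 ∧ hi C.J q.1 ≤ hi C.I r.1.1 := by
  have hq := (mem_J.1 (mem_starts.1 q.2).1).1
  have h1 : lo C.I q.1 ≤ q.1.1 := lo_le hq
  have h2 : q.1.1 < hi C.I q.1 := lt_hi hq
  have h3 : hi C.I r.1.1 = hi C.I q.1 := by
    rw [h]
    exact hi_congr (p := q.1) le_rfl (h1.trans_lt h2)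
  rw [h3]
  refine ⟨by rw [h], by rw [h]; exact h1, h2, ?_⟩
  by_contra h4
  have h5 := mem_of_hi (A := C.J) (p := q.1) (x := hi C.I q.1) h2.le (not_le.1 h4)
  exact hi_not (A := C.I) (p := q.1) (mem_J.1 h5).1

lemma L_floor {t : Bool} {r : (C.shape k H D).R} (h : r.2 = 0) (x : ℤ) :
    C.L k H D t r false x = C.lev (un k H) D t r.1.1.1 (hi C.I r.1.1) (r.1.1.2 - 1) r.1.1.2 x := by
  unfold L
  rw [if_pos ⟨rfl, h⟩]

lemma L_ceil {t : Bool} {r : (C.shape k H D).R} (h : r.2 = Fin.last k) (x : ℤ) :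
    C.L k H D t r true x = C.lev (un k H) D t r.1.1.1 (hi C.I r.1.1) r.1.1.2 (r.1.1.2 + 1) x := by
  unfold L
  rw [if_neg (fun h1 => absurd h1.1 (by decide)), if_pos ⟨rfl, h⟩]

lemma L_inn {t b : Bool} {r : (C.shape k H D).R} (h1 : ¬ (b = false ∧ r.2 = 0)) (h2 : ¬ (b = true ∧ r.2 = Fin.last k))
    (x : ℤ) : C.L k H D t r b x = C.inn (un k H) D r.1.1 x := by
  unfold L
  rw [if_neg h1, if_neg h2]

/-- the three kinds of floors and ceilings -/
lemma kinds (r : (C.shape k H D).R) (b : Bool) :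
    (b = false ∧ r.2 = 0) ∨ (b = true ∧ r.2 = Fin.last k) ∨
    (¬ (b = false ∧ r.2 = 0) ∧ ¬ (b = true ∧ r.2 = Fin.last k)) := by
  by_cases h1 : b = false ∧ r.2 = 0
  · exact Or.inl h1
  by_cases h2 : b = true ∧ r.2 = Fin.last k
  · exact Or.inr (Or.inl h2)
  · exact Or.inr (Or.inr ⟨h1, h2⟩)

/-- the inner bars have an opening -/
lemma att_inn {r : (C.shape k H D).R} {b : Bool} (h1 : ¬ (b = false ∧ r.2 = 0)) (h2 : ¬ (b = true ∧ r.2 = Fin.last k)) :
    ∃ i : Fin k, (C.shape k H D).Att (.inl (r.1, i)) r b := by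
  obtain ⟨p, i⟩ := r
  cases b with
  | false =>
    have h3 : i ≠ 0 := fun h => h1 ⟨rfl, h⟩
    obtain ⟨j, hj⟩ := Fin.exists_succ_eq.2 h3
    exact ⟨j, by show (p, j.succ) = (p, i); rw [hj]⟩
  | true =>
    have h3 : i ≠ Fin.last k := fun h => h2 ⟨rfl, h⟩
    obtain ⟨j, hj⟩ := Fin.exists_castSucc_eq.2 h3
    exact ⟨j, by show (p, j.castSucc) = (p, i); rw [hj]⟩

lemma ver_l (hC : C.Ok) {p : ℤ × ℤ} (hp : p ∈ starts C.I) : C.lab (p.1, p.2) = C.lab (p.1, p.2 + 1) := by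
  have h := mem_starts.1 hp
  exact hC.ver _ _ ⟨fun _ => h.2, fun _ => h.1⟩

lemma ver_r (hC : C.Ok) {p : ℤ × ℤ} (hp : p ∈ starts C.I) :
    C.lab (hi C.I p, p.2) = C.lab (hi C.I p, p.2 + 1) := by
  have h1 : (hi C.I p, p.2) ∉ C.I := hi_not
  have h2 := start_lt_hi hp
  have h3 : (hi C.I p - 1, p.2) ∈ C.I := mem_run_start hp (by omega) (by omega)
  exact hC.ver _ _ ⟨fun h => absurd h h1, fun h => absurd h3 h⟩

lemma edge_l {p : ℤ × ℤ} (hp : p ∈ starts C.I) : (p.1 - 1, p.2) ∉ C.J ∧ (p.1 - 1, p.2 - 1) ∉ C.J :=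
  ⟨fun h => (mem_starts.1 hp).2 (J_sub h), fun h => (mem_starts.1 hp).2 (J_sub' h)⟩

lemma edge_r {p : ℤ × ℤ} : (hi C.I p, p.2) ∉ C.J ∧ (hi C.I p, p.2 - 1) ∉ C.J :=
  ⟨fun h => hi_not (A := C.I) (p := p) (J_sub h), fun h => hi_not (A := C.I) (p := p) (J_sub' h)⟩

/-- **the marks and the labels are admissible** -/
theorem marks_ok (hC : C.Ok) (hP : Par k H D) : (marks hC k H D).Ok := by
  have hU : 2 * (D : ℤ) + 2 ≤ un k H := hP.small
  have hD : (1 : ℤ) ≤ D := by exact_mod_cast hP.D_pos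
  have hU0 : 0 < un k H := by omega
  obtain ⟨hh1, hh2⟩ := half_spec hU
  have hroom : ∀ j, lo C.I (C.mar j) ≤ (C.mar j).1 ∧ (C.mar j).1 < hi C.I (C.mar j) := fun j =>
    ⟨lo_le (hC.mar_mem j), lt_hi (hC.mar_mem j)⟩
  have hhi : ∀ j, hi C.I (lo C.I (C.mar j), (C.mar j).2) = hi C.I (C.mar j) := fun j =>
    hi_congr le_rfl ((hroom j).1.trans_lt (hroom j).2)
  have hnJ : ∀ j, ((C.mar j).1, (C.mar j).2 - 1) ∉ C.J := fun j h => hC.mar_below j (mem_J.1 h).1
  -- the run of an inner level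
  have hinn : ∀ p ∈ starts C.I, un k H * p.1 + un k H ≤ un k H * hi C.I p := fun p hp =>
    mul_step hU0.le (start_lt_hi hp)
  constructor
  · -- left
    intro j
    show un k H * lo C.I (C.mar j) < un k H * (C.mar j).1 + un k H / 2
    have := mul_mono hU0.le (hroom j).1
    omega
  · -- right
    intro j
    show un k H * (C.mar j).1 + un k H / 2 + 1 < un k H * hi C.I (lo C.I (C.mar j), (C.mar j).2)
    rw [hhi]
    have := mul_step hU0.le (hroom j).2
    omega
  · -- wall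
    intro j l hl
    rcases att_cases hl with ⟨i, -, h1, -⟩ | ⟨q, -, h1, -⟩ | ⟨q, rfl, -, -, h1⟩
    · exact absurd ⟨rfl, rfl⟩ h1
    · exact absurd h1 (by show ¬ (false = true); decide)
    · obtain ⟨e1, e2, e3, e4⟩ := in_up h1
      have e1' : q.1.2 = (C.mar j).2 - 1 := e1
      show un k H * (C.mar j).1 + un k H / 2 + 1 < un k H * q.1.1 + D ∨
        un k H * hi C.J q.1 - D < un k H * (C.mar j).1 + un k H / 2
      rcases lt_or_ge (C.mar j).1 q.1.1 with h2 | h2
      · left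
        have := mul_step hU0.le h2
        omega
      · right
        have h3 : hi C.J q.1 ≤ (C.mar j).1 := by
          by_contra h3
          have h4 := mem_run_start q.2 h2 (not_le.1 h3)
          rw [e1'] at h4
          exact hnJ j h4
        have := mul_mono hU0.le h3
        omega
  · -- same
    intro r b x hx
    show C.L k H D true r b x = C.L k H D false r b x
    rcases kinds r b with ⟨rfl, h0⟩ | ⟨rfl, h0⟩ | ⟨h1, h2⟩
    · rw [L_floor h0, L_floor h0]
      refine lev_same hU0 fun c h1 h2 h3 h4 => ?_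
      have h5 : (c, r.1.1.2) ∈ C.I := mem_run_start r.1.2 h1 h2
      refine hC.hor _ _ ⟨fun _ h6 => h3 (mem_J.2 ⟨h6, by simpa using h5⟩), fun _ => h5⟩ fun j hj => ?_
      refine hx j ⟨?_, rfl, ?_⟩
      · refine Prod.ext (Subtype.ext ?_) h0.symm
        show (lo C.I (C.mar j), (C.mar j).2) = r.1.1
        rw [hj]
        have h6 := lo_congr (A := C.I) (p := r.1.1) (x := c) (by rw [lo_start r.1.2]; exact h1) h2
        rw [lo_start r.1.2] at h6
        rw [h6]
      · show un k H * (C.mar j).1 + un k H / 2 = x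
        rw [hj, h4]
    · rw [L_ceil h0, L_ceil h0]
      refine lev_same hU0 fun c h1 h2 h3 h4 => ?_
      have h5 : (c, r.1.1.2) ∈ C.I := mem_run_start r.1.2 h1 h2
      have h6 : (c, r.1.1.2 + 1) ∉ C.I := fun h => h3 (mem_J.2 ⟨h5, h⟩)
      refine hC.hor _ _ ⟨fun h => absurd h h6, fun h => absurd ?_ h⟩ fun j hj => ?_
      · rw [add_sub_cancel_right]; exact h5
      · have := hC.mar_mem j
        rw [hj] at this
        exact h6 this
    · rw [L_inn h1 h2, L_inn h1 h2]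
  · -- floor
    intro j _
    have h1 : un k H * (C.mar j).1 ≤ un k H * (C.mar j).1 + un k H / 2 := by omega
    have h2 : un k H * (C.mar j).1 + un k H / 2 < un k H * (C.mar j).1 + un k H := by omega
    constructor
    · show C.L k H D true ((marks hC k H D).room j) false (un k H * (C.mar j).1 + un k H / 2) = j - 1
      rw [L_floor rfl]
      have := lev_fst' (C := C) (D := D) (t := true) (x₀ := lo C.I (C.mar j))
        (x₁ := hi C.I (lo C.I (C.mar j), (C.mar j).2)) (ly := (C.mar j).2) h1 h2 (hroom j).1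
        (by rw [hhi]; exact (hroom j).2) (hnJ j) (Or.inr ⟨rfl, rfl⟩)
      exact this.trans (hC.mar_l j)
    · show C.L k H D false ((marks hC k H D).room j) false (un k H * (C.mar j).1 + un k H / 2) = j
      rw [L_floor rfl]
      have := lev_snd (C := C) (D := D) (t := false) (x₀ := lo C.I (C.mar j))
        (x₁ := hi C.I (lo C.I (C.mar j), (C.mar j).2)) (ly := (C.mar j).2) h1 h2 (hroom j).1
        (by rw [hhi]; exact (hroom j).2) (hnJ j) (by rintro (h | ⟨h, -⟩); exacts [by omega, Bool.false_ne_true h])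
      exact this.trans (hC.mar_r j)
  · -- ceil
    intro j h
    exact absurd h (by show ¬ (false = true); decide)
  · -- step
    intro r b x h1 h2 hop
    have h1' : un k H * r.1.1.1 ≤ x := h1
    have h2' : x < un k H * hi C.I r.1.1 := h2
    show C.L k H D true r b (x + 1) = C.L k H D false r b x
    have hc := div_spec (x := x) hU0
    have hc1 : r.1.1.1 ≤ x / un k H := by
      by_contra h
      have := mul_step hU0.le (not_le.1 h)
      omega
    have hc2 : x / un k H < hi C.I r.1.1 := lt_of_mul hU0.le (lt_of_le_of_lt hc.1 h2')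
    rcases kinds r b with ⟨rfl, h0⟩ | ⟨rfl, h0⟩ | ⟨h3, h4⟩
    · rw [L_floor h0, L_floor h0]
      refine lev_step hU hD h1' h2' fun hJ => ?_
      have h5 := hop _ (att_up h0 hJ hc1 hc2)
      have e : hi C.J (lo C.J (x / un k H, r.1.1.2 - 1), r.1.1.2 - 1) = hi C.J (x / un k H, r.1.1.2 - 1) :=
        hi_congr le_rfl (lo_lt_hi hJ)
      rcases h5 with h5 | h5
      · left; exact h5
      · right
        have h5' : un k H * hi C.J (lo C.J (x / un k H, r.1.1.2 - 1), r.1.1.2 - 1) - D ≤ x := h5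
        rwa [e] at h5'
    · rw [L_ceil h0, L_ceil h0]
      refine lev_step hU hD h1' h2' fun hJ => ?_
      have h5 := hop _ (att_dn h0 hJ hc1 hc2)
      have e : hi C.J (lo C.J (x / un k H, r.1.1.2), r.1.1.2) = hi C.J (x / un k H, r.1.1.2) :=
        hi_congr le_rfl (lo_lt_hi hJ)
      rcases h5 with h5 | h5
      · left; exact h5
      · right
        have h5' : un k H * hi C.J (lo C.J (x / un k H, r.1.1.2), r.1.1.2) - D ≤ x := h5
        rwa [e] at h5'
    · rw [L_inn h3 h4, L_inn h3 h4]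
      obtain ⟨i, hi'⟩ := att_inn h3 h4
      have h5 := hop _ hi'
      have h5' : x < un k H * r.1.1.1 + D ∨ un k H * hi C.I r.1.1 - D ≤ x := h5
      have h6 := hinn _ r.1.2
      unfold inn
      rcases h5' with h7 | h7
      · rw [if_pos (by omega), if_pos (by omega)]
      · rw [if_neg (by omega), if_neg (by omega)]
  · -- first
    intro r b
    show C.L k H D true r b (un k H * r.1.1.1) = C.lab r.1.1
    rcases kinds r b with ⟨rfl, h0⟩ | ⟨rfl, h0⟩ | ⟨h3, h4⟩
    · rw [L_floor h0]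
      exact lev_first hU hD (edge_l r.1.2).2 (start_lt_hi r.1.2)
    · rw [L_ceil h0]
      exact (lev_first hU hD (edge_l r.1.2).1 (start_lt_hi r.1.2)).trans (ver_l hC r.1.2).symm
    · rw [L_inn h3 h4]
      unfold inn
      rw [if_pos (by omega)]
  · -- last
    intro r b
    show C.L k H D false r b (un k H * hi C.I r.1.1) = C.lab (hi C.I r.1.1, r.1.1.2)
    rcases kinds r b with ⟨rfl, h0⟩ | ⟨rfl, h0⟩ | ⟨h3, h4⟩
    · rw [L_floor h0]
      exact lev_last hU hD
    · rw [L_ceil h0]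
      exact (lev_last hU hD).trans (ver_r hC r.1.2).symm
    · rw [L_inn h3 h4]
      have h6 := hinn _ r.1.2
      unfold inn
      rw [if_neg (by omega)]
  · -- left end of an opening
    intro l r b hl
    rcases att_cases hl with ⟨i, rfl, h1, h2⟩ | ⟨q, rfl, rfl, h0, h1⟩ | ⟨q, rfl, rfl, h0, h1⟩
    · show C.L k H D false r b (un k H * r.1.1.1 + D) = C.lab r.1.1
      rw [L_inn h1 h2]
      unfold inn
      rw [if_pos le_rfl]
    · obtain ⟨e1, e2, e3, e4⟩ := in_dn h1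
      show C.L k H D false r true (un k H * q.1.1 + D) = C.lab (q.1.1, q.1.2 + 1)
      rw [L_ceil h0, e1]
      exact lev_attl hU hD q.2 e1 e2 e3
    · obtain ⟨e1, e2, e3, e4⟩ := in_up h1
      show C.L k H D false r false (un k H * q.1.1 + D) = C.lab (q.1.1, q.1.2 + 1)
      rw [L_floor h0, e1, sub_add_cancel]
      exact lev_attl hU hD q.2 e1 e2 e3
  · -- right end of an opening
    intro l r b hl
    rcases att_cases hl with ⟨i, rfl, h1, h2⟩ | ⟨q, rfl, rfl, h0, h1⟩ | ⟨q, rfl, rfl, h0, h1⟩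
    · show C.L k H D true r b (un k H * hi C.I r.1.1 - D) = C.lab (hi C.I r.1.1, r.1.1.2)
      rw [L_inn h1 h2]
      have h6 := hinn _ r.1.2
      unfold inn
      rw [if_neg (by omega)]
    · obtain ⟨e1, e2, e3, e4⟩ := in_dn h1
      show C.L k H D true r true (un k H * hi C.J q.1 - D) = C.lab (hi C.J q.1, q.1.2 + 1)
      rw [L_ceil h0, e1]
      exact lev_attr hU hD (edge_l r.1.2).1 edge_r.1 q.2 e1 e2 e3
    · obtain ⟨e1, e2, e3, e4⟩ := in_up h1
      show C.L k H D true r false (un k H * hi C.J q.1 - D) = C.lab (hi C.J q.1, q.1.2 + 1)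
      rw [L_floor h0, e1, sub_add_cancel]
      exact lev_attr hU hD (edge_l r.1.2).2 edge_r.2 q.2 e1 e2 e3
  · -- low
    intro j
    rfl

end CDom
end Comb
end Full
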