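import Pool.Agent.Full.Comb.Ana

/-!
# FULL, combs: the crossing probability of the polygon from the dictionary on shapes
-/

set_option autoImplicit false

open Complex Set Filter Topology Metric H47Perc Function

namespace Full
namespace Fits

/-! ### monotonicity, bonds -/

lemma perc_half_eq (S : Finset (ℤ × ℤ)) (A : Finset (Sym2 (ℤ × ℤ)) → Prop) [DecidablePred A] :
    perc half S A = ∑ ω ∈ (edgesIn S).powerset.filter A, (1 / 2 : ℝ) ^ (edgesIn S).card := by
  classical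
  unfold perc
  refine Finset.sum_congr (by congr) fun ω hω => ?_
  have hsub : ω ⊆ edgesIn S := Finset.mem_powerset.1 (Finset.mem_filter.1 hω).1
  unfold half
  rw [Finset.prod_const, Finset.prod_const, show (1 - 1 / 2 : ℝ) = 1 / 2 by norm_num, ← pow_add,
    Finset.card_sdiff_of_subset hsub, Nat.add_sub_cancel' (Finset.card_le_card hsub)]

lemma perc_half_mono {S : Finset (ℤ × ℤ)} {A A' : Finset (Sym2 (ℤ × ℤ)) → Prop} (h : ∀ ω ⊆ edgesIn S, A ω → A' ω) :
    perc half S A ≤ perc half S A' := by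
  classical
  rw [perc_half_eq, perc_half_eq]
  refine Finset.sum_le_sum_of_subset_of_nonneg (fun ω hω => ?_) fun _ _ _ => by positivity
  rw [Finset.mem_filter] at hω ⊢
  exact ⟨hω.1, h ω (Finset.mem_powerset.1 hω.1) hω.2⟩

lemma exists_bond {u v : ℤ × ℤ} (h : lattice.Adj u v) : ∃ f, s(u, v) = bond f := by
  have key : ∀ a b : ℤ, s((a, b), (a + 1, b)) = bond (a - b, a + b) := by
    intro a b
    unfold bond cA cB pv
    have he : Even (a - b + (a + b)) := ⟨a, by ring⟩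
    rw [if_pos he, if_pos he]
    congr 2 <;> simp only <;> omega
  have key2 : ∀ a b : ℤ, s((a, b), (a, b + 1)) = bond (a - b - 1, a + b) := by
    intro a b
    unfold bond cA cB pv
    have he : ¬ Even (a - b - 1 + (a + b)) := by
      rw [Int.not_even_iff_odd]
      exact ⟨a - 1, by ring⟩
    rw [if_neg he, if_neg he]
    congr 2 <;> simp only <;> omega
  obtain ⟨a, b⟩ := u
  obtain ⟨a', b'⟩ := v
  rcases h with ⟨h1, h2⟩ | ⟨h1, h2⟩
  · simp only at h1 h2
    subst h1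
    rcases abs_eq (zero_le_one) |>.1 h2 with h3 | h3
    · obtain rfl : b = b' + 1 := by omega
      exact ⟨_, by rw [Sym2.eq_swap]; exact key2 a b'⟩
    · obtain rfl : b' = b + 1 := by omega
      exact ⟨_, key2 a b⟩
  · simp only at h1 h2
    subst h1
    rcases abs_eq (zero_le_one) |>.1 h2 with h3 | h3
    · obtain rfl : a = a' + 1 := by omega
      exact ⟨_, by rw [Sym2.eq_swap]; exact key a' b⟩
    · obtain rfl : a' = a + 1 := by omega
      exact ⟨_, key a b⟩

lemma bond_of_mem {S : Finset (ℤ × ℤ)} {ω : Finset (Sym2 (ℤ × ℤ))} (h : ω ⊆ edgesIn S) : ∀ e ∈ ω, ∃ f, e = bond f := by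
  classical
  intro e he
  have h1 := h he
  unfold edgesIn at h1
  rw [Finset.mem_filter] at h1
  have h2 := h1.2
  induction e using Sym2.ind with
  | _ u v =>
    rw [SimpleGraph.mem_edgeSet] at h2
    exact exists_bond h2

/-! ### labels of the boundary -/

section lab
variable {τ : Type*} {T : Finset τ} {g : Half τ → Half τ} {e : Fin 4 → Half τ} {lab : Half τ → Fin 4}

lemma bd_iter (hG : Glu T g) {x : Half τ} (hx : Bd T g x) (k : ℕ) : Bd T g ((next g)^[k] x) := by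
  induction k with
  | zero => exact hx
  | succ k ih => rw [iterate_succ_apply']; exact hG.next_bd ih

/-- the half edges with the label `a` are those after `e a` up to `e (a + 1)` -/
lemma lab_of_btw (hG : Glu T g) (h1 : ∀ x, Bd T g x → (∀ j, x ≠ e j) → lab (next g x) = lab x) (he : ∀ j, Bd T g (e j))
    (h2 : ∀ j, lab (e j) = j - 1 ∧ lab (next g (e j)) = j) {a : Fin 4} {x : Half τ}
    (hx : x ∈ btw g (e a) (e (a + 1)) ∨ x = e (a + 1)) : Bd T g x ∧ lab x = a := by
  rcases hx with ⟨k, hk, rfl, hi⟩ | rfl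
  · refine ⟨bd_iter hG (he a) k, ?_⟩
    induction k with
    | zero => exact absurd hk (lt_irrefl _)
    | succ k ih =>
      rcases Nat.eq_zero_or_pos k with rfl | hk0
      · exact (h2 a).2
      · have h3 := ih hk0 fun i hi0 hik => hi i hi0 (by omega)
        rw [iterate_succ_apply']
        by_cases h4 : ∃ j, (next g)^[k] (e a) = e j
        · obtain ⟨j, h4⟩ := h4
          exfalso
          rw [h4, (h2 j).1] at h3
          refine hi k hk0 (by omega) ?_
          rw [h4, ← h3, sub_add_cancel]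
        · push Not at h4
          rw [h1 _ (bd_iter hG (he a) k) h4, h3]
  · refine ⟨he _, ?_⟩
    rw [(h2 _).1, add_sub_cancel_right]

lemma btw_of_lab (hG : Glu T g) (h1 : ∀ x, Bd T g x → (∀ j, x ≠ e j) → lab (next g x) = lab x) (he : ∀ j, Bd T g (e j))
    (h2 : ∀ j, lab (e j) = j - 1 ∧ lab (next g (e j)) = j)
    (hc : ∀ x y, Bd T g x → Bd T g y → ∃ k, (next g)^[k] x = y) {a : Fin 4} {x : Half τ} (hx : Bd T g x)
    (hl : lab x = a) : x ∈ btw g (e a) (e (a + 1)) ∨ x = e (a + 1) := by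
  classical
  by_cases hx1 : x = e (a + 1)
  · exact Or.inr hx1
  left
  have hxa : x ≠ e a := by
    rintro rfl
    rw [(h2 a).1] at hl
    have : ∀ b : Fin 4, b - 1 ≠ b := by decide
    exact this a hl
  -- the first positive time
  have hex : ∃ k, 0 < k ∧ (next g)^[k] (e a) = x := by
    obtain ⟨k, hk⟩ := hc (e a) x (he a) hx
    refine ⟨k, Nat.pos_of_ne_zero ?_, hk⟩
    rintro rfl
    exact hxa hk.symm
  set k := Nat.find hex with hkdef
  obtain ⟨hk0, hk⟩ := Nat.find_spec hex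
  rw [← hkdef] at hk0 hk
  have hmin : ∀ i, 0 < i → i < k → (next g)^[i] (e a) ≠ x := fun i hi0 hik h => Nat.find_min hex hik ⟨hi0, h⟩
  -- no return to `e a`
  have hret : ∀ i, 0 < i → i < k → (next g)^[i] (e a) ≠ e a := by
    intro i hi0 hik h
    refine hmin (k - i) (by omega) (by omega) ?_
    have : (next g)^[k] (e a) = (next g)^[k - i] ((next g)^[i] (e a)) := by
      rw [← iterate_add_apply]
      congr 2
      omega
    rw [h, hk] at this
    exact this.symm
  refine ⟨k, hk0, hk, fun i hi0 hik h => ?_⟩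
  have hik' : i < k := by
    rcases hik.lt_or_eq with h3 | h3
    · exact h3
    · exfalso
      rw [h3, hk] at h
      exact hx1 h
  have key : ∀ l, i < l → l ≤ k → lab ((next g)^[l] (e a)) ≠ a := by
    intro l hl1
    induction l, hl1 using Nat.le_induction with
    | base =>
      intro _
      rw [iterate_succ_apply', h, (h2 _).2]
      have : ∀ b : Fin 4, b + 1 ≠ b := by decide
      exact this a
    | succ l hl1 ih =>
      intro hl2
      have h3 := ih (by omega)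
      rw [iterate_succ_apply']
      by_cases h4 : ∃ j, (next g)^[l] (e a) = e j
      · obtain ⟨j, h4⟩ := h4
        rw [h4, (h2 j).2]
        rintro rfl
        exact hret l (by omega) (by omega) h4
      · push Not at h4
        rw [h1 _ (bd_iter hG (he a) l) h4]
        exact h3
  exact key k hik' le_rfl (by rw [hk]; exact hl)

end lab

/-! ### corners -/

lemma plane_bd {T : Finset (ℤ × ℤ)} {t t' : ℤ × ℤ} {d : Dir} (hn : t' ∈ plane.nb d t) (ht : t ∈ T) (ht' : t' ∉ T) :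
    Bd T (plane.glue T) (t, d) := by
  refine ⟨ht, ?_⟩
  by_contra h
  obtain ⟨t'', h1, -, h3⟩ := Surf.glue_ne_iff.1 h
  rw [Option.mem_unique hn h1] at ht'
  exact ht' h3

/-- a boundary half edge with the tail `c` -/
def TailAt (T : Finset (ℤ × ℤ)) (c : ℤ × ℤ) : Prop :=
  ∃ x, Bd T (plane.glue T) x ∧ crn x = c ∧ (x.1.1 = c.1 ∨ x.1.1 = c.1 - 1) ∧ (x.1.2 = c.2 ∨ x.1.2 = c.2 - 1)

/-- a corner of a tile of the region and of a tile outside is the tail of a boundary half edge -/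
lemma tailAt_of_corner {T : Finset (ℤ × ℤ)} {c1 c2 t1 t2 u1 u2 : ℤ} (ht : (t1, t2) ∈ T) (hu : (u1, u2) ∉ T)
    (h1 : t1 = c1 ∨ t1 = c1 - 1) (h1' : t2 = c2 ∨ t2 = c2 - 1)
    (h2 : u1 = c1 ∨ u1 = c1 - 1) (h2' : u2 = c2 ∨ u2 = c2 - 1) : TailAt T (c1, c2) := by
  have sNE : (c1, c2) ∈ T → (c1, c2 - 1) ∉ T → TailAt T (c1, c2) :=
    fun h h' => ⟨((c1, c2), Dir.S), plane_bd (by rw [nb_plane]; simp [Dir.vec, sub_eq_add_neg]) h h', rfl, Or.inl rfl, Or.inl rfl⟩
  have sSE : (c1, c2 - 1) ∈ T → (c1 - 1, c2 - 1) ∉ T → TailAt T (c1, c2) :=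
    fun h h' => ⟨((c1, c2 - 1), Dir.W), plane_bd (by rw [nb_plane]; simp [Dir.vec, sub_eq_add_neg]) h h', by simp [crn], Or.inl rfl, Or.inr rfl⟩
  have sSW : (c1 - 1, c2 - 1) ∈ T → (c1 - 1, c2) ∉ T → TailAt T (c1, c2) :=
    fun h h' => ⟨((c1 - 1, c2 - 1), Dir.N), plane_bd (by rw [nb_plane]; simp [Dir.vec]) h h', by simp [crn], Or.inr rfl, Or.inr rfl⟩
  have sNW : (c1 - 1, c2) ∈ T → (c1, c2) ∉ T → TailAt T (c1, c2) :=
    fun h h' => ⟨((c1 - 1, c2), Dir.E), plane_bd (by rw [nb_plane]; simp [Dir.vec]) h h', by simp [crn], Or.inr rfl, Or.inl rfl⟩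
  generalize TailAt T (c1, c2) = P at *
  rcases h1 with rfl | rfl <;> rcases h1' with rfl | rfl <;> rcases h2 with rfl | rfl <;> rcases h2' with rfl | rfl <;> tauto

/-- geometric facts on the fine region of a shape -/
structure FitsT (B : Coarse) (S : Shape) (m : S.Marks) (U n : ℕ) (a : Shape.Sh S n) : Prop where
  sub : ∀ t ∈ S.T n a.s, ∀ i : ℤ, i = 0 ∨ i = 1 → B.Nb (cc (n * U) (t.1 + i, t.2))
  int : ∀ f, B.Int9 (cc (n * U) f) → ∀ i : ℤ, i = 0 ∨ i = 1 → (f.1 - i, f.2) ∈ S.T n a.s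
  cyc : ∀ x y, Bd (S.T n a.s) (plane.glue (S.T n a.s)) x → Bd (S.T n a.s) (plane.glue (S.T n a.s)) y →
    ∃ k, (next (plane.glue (S.T n a.s)))^[k] x = y
  lab : ∃ lab : Half (ℤ × ℤ) → Fin 4,
    (∀ x, Bd (S.T n a.s) (plane.glue (S.T n a.s)) x → (∀ j, x ≠ m.e n a.σ j) →
      lab (next (plane.glue (S.T n a.s)) x) = lab x) ∧
    (∀ j, Bd (S.T n a.s) (plane.glue (S.T n a.s)) (m.e n a.σ j)) ∧
    (∀ j, lab (m.e n a.σ j) = j - 1 ∧ lab (next (plane.glue (S.T n a.s)) (m.e n a.σ j)) = j) ∧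
    ∀ x, Bd (S.T n a.s) (plane.glue (S.T n a.s)) x → infDist (fp n x.1) (m.arc (lab x)) ≤ 1 / 2

section adm
variable {B : Coarse} {S : Shape} {m : S.Marks} {U n : ℕ} {a : Shape.Sh S n}

lemma crn_near (x : Half (ℤ × ℤ)) : ((crn x).1 = x.1.1 ∨ (crn x).1 = x.1.1 + 1) ∧
    ((crn x).2 = x.1.2 ∨ (crn x).2 = x.1.2 + 1) := by
  obtain ⟨⟨i, j⟩, d⟩ := x
  cases d <;> simp [crn]

/-- the boundary with the label `b` is near the arc `b` -/
lemma near_of_lab (h : Fits B S m U) (hn : 8 ≤ n) {lab : Half (ℤ × ℤ) → Fin 4} {x : Half (ℤ × ℤ)} {b : Fin 4}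
    (hl : infDist (fp n x.1) (m.arc (lab x)) ≤ 1 / 2) (hb : lab x = b) {i : ℤ} (hi : i = 0 ∨ i = 1) :
    ∃ i', B.On b i' ∧ ‖fp (n * U) ((crn x).1 + i, (crn x).2) - cp (B.v i')‖ ≤ 3 := by
  rw [hb] at hl
  have hne : (m.arc b).Nonempty := by
    obtain ⟨w, hw, -⟩ := h.arc' b _ (On_M B b)
    exact ⟨w, hw⟩
  obtain ⟨y, hy, hy2⟩ := (infDist_lt_iff hne).1 (lt_of_le_of_lt hl (show (1 / 2 : ℝ) < 6 / 10 by norm_num))
  obtain ⟨i', h1, h2⟩ := h.arc b y hy
  refine ⟨i', h1, ?_⟩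
  have hU : (1 : ℝ) ≤ U := by exact_mod_cast h.one
  have hU0 : (0 : ℝ) < U := by linarith
  have hUc : (U : ℂ) ≠ 0 := by exact_mod_cast hU0.ne'
  have hn8 : (8 : ℝ) ≤ n := by exact_mod_cast hn
  have hn0 : (0 : ℝ) < n := by linarith
  have hnU : 8 ≤ (n : ℝ) * U := by nlinarith
  have hnU0 : 0 < (n : ℝ) * U := by positivity
  have hc := crn_near x
  have e1 : ‖fp (n * U) ((crn x).1 + i, (crn x).2) - fp n x.1 / U‖ ≤ 2 / (n * U) + 1 / (n * U) := by
    refine Coarse.norm_sub_le_of ?_ ?_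
    · have : (fp (n * U) ((crn x).1 + i, (crn x).2)).re - (fp n x.1 / U).re = (((crn x).1 + i - x.1.1 : ℤ) : ℝ) / (n * U) := by
        rw [← Complex.ofReal_natCast U, Complex.div_ofReal_re]
        simp only [fp]
        push_cast
        field_simp
      rw [this, abs_div, abs_of_pos hnU0]
      gcongr
      rw [← Int.cast_abs]
      have : |(crn x).1 + i - x.1.1| ≤ 2 := by
        rw [abs_le]
        rcases hc.1 with h3 | h3 <;> rcases hi with rfl | rfl <;> constructor <;> omega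
      exact_mod_cast this
    · have : (fp (n * U) ((crn x).1 + i, (crn x).2)).im - (fp n x.1 / U).im = (((crn x).2 - x.1.2 : ℤ) : ℝ) / (n * U) := by
        rw [← Complex.ofReal_natCast U, Complex.div_ofReal_im]
        simp only [fp]
        push_cast
        field_simp
      rw [this, abs_div, abs_of_pos hnU0]
      gcongr
      rw [← Int.cast_abs]
      have : |(crn x).2 - x.1.2| ≤ 1 := by
        rw [abs_le]
        rcases hc.2 with h3 | h3 <;> constructor <;> omega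
      exact_mod_cast this
  have e2 : ‖fp n x.1 / U - y / U‖ ≤ 6 / 10 := by
    rw [← sub_div, norm_div, Complex.norm_natCast]
    rw [dist_eq_norm] at hy2
    rw [div_le_iff₀ hU0]
    nlinarith
  have e3 : 2 / ((n : ℝ) * U) + 1 / (n * U) ≤ 3 / 8 := by
    rw [← add_div, div_le_div_iff₀ hnU0 (by norm_num)]
    linarith
  have h2' : ‖y / (U : ℂ) - cp (B.v i')‖ ≤ 2 := by simpa using h2
  have e4 : fp (n * U) ((crn x).1 + i, (crn x).2) - cp (B.v i') =
      (fp (n * U) ((crn x).1 + i, (crn x).2) - fp n x.1 / U) + (fp n x.1 / U - y / U) + (y / U - cp (B.v i')) := by ring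
  rw [e4]
  have t1 := norm_add_le ((fp (n * U) ((crn x).1 + i, (crn x).2) - fp n x.1 / U) + (fp n x.1 / U - y / U)) (y / U - cp (B.v i'))
  have t2 := norm_add_le (fp (n * U) ((crn x).1 + i, (crn x).2) - fp n x.1 / U) (fp n x.1 / U - y / U)
  linarith

lemma tile_corner {f w : ℤ × ℤ} (h : w = cA f ∨ w = cB f) :
    (f.1 = w.1 ∨ f.1 = w.1 - 1) ∧ (f.2 = w.2 ∨ f.2 = w.2 - 1) ∧ Even (w.1 + w.2) := by
  rcases h with rfl | rfl
  · refine ⟨?_, Or.inl (cA_snd f).symm, even_cA f⟩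
    rcases cA_fst f with h | h
    · exact Or.inl h.symm
    · exact Or.inr (by omega)
  · refine ⟨?_, Or.inr (by rw [cB_snd]; ring), even_cB f⟩
    have h1 := cAB_fst f
    rcases cA_fst f with h | h
    · exact Or.inr (by omega)
    · exact Or.inl (by omega)

variable (B) in
/-- the left and the right wall -/
theorem adm (h : Fits B S m U) (hT : FitsT B S m U n a) (hn : 8 ≤ n) {i : ℤ} (hi : i = 0 ∨ i = 1) :
    B.Adm (n * U) {p | (p.1 - i, p.2) ∈ S.T n a.s}
      (evArc (plane.glue (S.T n a.s)) (m.e n a.σ 3) (m.e n a.σ 0) i)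
      (evArc (plane.glue (S.T n a.s)) (m.e n a.σ 1) (m.e n a.σ 2) i) := by
  obtain ⟨lab, l1, l2, l3, l4⟩ := hT.lab
  have hG : Glu (S.T n a.s) (plane.glue (S.T n a.s)) := Surf.glu _ _
  -- walls are near the arcs
  have hnear : ∀ b : Fin 4, ∀ w ∈ evArc (plane.glue (S.T n a.s)) (m.e n a.σ b) (m.e n a.σ (b + 1)) i,
      ∃ i', B.On b i' ∧ ‖fp (n * U) w - cp (B.v i')‖ ≤ 3 := by
    rintro b w ⟨-, x, hx, rfl⟩
    obtain ⟨g1, g2⟩ := lab_of_btw hG l1 l2 l3 hx
    exact near_of_lab h hn (l4 x g1) g2 hi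
  -- corners near the arc `b` only are in the wall
  have hmem : ∀ b : Fin 4, ∀ f ∈ {p : ℤ × ℤ | (p.1 - i, p.2) ∈ S.T n a.s}, ∀ f', f' ∉ {p : ℤ × ℤ | (p.1 - i, p.2) ∈ S.T n a.s} →
      ∀ w, (w = cA f ∨ w = cB f) → (w = cA f' ∨ w = cB f') →
      (∀ b', b' ≠ b → ∀ i', B.On b' i' → 10 ≤ ‖fp (n * U) w - cp (B.v i')‖) →
      w ∈ evArc (plane.glue (S.T n a.s)) (m.e n a.σ b) (m.e n a.σ (b + 1)) i := by
    intro b f hf f' hf' w hw hw' hfar
    obtain ⟨c1, c2, c3⟩ := tile_corner hw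
    obtain ⟨d1, d2, -⟩ := tile_corner hw'
    obtain ⟨x, x1, x2, -, -⟩ := tailAt_of_corner (c1 := w.1 - i) (c2 := w.2) hf hf' (by omega) (by omega) (by omega) (by omega)
    have hwx : w = ((crn x).1 + i, (crn x).2) := by
      rw [x2]
      ext
      · show w.1 = w.1 - i + i
        ring
      · rfl
    have hlx : lab x = b := by
      by_contra hne
      obtain ⟨i', g1, g2⟩ := near_of_lab h hn (l4 x x1) rfl hi
      rw [← hwx] at g2
      have := hfar _ hne i' g1
      linarith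
    exact ⟨c3, x, btw_of_lab hG l1 l2 l3 hT.cyc x1 hlx, hwx⟩
  refine ⟨fun f hf => ?_, fun f hf => hT.int f hf i hi, hnear 3, hnear 1, ?_, ?_⟩
  · have := hT.sub _ hf i hi
    simpa using this
  · intro f hf f' hf' w hw hw' hfar
    refine hmem 3 f hf f' hf' w hw hw' fun b' hb' i' hi' => hfar i' hi'.1 ?_
    fin_cases b'
    · exact Or.inl hi'
    · exact Or.inr (Or.inl hi')
    · exact Or.inr (Or.inr hi')
    · exact absurd rfl hb'
  · intro f hf f' hf' w hw hw' hfar
    refine hmem 1 f hf f' hf' w hw hw' fun b' hb' i' hi' => hfar i' hi'.1 ?_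
    fin_cases b'
    · exact Or.inl hi'
    · exact absurd rfl hb'
    · exact Or.inr (Or.inl hi')
    · exact Or.inr (Or.inr hi')

open Shape in
open Classical in
/-- bounds for all admissible shifts are bounds for the average -/
lemma p4_mul (m : S.Marks) (n : ℕ) (hw : ∃ (a : Sh S n) (w : _), IsW4 m n a w) :
    0 < (Finset.univ.filter fun a : Sh S n => ∃ w, IsW4 m n a w).card ∧
    (1 - p4 m n) * ((Finset.univ.filter fun a : Sh S n => ∃ w, IsW4 m n a w).card : ℝ) =
      ∑ a ∈ Finset.univ.filter (fun a : Sh S n => ∃ w, IsW4 m n a w), (1 - P4 m n a) := by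
  have hc : 0 < (Finset.univ.filter fun a : Sh S n => ∃ w, IsW4 m n a w).card := by
    obtain ⟨a, w, haw⟩ := hw
    exact Finset.card_pos.2 ⟨a, Finset.mem_filter.2 ⟨Finset.mem_univ _, w, haw⟩⟩
  refine ⟨hc, ?_⟩
  set c := (Finset.univ.filter fun a : Sh S n => ∃ w, IsW4 m n a w).card with hcdef
  have hc' : (0 : ℝ) < c := by exact_mod_cast hc
  have e : p4 m n = (∑ a ∈ Finset.univ.filter (fun a : Sh S n => ∃ w, IsW4 m n a w), P4 m n a) / c := by
    unfold p4 avSh
    rw [← Finset.sum_filter, ← Complex.ofReal_sum, ← Complex.ofReal_natCast, ← Complex.ofReal_div, Complex.ofReal_re]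
  rw [e, Finset.sum_sub_distrib, Finset.sum_const, nsmul_eq_mul, mul_one, sub_mul, one_mul, div_mul_cancel₀ _ hc'.ne']

open Shape in
/-- **the crossing probability** -/
theorem perc (h5 : S5) (h : Fits B S m U) (hn : 8 ≤ n) (hT : ∀ a, FitsT B S m U n a)
    (hw : ∃ (a : Sh S n) (w : _), IsW4 m n a w) : B.Perc 0 (n * U) (1 - p4 m n) := by
  classical
  obtain ⟨hc, hp⟩ := p4_mul m n hw
  have hc' : (0 : ℝ) < ((Finset.univ.filter fun a : Sh S n => ∃ w, IsW4 m n a w).card : ℝ) := by exact_mod_cast hc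
  have key : ∀ a : Sh S n, (∃ w, IsW4 m n a w) → ∀ V : Finset (ℤ × ℤ), B.Big (n * U) V → ∃ T VL VR, B.Adm (n * U) T VL VR ∧
      1 - P4 m n a = H47Perc.perc half V (CrossT T VL VR) := by
    intro a ha V hV
    obtain ⟨i, hi, hi2⟩ := h5 S h.ok m h.mok n hn a ha
    refine ⟨_, _, _, adm B h (hT a) hn hi, hi2 V fun t ht => ?_⟩
    exact hV _ ((hT a).sub t ht i hi)
  constructor
  · intro E hE V hV
    rw [add_zero, ← mul_le_mul_iff_of_pos_right hc', hp, mul_comm (H47Perc.perc half V E), ← nsmul_eq_mul, ← Finset.sum_const]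
    refine Finset.sum_le_sum fun a ha => ?_
    obtain ⟨T, VL, VR, h1, h2⟩ := key a (Finset.mem_filter.1 ha).2 V hV
    rw [h2]
    exact perc_half_mono fun ω hω hcr => hE T VL VR h1 ω (bond_of_mem hω) hcr
  · intro E hE V hV
    rw [add_zero, ← mul_le_mul_iff_of_pos_right hc', hp, mul_comm (H47Perc.perc half V E), ← nsmul_eq_mul, ← Finset.sum_const]
    refine Finset.sum_le_sum fun a ha => ?_
    obtain ⟨T, VL, VR, h1, h2⟩ := key a (Finset.mem_filter.1 ha).2 V hV
    rw [h2]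
    exact perc_half_mono fun ω hω hcr => hE T VL VR h1 ω (bond_of_mem hω) hcr

end adm

end Fits
end Full
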