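import Pool.Agent.Full.Comb.Contour
import Pool.Agent.Full.Comb.PercL

/-!
# FULL, combs: the lattice part of the end game from the statements on shapes

`Combs B`: for all `A`, `H` there is a shape which refines the polygon `B`, with `2 A + 2` rows per cell, rows of height
`H`, and dead ends of length `A H`.  `lat_of_combs`: then (S1), .., (S5) give `Lat`.
-/

set_option autoImplicit false

open Complex Set Filter Topology Metric H47Perc

namespace Full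
open Shape

/-- subdivisions of a coarse edge -/
def ucomb (A H : ℕ) : ℕ := (2 * A + 2) * (H + 1)

/-- a ladder of rows and bars for the rectangle `[x₁, x₂] × [y₁, y₂]` -/
def Ladder (S : Shape) (U A : ℝ) (x₁ x₂ y₁ y₂ : ℝ) (N : ℕ) (V : ℕ → ℝ) : Prop :=
  V 0 ≤ U * y₁ ∧ U * y₂ ≤ V N ∧ (∀ k < N, V k ≤ V (k + 1)) ∧
    ∀ k < N, V (k + 1) - V k ≤ 1 ∨ ∃ r : S.R, V k = S.yb (.inl r) ∧ V (k + 1) = S.yt (.inl r) ∧
      (S.xl (.inl r) + A * (S.yt (.inl r) - S.yb (.inl r)) ≤ U * x₁) ∧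
      U * x₂ ≤ S.xr (.inl r) - A * (S.yt (.inl r) - S.yb (.inl r))

/-- the comb shapes of a polygon -/
def Combs (B : Coarse) : Prop := ∃ q : ℝ, 0 ≤ q ∧ ∀ A H : ℕ, 1 ≤ A → 1 ≤ H → ∃ (S : Shape) (m : S.Marks),
  Fits B S m (ucomb A H : ℕ) ∧ S.Chan m A ∧ (Fintype.card S.R : ℝ) ≤ q * (2 * A + 2) ∧
  (∀ x₁ x₂ y₁ y₂ : ℝ, x₁ < x₂ → y₁ < y₂ → (∀ z ∈ Icc x₁ x₂ ×ℂ Icc y₁ y₂, B.Deep z 9) →
    ∃ (N : ℕ) (V : ℕ → ℝ), (N : ℝ) ≤ q * (2 * A + 2) ∧ Ladder S (ucomb A H : ℕ) A x₁ x₂ y₁ y₂ N V) ∧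
  (∀ n, 8 ≤ n → ∀ a, Fits.FitsT B S m (ucomb A H) n a) ∧ ∀ n, 8 ≤ n → ∃ (a : Sh S n) (w : _), IsW4 m n a w

/-- choice of the length of the dead ends -/
lemma exists_A (C q c η : ℝ) (hc : 0 < c) (hη : 0 < η) :
    ∃ A : ℕ, 1 ≤ A ∧ q * (2 * A + 2) * (C * (q * (2 * A + 2)) * Real.exp (-(c * A))) < η := by
  have h1 : Tendsto (fun A : ℕ => q * (2 * A + 2) * (C * (q * (2 * A + 2)) * Real.exp (-(c * A)))) atTop (𝓝 0) := by
    have h2 : ∀ k : ℕ, Tendsto (fun x : ℝ => x ^ k * Real.exp (-(c * x))) atTop (𝓝 0) := by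
      intro k
      have h3 := (Real.tendsto_pow_mul_exp_neg_atTop_nhds_zero k).comp (tendsto_id.const_mul_atTop hc)
      have h4 := h3.const_mul (1 / c ^ k)
      rw [mul_zero] at h4
      refine h4.congr fun x => ?_
      simp only [Function.comp, id]
      rw [mul_pow]
      field_simp
    have h5 : Tendsto (fun x : ℝ => q * q * C * 4 * (x ^ 2 * Real.exp (-(c * x)) + 2 * (x ^ 1 * Real.exp (-(c * x))) +
        x ^ 0 * Real.exp (-(c * x)))) atTop (𝓝 (q * q * C * 4 * (0 + 2 * 0 + 0))) :=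
      (((h2 2).add ((h2 1).const_mul 2)).add (h2 0)).const_mul _
    simp only [mul_zero, add_zero] at h5
    refine (h5.comp tendsto_natCast_atTop_atTop).congr fun A => ?_
    simp only [Function.comp]
    ring
  obtain ⟨A, hA⟩ := ((h1.eventually (gt_mem_nhds hη)).and (eventually_ge_atTop 1)).exists
  exact ⟨A, hA.2, hA.1⟩

/-- choice of the height of the rows -/
lemma exists_H (A : ℕ) (C q c η : ℝ) (hc : 0 < c) (hη : 0 < η) :
    ∃ H : ℕ, 1 ≤ H ∧ q * (2 * A + 2) * (1 / (ucomb A H : ℕ) + C * (1 / ((ucomb A H : ℕ) * 4 : ℝ)) ^ c) < η := by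
  have h0 : Tendsto (fun H : ℕ => ((ucomb A H : ℕ) : ℝ)) atTop atTop := by
    have : Tendsto (fun H : ℕ => (2 * A + 2 : ℝ) * ((H : ℝ) + 1)) atTop atTop :=
      (tendsto_natCast_atTop_atTop.atTop_add tendsto_const_nhds).const_mul_atTop (by positivity)
    refine this.congr fun H => ?_
    unfold ucomb
    push_cast
    ring
  have h1 : Tendsto (fun H : ℕ => 1 / ((ucomb A H : ℕ) : ℝ)) atTop (𝓝 0) := tendsto_const_nhds.div_atTop h0
  have h2 : Tendsto (fun H : ℕ => (1 / (((ucomb A H : ℕ) : ℝ) * 4)) ^ c) atTop (𝓝 (0 ^ c)) :=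
    (tendsto_const_nhds.div_atTop (h0.atTop_mul_const (by norm_num))).rpow_const (Or.inr hc.le)
  rw [Real.zero_rpow hc.ne'] at h2
  have h3 : Tendsto (fun H : ℕ => q * (2 * A + 2) * (1 / ((ucomb A H : ℕ) : ℝ) + C * (1 / (((ucomb A H : ℕ) : ℝ) * 4)) ^ c)) atTop
      (𝓝 (q * (2 * A + 2) * (0 + C * 0))) := (h1.add (h2.const_mul C)).const_mul _
  rw [mul_zero, add_zero, mul_zero] at h3
  obtain ⟨H, hH⟩ := ((h3.eventually (gt_mem_nhds hη)).and (eventually_ge_atTop 1)).exists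
  exact ⟨H, hH.2, hH.1⟩

/-- **the lattice part of the end game** -/
theorem lat_of_combs (h1 : S1) (h2 : S2) (h3a : S3a) (h3b : S3b) (h4 : S4) (h5 : S5) (hcomb : ∀ B, Combs B) : Lat := by
  obtain ⟨C, c, hC, hc, hB⟩ := exists_bounds h2 h3a h3b h4
  obtain ⟨C₀, C', c', hC₀, hC', hc', hslab⟩ := slabsOK_of_shape h1 h2
  refine ⟨C, c, hC, hc, fun B η hη => ?_⟩
  obtain ⟨q, hq, hco⟩ := hcomb B
  -- the size of the polygon
  obtain ⟨K, hK⟩ : ∃ K : ℝ, ∀ z, B.In (cell z) → ∀ i ≤ B.n, ‖z - cp (B.v i)‖ ≤ K := by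
    obtain ⟨S, m, hf, -⟩ := hco 1 1 le_rfl le_rfl
    exact hf.bdd
  have hη1 : 0 < η / (4 * (4 * |K| + 4)) := by positivity
  set η₁ := η / (4 * (4 * |K| + 4)) with hη₁
  obtain ⟨A, hA1, hA2⟩ := exists_A C' q c' (η₁ / 2) hc' (by linarith)
  obtain ⟨H, hH1, hH2⟩ := exists_H A C' q c' (η₁ / 2) hc' (by linarith)
  obtain ⟨S, m, hfit, hchan, hcard, hlad, hfitT, hwall⟩ := hco A H hA1 hH1
  set U := ucomb A H with hU
  have hU1 : 1 ≤ U := Nat.mul_pos (by omega) (by omega)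
  have hU1' : (1 : ℝ) ≤ U := by exact_mod_cast hU1
  have hU0 : (0 : ℝ) < U := by linarith
  have hcast : ((U : ℝ) : ℂ) = (U : ℂ) := by norm_cast
  refine ⟨U, fun n z => F m n (U * z), fun n => 1 - p4 m n, hU1, ?_, ?_, ?_⟩
  · intro ε hε
    have := hB B S m U hfit ε hε
    simpa only [hcast] using this
  · filter_upwards [eventually_ge_atTop 8] with n hn
    have := Fits.perc h5 hfit hn (hfitT n hn) (hwall n hn)
    refine ⟨fun E hE V hV => ?_, fun E hE V hV => ?_⟩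
    · have := this.lo E hE V hV
      linarith
    · have := this.hi E hE V hV
      linarith
  · intro x₁ x₂ y₁ y₂ hx hy hz
    have hz9 : ∀ z ∈ Icc x₁ (x₂ + 1) ×ℂ Icc y₁ y₂, B.Deep z 9 := fun z hz' => Fits.deep9 hx hz hz'
    obtain ⟨N, V, hN, V0, Vn, Vmono, hV⟩ := hlad x₁ (x₂ + 1) y₁ y₂ (by linarith) hy hz9
    have hA1' : (1 : ℝ) ≤ A := by exact_mod_cast hA1
    have hs := hslab S hfit.ok m hfit.mok A hA1' hchan U (U * 4) hU0 (by linarith) (ι := ℕ) (l := atTop) (ν := fun n => n)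
      tendsto_id x₁ (x₂ + 1) y₁ y₂ hy.le (by
        intro z hz'
        have e : z = ((U : ℝ) : ℂ) * (z / (U : ℝ)) := by
          rw [mul_div_cancel₀]
          exact_mod_cast hU0.ne'
        have hzU : z / ((U : ℝ) : ℂ) ∈ Icc x₁ (x₂ + 1) ×ℂ Icc y₁ y₂ := by
          rw [mem_reProdIm] at hz' ⊢
          rw [Complex.div_ofReal_re, Complex.div_ofReal_im]
          refine ⟨⟨?_, ?_⟩, ?_, ?_⟩
          · rw [le_div_iff₀ hU0, mul_comm]; exact hz'.1.1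
          · rw [div_le_iff₀ hU0, mul_comm]; exact hz'.1.2
          · rw [le_div_iff₀ hU0, mul_comm]; exact hz'.2.1
          · rw [div_le_iff₀ hU0, mul_comm]; exact hz'.2.2
        rw [e]
        exact hfit.closedBall_sub (hz9 _ hzU) (by norm_num))
      N V V0 Vn Vmono hV η₁ (by
        have hA0 : (0 : ℝ) ≤ q * (2 * A + 2) := by positivity
        have t1 : 0 ≤ 1 / (U : ℝ) + C' * (1 / (U * 4 : ℝ)) ^ c' := by positivity
        have t2 : C' * Fintype.card S.R * Real.exp (-(c' * A)) ≤ C' * (q * (2 * A + 2)) * Real.exp (-(c' * A)) := by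
          gcongr
        have t3 : 0 ≤ C' * (q * (2 * A + 2)) * Real.exp (-(c' * A)) := by positivity
        calc (N : ℝ) * (1 / (U : ℝ) + C' * (1 / (U * 4 : ℝ)) ^ c' + C' * Fintype.card S.R * Real.exp (-(c' * A)))
            ≤ N * (1 / (U : ℝ) + C' * (1 / (U * 4 : ℝ)) ^ c' + C' * (q * (2 * A + 2)) * Real.exp (-(c' * A))) := by gcongr
          _ ≤ q * (2 * A + 2) * (1 / (U : ℝ) + C' * (1 / (U * 4 : ℝ)) ^ c' + C' * (q * (2 * A + 2)) * Real.exp (-(c' * A))) := by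
              gcongr
          _ < η₁ := by rw [mul_add]; linarith)
    have hcont := hfit.contour h2 hx hy hz hC₀ hs (η' := η / 2) (by linarith)
    filter_upwards [hcont] with n hn
    have e1 : (1 : ℝ) / ((n * U : ℕ) : ℝ) = 1 / (U * n) := by push_cast; ring
    rw [e1]
    simp only [hcast] at hn
    refine hn.trans ?_
    -- the size of the rectangle
    have hsz : (x₂ - x₁) + (y₂ - y₁) ≤ 4 * |K| := by
      have m1 := hz ⟨x₁, y₁⟩ (by rw [mem_reProdIm]; exact ⟨⟨le_rfl, hx.le⟩, le_rfl, hy.le⟩)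
      have m2 := hz ⟨x₂, y₂⟩ (by rw [mem_reProdIm]; exact ⟨⟨hx.le, le_rfl⟩, hy.le, le_rfl⟩)
      have k1 := hK _ m1.1 0 (Nat.zero_le _)
      have k2 := hK _ m2.1 0 (Nat.zero_le _)
      have k3 : ‖(⟨x₂, y₂⟩ : ℂ) - ⟨x₁, y₁⟩‖ ≤ 2 * K := by
        have e : (⟨x₂, y₂⟩ : ℂ) - ⟨x₁, y₁⟩ = ((⟨x₂, y₂⟩ : ℂ) - cp (B.v 0)) - ((⟨x₁, y₁⟩ : ℂ) - cp (B.v 0)) := by ring
        rw [e]
        exact (norm_sub_le _ _).trans (by linarith)
      have k4 := Complex.abs_re_le_norm ((⟨x₂, y₂⟩ : ℂ) - ⟨x₁, y₁⟩)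
      have k5 := Complex.abs_im_le_norm ((⟨x₂, y₂⟩ : ℂ) - ⟨x₁, y₁⟩)
      simp only [sub_re, sub_im] at k4 k5
      have k6 := le_abs_self (x₂ - x₁)
      have k7 := le_abs_self (y₂ - y₁)
      have k8 := le_abs_self K
      linarith
    have h9 : 2 * ((x₂ - x₁) + (y₂ - y₁) + 3) * η₁ ≤ 2 * (4 * |K| + 4) * η₁ := by
      have : 0 ≤ η₁ := hη1.le
      gcongr
      linarith
    have h10 : 2 * (4 * |K| + 4) * η₁ = η / 2 := by
      rw [hη₁]
      have : 0 ≤ |K| := abs_nonneg K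
      field_simp
      ring
    linarith

end Full
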