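import Pool.Agent.Full.Comb.Def

/-!
# FULL, combs: labels along the floors and the ceilings

`C.lev U D t x₀ x₁ jy ly x` is the label of the left (`t = true`) or right (`t = false`) half of the cell `x` of a
horizontal wall between two strips, `[x₀, x₁]` the run of coarse cells, `jy` the row of `J` (`y - 1` for a floor,
`y` for a ceiling), `ly` the height of the vertices (`y` or `y + 1`).
-/

set_option autoImplicit false

namespace Full
namespace Comb

lemma div_eq {U x c : ℤ} (h1 : U * c ≤ x) (h2 : x < U * c + U) : x / U = c := by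
  have hU : 0 < U := by linarith
  refine le_antisymm ?_ ((Int.le_ediv_iff_mul_le hU).2 (by linarith))
  exact Int.lt_add_one_iff.1 (Int.ediv_lt_of_lt_mul hU (by linarith))

lemma div_spec {U x : ℤ} (hU : 0 < U) : U * (x / U) ≤ x ∧ x < U * (x / U) + U := by
  have h1 := Int.mul_ediv_add_emod x U
  have h2 := Int.emod_nonneg x hU.ne'
  have h3 := Int.emod_lt_of_pos x hU
  constructor <;> linarith

lemma half_spec {U D : ℤ} (hU : 2 * D + 2 ≤ U) : D + 1 ≤ U / 2 ∧ U / 2 + D + 1 ≤ U := by omega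

lemma mul_step {U a b : ℤ} (hU : 0 ≤ U) (h : a < b) : U * a + U ≤ U * b := by
  have h1 : U * (a + 1) ≤ U * b := mul_le_mul_of_nonneg_left (by omega) hU
  linarith

lemma mul_mono {U a b : ℤ} (hU : 0 ≤ U) (h : a ≤ b) : U * a ≤ U * b := mul_le_mul_of_nonneg_left h hU

lemma lt_of_mul {U a b : ℤ} (hU : 0 ≤ U) (h : U * a < U * b) : a < b := by
  by_contra h1
  have := mul_mono hU (not_lt.1 h1)
  omega

namespace CDom
variable (C : CDom)

open Classical in
/-- labels along a level -/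
noncomputable def lev (U D : ℤ) (t : Bool) (x₀ x₁ jy ly x : ℤ) : Fin 4 :=
  if x₀ ≤ x / U ∧ x / U < x₁ then
    if (x / U, jy) ∈ C.J then
      if x ≤ U * lo C.J (x / U, jy) + D then C.lab (lo C.J (x / U, jy), ly) else C.lab (hi C.J (x / U, jy), ly)
    else if x < U * (x / U) + U / 2 ∨ (t = true ∧ x = U * (x / U) + U / 2) then C.lab (x / U, ly)
    else C.lab (x / U + 1, ly)
  else C.lab (x₁, ly)

variable {C} {U D : ℤ} {t : Bool} {x₀ x₁ jy ly x c : ℤ}

lemma lev_left (h1 : U * c ≤ x) (h2 : x < U * c + U) (h3 : x₀ ≤ c) (h4 : c < x₁) (h5 : (c, jy) ∈ C.J)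
    (h6 : x ≤ U * lo C.J (c, jy) + D) : C.lev U D t x₀ x₁ jy ly x = C.lab (lo C.J (c, jy), ly) := by
  unfold lev
  rw [div_eq h1 h2, if_pos ⟨h3, h4⟩, if_pos h5, if_pos h6]

lemma lev_right (h1 : U * c ≤ x) (h2 : x < U * c + U) (h3 : x₀ ≤ c) (h4 : c < x₁) (h5 : (c, jy) ∈ C.J)
    (h6 : U * lo C.J (c, jy) + D < x) : C.lev U D t x₀ x₁ jy ly x = C.lab (hi C.J (c, jy), ly) := by
  unfold lev
  rw [div_eq h1 h2, if_pos ⟨h3, h4⟩, if_pos h5, if_neg (not_le.2 h6)]

lemma lev_fst' (h1 : U * c ≤ x) (h2 : x < U * c + U) (h3 : x₀ ≤ c) (h4 : c < x₁) (h5 : (c, jy) ∉ C.J)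
    (h6 : x < U * c + U / 2 ∨ (t = true ∧ x = U * c + U / 2)) :
    C.lev U D t x₀ x₁ jy ly x = C.lab (c, ly) := by
  unfold lev
  rw [div_eq h1 h2, if_pos ⟨h3, h4⟩, if_neg h5, if_pos h6]

lemma lev_snd (h1 : U * c ≤ x) (h2 : x < U * c + U) (h3 : x₀ ≤ c) (h4 : c < x₁) (h5 : (c, jy) ∉ C.J)
    (h6 : ¬ (x < U * c + U / 2 ∨ (t = true ∧ x = U * c + U / 2))) :
    C.lev U D t x₀ x₁ jy ly x = C.lab (c + 1, ly) := by
  unfold lev
  rw [div_eq h1 h2, if_pos ⟨h3, h4⟩, if_neg h5, if_neg h6]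

lemma lev_out (h1 : U * c ≤ x) (h2 : x < U * c + U) (h3 : ¬ (x₀ ≤ c ∧ c < x₁)) :
    C.lev U D t x₀ x₁ jy ly x = C.lab (x₁, ly) := by
  unfold lev
  rw [div_eq h1 h2, if_neg h3]

/-- ends of a run of `J` which meets `[x₀, x₁)` -/
lemma run_in (hl : (x₀ - 1, jy) ∉ C.J) (hr : (x₁, jy) ∉ C.J) (h3 : x₀ ≤ c) (h4 : c < x₁) :
    x₀ ≤ lo C.J (c, jy) ∧ hi C.J (c, jy) ≤ x₁ := by
  constructor
  · by_contra h
    exact hl (mem_of_lo (A := C.J) (p := (c, jy)) (x := x₀ - 1) (by omega) (by show x₀ - 1 ≤ c; omega))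
  · by_contra h
    exact hr (mem_of_hi (A := C.J) (p := (c, jy)) (x := x₁) (by show c ≤ x₁; omega) (by omega))

lemma hi_succ (h5 : (c, jy) ∈ C.J) (h6 : (c + 1, jy) ∉ C.J) : hi C.J (c, jy) = c + 1 :=
  hi_eq (p := (c, jy)) h6 (by show c ≤ c + 1; omega) fun y h1 h2 => by
    have h1' : c ≤ y := h1
    have : y = c := by omega
    rw [this]; exact h5

lemma lo_self (h5 : (c, jy) ∈ C.J) (h6 : (c - 1, jy) ∉ C.J) : lo C.J (c, jy) = c :=
  lo_eq (p := (c, jy)) h6 (by show c ≤ c + 1; omega) fun y h1 h2 => by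
    have h2' : y ≤ c := h2
    have : y = c := by omega
    rw [this]; exact h5

/-- neighbouring cells have the same label -/
lemma lev_step (hU : 2 * D + 2 ≤ U) (hD : 1 ≤ D) (h1 : U * x₀ ≤ x) (h2 : x < U * x₁)
    (hop : (x / U, jy) ∈ C.J → x < U * lo C.J (x / U, jy) + D ∨ U * hi C.J (x / U, jy) - D ≤ x) :
    C.lev U D true x₀ x₁ jy ly (x + 1) = C.lev U D false x₀ x₁ jy ly x := by
  have hU0 : 0 < U := by omega
  obtain ⟨hh1, hh2⟩ := half_spec hU
  obtain ⟨hc1, hc2⟩ := div_spec (x := x) hU0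
  set c := x / U with hc
  have h3 : x₀ ≤ c := by
    by_contra h
    have := mul_step hU0.le (not_le.1 h)
    omega
  have h4 : c < x₁ := lt_of_mul hU0.le (lt_of_le_of_lt hc1 h2)
  by_cases hs : x + 1 < U * c + U
  · by_cases hJ : (c, jy) ∈ C.J
    · have h5 := lo_le hJ
      have h6 := lt_hi hJ
      have h7 : U * lo C.J (c, jy) + U ≤ U * hi C.J (c, jy) := mul_step hU0.le (lo_lt_hi hJ)
      rcases hop hJ with h8 | h8
      · rw [lev_left (c := c) (by omega) hs h3 h4 hJ (by omega), lev_left hc1 hc2 h3 h4 hJ h8.le]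
      · rw [lev_right (c := c) (by omega) hs h3 h4 hJ (by omega), lev_right hc1 hc2 h3 h4 hJ (by omega)]
    · by_cases h5 : x < U * c + U / 2
      · rw [lev_fst' (c := c) (by omega) hs h3 h4 hJ, lev_fst' hc1 hc2 h3 h4 hJ (Or.inl h5)]
        rcases lt_or_eq_of_le (Int.add_one_le_iff.2 h5) with h6 | h6
        · exact Or.inl h6
        · exact Or.inr ⟨rfl, h6⟩
      · rw [lev_snd (c := c) (by omega) hs h3 h4 hJ, lev_snd hc1 hc2 h3 h4 hJ]
        · rintro (h6 | ⟨h6, -⟩)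
          · exact h5 h6
          · exact Bool.false_ne_true h6
        · rintro (h6 | ⟨-, h6⟩) <;> omega
  · have hx : x + 1 = U * (c + 1) := by rw [mul_add, mul_one]; omega
    have e1 : U * (c + 1) ≤ x + 1 := hx.ge
    have e2 : x + 1 < U * (c + 1) + U := by omega
    have hx' : x + 1 = U * c + U := by omega
    -- the value on the right side
    have hR : C.lev U D false x₀ x₁ jy ly x = C.lab (c + 1, ly) := by
      by_cases hJ : (c, jy) ∈ C.J
      · have h5 : lo C.J (c, jy) ≤ c := lo_le hJ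
        have h5' := mul_mono hU0.le h5
        have h6 : c < hi C.J (c, jy) := lt_hi hJ
        have h7 : (c + 1, jy) ∉ C.J := by
          intro h7
          have h8 : c + 1 < hi C.J (c, jy) := by
            rcases lt_or_eq_of_le (Int.add_one_le_iff.2 h6) with h8 | h8
            · exact h8
            · exact absurd h7 (by rw [h8]; exact hi_not (A := C.J) (p := (c, jy)))
          have h9 := mul_step hU0.le h8
          have h10 : U * (c + 1) = U * c + U := by ring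
          rcases hop hJ with h11 | h11 <;> omega
        rw [lev_right hc1 hc2 h3 h4 hJ (by omega), hi_succ hJ h7]
      · rw [lev_snd hc1 hc2 h3 h4 hJ]
        rintro (h6 | ⟨h6, -⟩)
        · omega
        · exact Bool.false_ne_true h6
    rw [hR]
    by_cases h5 : c + 1 < x₁
    · by_cases hJ' : (c + 1, jy) ∈ C.J
      · have h6 : (c, jy) ∉ C.J := by
          intro hJ
          have h6 : c < hi C.J (c, jy) := lt_hi hJ
          have h5 : lo C.J (c, jy) ≤ c := lo_le hJ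
          have h5' := mul_mono hU0.le h5
          have h8 : c + 1 < hi C.J (c, jy) := by
            rcases lt_or_eq_of_le (Int.add_one_le_iff.2 h6) with h8 | h8
            · exact h8
            · exact absurd hJ' (by rw [h8]; exact hi_not (A := C.J) (p := (c, jy)))
          have h9 := mul_step hU0.le h8
          have h10 : U * (c + 1) = U * c + U := by ring
          rcases hop hJ with h11 | h11 <;> omega
        have h7 : lo C.J (c + 1, jy) = c + 1 := lo_self hJ' (by rw [add_sub_cancel_right]; exact h6)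
        rw [lev_left e1 e2 (by omega) h5 hJ' (by rw [h7]; omega), h7]
      · rw [lev_fst' e1 e2 (by omega) h5 hJ' (Or.inl (by omega))]
    · have h6 : c + 1 = x₁ := by omega
      rw [lev_out e1 e2 (by omega), h6]

/-- the label at the left end -/
lemma lev_first (hU : 2 * D + 2 ≤ U) (hD : 1 ≤ D) (hl : (x₀ - 1, jy) ∉ C.J) (h : x₀ < x₁) :
    C.lev U D t x₀ x₁ jy ly (U * x₀) = C.lab (x₀, ly) := by
  obtain ⟨hh1, hh2⟩ := half_spec hU
  by_cases hJ : (x₀, jy) ∈ C.J
  · have h7 : lo C.J (x₀, jy) = x₀ := lo_self hJ hl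
    rw [lev_left le_rfl (by omega) le_rfl h hJ (by rw [h7]; omega), h7]
  · rw [lev_fst' le_rfl (by omega) le_rfl h hJ (Or.inl (by omega))]

/-- the label at the right end -/
lemma lev_last (hU : 2 * D + 2 ≤ U) (hD : 1 ≤ D) : C.lev U D t x₀ x₁ jy ly (U * x₁) = C.lab (x₁, ly) :=
  lev_out (c := x₁) le_rfl (by omega) (by omega)

/-- the label at the left end of an opening -/
lemma lev_attl (hU : 2 * D + 2 ≤ U) (hD : 1 ≤ D) {q : ℤ × ℤ} (hq : q ∈ starts C.J) (hqy : q.2 = jy)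
    (h3 : x₀ ≤ q.1) (h4 : q.1 < x₁) : C.lev U D t x₀ x₁ jy ly (U * q.1 + D) = C.lab (q.1, ly) := by
  obtain ⟨hh1, hh2⟩ := half_spec hU
  have hq' : (q.1, jy) ∈ C.J := by rw [← hqy]; exact (mem_starts.1 hq).1
  have h7 : lo C.J (q.1, jy) = q.1 := by rw [← hqy]; exact lo_start hq
  rw [lev_left (c := q.1) (by omega) (by omega) h3 h4 hq' (by rw [h7]), h7]

/-- the label at the right end of an opening -/
lemma lev_attr (hU : 2 * D + 2 ≤ U) (hD : 1 ≤ D) (hl : (x₀ - 1, jy) ∉ C.J) (hr : (x₁, jy) ∉ C.J) {q : ℤ × ℤ}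
    (hq : q ∈ starts C.J) (hqy : q.2 = jy) (h3 : x₀ ≤ q.1) (h4 : q.1 < x₁) :
    C.lev U D t x₀ x₁ jy ly (U * hi C.J q - D) = C.lab (hi C.J q, ly) := by
  obtain ⟨hh1, hh2⟩ := half_spec hU
  have e : q = (q.1, jy) := Prod.ext rfl hqy
  have hq' : (q.1, jy) ∈ C.J := by rw [← hqy]; exact (mem_starts.1 hq).1
  have h5 : q.1 < hi C.J q := start_lt_hi hq
  have h6 : hi C.J q ≤ x₁ := by
    have := (run_in hl hr h3 h4).2
    rwa [← e] at this
  have h7 : lo C.J q = q.1 := lo_start hq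
  have h8 : (hi C.J q - 1, jy) ∈ C.J := by
    rw [← hqy]
    exact mem_run_start hq (by omega) (by omega)
  have h9 : lo C.J (hi C.J q - 1, jy) = q.1 := by
    have := lo_congr (A := C.J) (p := q) (x := hi C.J q - 1) (by omega) (by omega)
    rw [hqy] at this
    rw [this, h7]
  have h10 : hi C.J (hi C.J q - 1, jy) = hi C.J q := by
    have := hi_congr (A := C.J) (p := q) (x := hi C.J q - 1) (by omega) (by omega)
    rwa [hqy] at this
  have h11 : U * (hi C.J q - 1) = U * hi C.J q - U := by ring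
  have h12 := mul_step (U := U) (by omega) h5
  rw [lev_right (c := hi C.J q - 1) (by omega) (by omega) (by omega) (by omega) h8 (by rw [h9]; omega), h10]

/-- the two halves of a cell without a mark have the same label -/
lemma lev_same (hU : 0 < U) (h : ∀ c, x₀ ≤ c → c < x₁ → (c, jy) ∉ C.J → x = U * c + U / 2 →
    C.lab (c, ly) = C.lab (c + 1, ly)) : C.lev U D true x₀ x₁ jy ly x = C.lev U D false x₀ x₁ jy ly x := by
  obtain ⟨hc1, hc2⟩ := div_spec (x := x) hU
  set c := x / U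
  by_cases h3 : x₀ ≤ c ∧ c < x₁
  · by_cases hJ : (c, jy) ∈ C.J
    · by_cases h6 : x ≤ U * lo C.J (c, jy) + D
      · rw [lev_left hc1 hc2 h3.1 h3.2 hJ h6, lev_left hc1 hc2 h3.1 h3.2 hJ h6]
      · rw [lev_right hc1 hc2 h3.1 h3.2 hJ (not_le.1 h6), lev_right hc1 hc2 h3.1 h3.2 hJ (not_le.1 h6)]
    · rcases lt_trichotomy x (U * c + U / 2) with h6 | h6 | h6
      · rw [lev_fst' hc1 hc2 h3.1 h3.2 hJ (Or.inl h6), lev_fst' hc1 hc2 h3.1 h3.2 hJ (Or.inl h6)]
      · rw [lev_fst' hc1 hc2 h3.1 h3.2 hJ (Or.inr ⟨rfl, h6⟩), lev_snd hc1 hc2 h3.1 h3.2 hJ]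
        · exact h c h3.1 h3.2 hJ h6
        · rintro (h7 | ⟨h7, -⟩)
          · omega
          · exact Bool.false_ne_true h7
      · rw [lev_snd hc1 hc2 h3.1 h3.2 hJ, lev_snd hc1 hc2 h3.1 h3.2 hJ]
        · rintro (h7 | ⟨-, h7⟩) <;> omega
        · rintro (h7 | ⟨-, h7⟩) <;> omega
  · rw [lev_out hc1 hc2 h3, lev_out hc1 hc2 h3]

end CDom
end Comb
end Full
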