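import Pool.Agent.Full.Comb.Def

/-!
# FULL, combs: the comb shape is admissible
-/

set_option autoImplicit false

namespace Full
namespace Comb
open Relation

/-! ### arithmetic of the levels -/

lemma un_pos (k H : ℕ) : 0 < un k H := by
  unfold un
  positivity

lemma un_eq (k H : ℕ) (y i : ℤ) : un k H * y + i * (H + 1) = (H + 1) * ((k + 1) * y + i) := by
  unfold un
  ring

lemma lev_inj {k : ℕ} {y y' i i' : ℤ} (h1 : 0 ≤ i) (h2 : i ≤ k) (h3 : 0 ≤ i') (h4 : i' ≤ k)
    (h : (k + 1 : ℤ) * y + i = (k + 1) * y' + i') : y = y' ∧ i = i' := by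
  have h5 : y = y' := by
    rcases lt_trichotomy y y' with h6 | h6 | h6
    · nlinarith
    · exact h6
    · nlinarith
  subst h5
  exact ⟨rfl, by linarith⟩

lemma lev_lt {H : ℕ} {t t' : ℤ} (h : t < t') : (H + 1 : ℤ) * t + (H + 1) ≤ (H + 1) * t' := by
  nlinarith

/-! ### runs of `J` and runs of `I` -/

/-- cells with all cells between them in `A` are in one run -/
lemma lo_between {A : Finset (ℤ × ℤ)} {p : ℤ × ℤ} {x : ℤ} (hx : x ≤ p.1)
    (h : ∀ z, x ≤ z → z ≤ p.1 → (z, p.2) ∈ A) : lo A p ≤ x := by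
  by_contra hcon
  push Not at hcon
  have h1 := lo_spec (A := A) (p := p)
  exact h1.2 (h _ (by omega) h1.1)

lemma hi_between {A : Finset (ℤ × ℤ)} {p : ℤ × ℤ} {x : ℤ} (_hx : p.1 ≤ x)
    (h : ∀ z, p.1 ≤ z → z < x → (z, p.2) ∈ A) : x ≤ hi A p := by
  by_contra hcon
  push Not at hcon
  have h1 := hi_spec (A := A) (p := p)
  exact h1.2 (h _ h1.1 hcon)

namespace CDom
variable {C : CDom}

lemma lo_I_J {p : ℤ × ℤ} (hp : p ∈ C.J) : lo C.I p ≤ lo C.J p :=
  lo_between (lo_le hp) fun _ h1 h2 => (mem_J.1 (mem_of_lo h1 h2)).1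

lemma hi_J_I {p : ℤ × ℤ} (hp : p ∈ C.J) : hi C.J p ≤ hi C.I p :=
  hi_between (lt_hi hp).le fun _ h1 h2 => (mem_J.1 (mem_of_hi h1 h2)).1

lemma lo_I_J' {p : ℤ × ℤ} (hp : p ∈ C.J) : lo C.I (p.1, p.2 + 1) ≤ lo C.J p :=
  lo_between (p := (p.1, p.2 + 1)) (lo_le hp) fun _ h1 h2 => (mem_J.1 (mem_of_lo (p := p) h1 h2)).2

lemma hi_J_I' {p : ℤ × ℤ} (hp : p ∈ C.J) : hi C.J p ≤ hi C.I (p.1, p.2 + 1) :=
  hi_between (p := (p.1, p.2 + 1)) (lt_hi hp).le fun _ h1 h2 => (mem_J.1 (mem_of_hi (p := p) h1 h2)).2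

variable (C) (k H D : ℕ)

/-! ### levels of the rooms -/

/-- the level of a room: rows are at the heights `[(H + 1) t, (H + 1) t + H]`, links at
`[(H + 1) t + H, (H + 1) (t + 1)]` -/
noncomputable def lvl : (C.shape k H D).Q → ℤ
  | .inl (p, i) => (k + 1) * p.1.2 + (i : ℕ)
  | .inr (.inl (p, i)) => (k + 1) * p.1.2 + (i : ℕ)
  | .inr (.inr p) => (k + 1) * p.1.2 + k

variable {C k H D}

lemma yb_row (r : (C.shape k H D).R) : (C.shape k H D).yb (.inl r) = (H + 1) * C.lvl k H D (.inl r) := by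
  obtain ⟨p, i⟩ := r
  exact un_eq k H p.1.2 (i : ℕ)

lemma yt_row (r : (C.shape k H D).R) : (C.shape k H D).yt (.inl r) = (H + 1) * C.lvl k H D (.inl r) + H := by
  obtain ⟨p, i⟩ := r
  show un k H * p.1.2 + (i : ℕ) * (H + 1) + H = _
  rw [un_eq]
  rfl

lemma yb_link (l : (C.shape k H D).K) :
    (C.shape k H D).yb (.inr l) = (H + 1) * C.lvl k H D (.inr l) + H := by
  obtain ⟨p, i⟩ | p := l
  · show un k H * p.1.2 + (i : ℕ) * (H + 1) + H = _
    rw [un_eq]
    rfl
  · show un k H * (p.1.2 + 1) - 1 = (H + 1) * ((k + 1) * p.1.2 + k) + H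
    unfold un
    ring

lemma yt_link (l : (C.shape k H D).K) :
    (C.shape k H D).yt (.inr l) = (H + 1) * C.lvl k H D (.inr l) + H + 1 := by
  obtain ⟨p, i⟩ | p := l
  · show un k H * p.1.2 + (i : ℕ) * (H + 1) + H + 1 = _
    rw [un_eq]
    rfl
  · show un k H * (p.1.2 + 1) = (H + 1) * ((k + 1) * p.1.2 + k) + H + 1
    unfold un
    ring

/-! ### basic properties -/

section ok
variable (P : Par k H D)
include P

lemma x_lt (q : (C.shape k H D).Q) : (C.shape k H D).xl q < (C.shape k H D).xr q := by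
  have hs := P.small
  have hu := un_pos k H
  obtain ⟨p, i⟩ | ⟨p, i⟩ | p := q
  · have h1 := start_lt_hi p.2
    show un k H * p.1.1 < un k H * hi C.I p.1
    nlinarith
  · have h1 := start_lt_hi p.2
    show un k H * p.1.1 + D < un k H * hi C.I p.1 - D
    nlinarith
  · have h1 := start_lt_hi p.2
    show un k H * p.1.1 + D < un k H * hi C.J p.1 - D
    nlinarith

lemma y_lt (q : (C.shape k H D).Q) : (C.shape k H D).yb q < (C.shape k H D).yt q := by
  have h1 := P.H_pos
  obtain r | l := q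
  · rw [yb_row, yt_row]
    omega
  · rw [yb_link, yt_link]
    omega

omit P in
lemma lvl_dn (l : (C.shape k H D).K) :
    C.lvl k H D (.inl ((C.shape k H D).dn l)) = C.lvl k H D (.inr l) := by
  obtain ⟨p, i⟩ | p := l
  · rfl
  · show (k + 1 : ℤ) * p.1.2 + (Fin.last k : ℕ) = (k + 1 : ℤ) * p.1.2 + k
    rw [Fin.val_last]

omit P in
lemma lvl_up (l : (C.shape k H D).K) :
    C.lvl k H D (.inl ((C.shape k H D).up l)) = C.lvl k H D (.inr l) + 1 := by
  obtain ⟨p, i⟩ | p := l
  · show (k + 1 : ℤ) * p.1.2 + (i.succ : ℕ) = (k + 1 : ℤ) * p.1.2 + (i : ℕ) + 1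
    rw [Fin.val_succ]
    push_cast
    ring
  · show (k + 1 : ℤ) * (p.1.2 + 1) + ((0 : Fin (k + 1)) : ℕ) = (k + 1 : ℤ) * p.1.2 + k + 1
    rw [Fin.val_zero]
    push_cast
    ring

omit P in
lemma on_y (a b : (C.shape k H D).Q) (h : (C.shape k H D).On a b) :
    (C.shape k H D).yt a = (C.shape k H D).yb b := by
  obtain r | l := a <;> obtain r' | l' := b
  · exact h.elim
  · have h1 : (C.shape k H D).dn l' = r := h
    subst h1
    rw [yt_row, yb_link, lvl_dn]
  · have h1 : (C.shape k H D).up l = r' := h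
    subst h1
    rw [yt_link, yb_row, lvl_up]
    ring
  · exact h.elim

lemma dn_l (l : (C.shape k H D).K) :
    (C.shape k H D).xl (.inl ((C.shape k H D).dn l)) < (C.shape k H D).xl (.inr l) := by
  have hD := P.D_pos
  have hu := un_pos k H
  obtain ⟨p, i⟩ | p := l
  · show un k H * p.1.1 < un k H * p.1.1 + D
    omega
  · show un k H * lo C.I p.1 < un k H * p.1.1 + D
    have h1 := lo_I_J (mem_starts.1 p.2).1
    rw [lo_start p.2] at h1
    nlinarith

lemma dn_r (l : (C.shape k H D).K) :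
    (C.shape k H D).xr (.inr l) < (C.shape k H D).xr (.inl ((C.shape k H D).dn l)) := by
  have hD := P.D_pos
  have hu := un_pos k H
  obtain ⟨p, i⟩ | p := l
  · show un k H * hi C.I p.1 - D < un k H * hi C.I p.1
    omega
  · show un k H * hi C.J p.1 - D < un k H * hi C.I (lo C.I p.1, p.1.2)
    have hp := (mem_J.1 (mem_starts.1 p.2).1).1
    rw [hi_congr le_rfl (lo_lt_hi hp)]
    have h1 := hi_J_I (mem_starts.1 p.2).1
    nlinarith

lemma up_l (l : (C.shape k H D).K) :
    (C.shape k H D).xl (.inl ((C.shape k H D).up l)) < (C.shape k H D).xl (.inr l) := by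
  have hD := P.D_pos
  have hu := un_pos k H
  obtain ⟨p, i⟩ | p := l
  · show un k H * p.1.1 < un k H * p.1.1 + D
    omega
  · show un k H * lo C.I (p.1.1, p.1.2 + 1) < un k H * p.1.1 + D
    have h1 := lo_I_J' (mem_starts.1 p.2).1
    rw [lo_start p.2] at h1
    nlinarith

lemma up_r (l : (C.shape k H D).K) :
    (C.shape k H D).xr (.inr l) < (C.shape k H D).xr (.inl ((C.shape k H D).up l)) := by
  have hD := P.D_pos
  have hu := un_pos k H
  obtain ⟨p, i⟩ | p := l
  · show un k H * hi C.I p.1 - D < un k H * hi C.I p.1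
    omega
  · show un k H * hi C.J p.1 - D < un k H * hi C.I (lo C.I (p.1.1, p.1.2 + 1), p.1.2 + 1)
    have hp := (mem_J.1 (mem_starts.1 p.2).1).2
    rw [hi_congr (p := (p.1.1, p.1.2 + 1)) le_rfl (lo_lt_hi hp)]
    have h1 := hi_J_I' (mem_starts.1 p.2).1
    nlinarith

/-! ### separation -/

omit P in
lemma sep_rr {r r' : (C.shape k H D).R} (hne : r ≠ r') :
    (C.shape k H D).xr (.inl r) < (C.shape k H D).xl (.inl r') ∨
    (C.shape k H D).xr (.inl r') < (C.shape k H D).xl (.inl r) ∨
    C.lvl k H D (.inl r) ≠ C.lvl k H D (.inl r') := by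
  have hu := un_pos k H
  obtain ⟨p, i⟩ := r
  obtain ⟨p', i'⟩ := r'
  by_cases hl : C.lvl k H D (.inl (p, i)) = C.lvl k H D (.inl (p', i'))
  · obtain ⟨h1, h2⟩ := lev_inj (i := ((i : ℕ) : ℤ)) (i' := ((i' : ℕ) : ℤ)) (by positivity) (by have := i.2; omega)
      (by positivity) (by have := i'.2; omega) hl
    have h3 : i = i' := Fin.ext (by exact_mod_cast h2)
    have h4 : p.1 ≠ p'.1 := fun h => hne (Prod.ext (Subtype.ext h) h3)
    rcases start_sep p.2 p'.2 h1 h4 with h5 | h5
    · left
      show un k H * hi C.I p.1 < un k H * p'.1.1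
      nlinarith
    · right; left
      show un k H * hi C.I p'.1 < un k H * p.1.1
      nlinarith
  · exact Or.inr (Or.inr hl)

lemma sep_rl {r : (C.shape k H D).R} {l : (C.shape k H D).K} (hne : (C.shape k H D).dn l ≠ r)
    (hl : C.lvl k H D (.inl r) = C.lvl k H D (.inr l)) :
    (C.shape k H D).xr (.inl r) < (C.shape k H D).xl (.inr l) ∨
    (C.shape k H D).xr (.inr l) < (C.shape k H D).xl (.inl r) := by
  have h1 := sep_rr hne
  rw [lvl_dn, ← hl] at h1
  have h2 := dn_l (C := C) P l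
  have h3 := dn_r (C := C) P l
  rcases h1 with h1 | h1 | h1
  · right; exact h3.trans h1
  · left; exact h1.trans h2
  · exact absurd rfl h1

lemma sep_rl' {r : (C.shape k H D).R} {l : (C.shape k H D).K} (hne : (C.shape k H D).up l ≠ r)
    (hl : C.lvl k H D (.inl r) = C.lvl k H D (.inr l) + 1) :
    (C.shape k H D).xr (.inl r) < (C.shape k H D).xl (.inr l) ∨
    (C.shape k H D).xr (.inr l) < (C.shape k H D).xl (.inl r) := by
  have h1 := sep_rr hne
  rw [lvl_up, ← hl] at h1
  have h2 := up_l (C := C) P l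
  have h3 := up_r (C := C) P l
  rcases h1 with h1 | h1 | h1
  · right; exact h3.trans h1
  · left; exact h1.trans h2
  · exact absurd rfl h1

lemma sep_ll {l l' : (C.shape k H D).K} (hne : l ≠ l') :
    (C.shape k H D).xr (.inr l) < (C.shape k H D).xl (.inr l') ∨
    (C.shape k H D).xr (.inr l') < (C.shape k H D).xl (.inr l) ∨
    C.lvl k H D (.inr l) ≠ C.lvl k H D (.inr l') := by
  have hu := un_pos k H
  have hD := P.D_pos
  by_cases hl : C.lvl k H D (.inr l) = C.lvl k H D (.inr l')
  · obtain ⟨p, i⟩ | p := l <;> obtain ⟨p', i'⟩ | p' := l'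
    · obtain ⟨h1, h2⟩ := lev_inj (k := k) (i := ((i : ℕ) : ℤ)) (i' := ((i' : ℕ) : ℤ)) (by positivity)
        (by have := i.2; omega) (by positivity) (by have := i'.2; omega) hl
      have h3 : i = i' := Fin.ext (by exact_mod_cast h2)
      have h4 : p.1 ≠ p'.1 := fun h => hne (congrArg Sum.inl (Prod.ext (Subtype.ext h) h3))
      rcases start_sep p.2 p'.2 h1 h4 with h5 | h5
      · left
        show un k H * hi C.I p.1 - D < un k H * p'.1.1 + D
        nlinarith
      · right; left
        show un k H * hi C.I p'.1 - D < un k H * p.1.1 + D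
        nlinarith
    · exfalso
      obtain ⟨-, h2⟩ := lev_inj (k := k) (i := ((i : ℕ) : ℤ)) (i' := (k : ℤ)) (by positivity)
        (by have := i.2; omega) (by positivity) le_rfl hl
      have := i.2
      omega
    · exfalso
      obtain ⟨-, h2⟩ := lev_inj (k := k) (i' := ((i' : ℕ) : ℤ)) (i := (k : ℤ)) (by positivity)
        le_rfl (by positivity) (by have := i'.2; omega) hl
      have := i'.2
      omega
    · obtain ⟨h1, -⟩ := lev_inj (k := k) (i' := (k : ℤ)) (i := (k : ℤ)) (by positivity)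
        le_rfl (by positivity) le_rfl hl
      have h4 : p.1 ≠ p'.1 := fun h => hne (congrArg Sum.inr (Subtype.ext h))
      rcases start_sep p.2 p'.2 h1 h4 with h5 | h5
      · left
        show un k H * hi C.J p.1 - D < un k H * p'.1.1 + D
        nlinarith
      · right; left
        show un k H * hi C.J p'.1 - D < un k H * p.1.1 + D
        nlinarith
  · exact Or.inr (Or.inr hl)

lemma sep (a b : (C.shape k H D).Q) (hne : a ≠ b) (h1 : ¬ (C.shape k H D).On a b) (h2 : ¬ (C.shape k H D).On b a) :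
    (C.shape k H D).xr a < (C.shape k H D).xl b ∨ (C.shape k H D).xr b < (C.shape k H D).xl a ∨
    (C.shape k H D).yt a < (C.shape k H D).yb b ∨ (C.shape k H D).yt b < (C.shape k H D).yb a := by
  have hH := P.H_pos
  obtain r | l := a <;> obtain r' | l' := b
  · rcases sep_rr (fun h => hne (congrArg Sum.inl h) : r ≠ r') with h | h | h
    · exact Or.inl h
    · exact Or.inr (Or.inl h)
    · right; right
      rw [yb_row, yt_row, yb_row, yt_row]
      rcases lt_or_gt_of_ne h with h3 | h3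
      · left; have := lev_lt (H := H) h3; omega
      · right; have := lev_lt (H := H) h3; omega
  · by_cases e1 : C.lvl k H D (.inl r) = C.lvl k H D (.inr l')
    · rcases sep_rl P h1 e1 with h | h
      · exact Or.inl h
      · exact Or.inr (Or.inl h)
    · by_cases e2 : C.lvl k H D (.inl r) = C.lvl k H D (.inr l') + 1
      · rcases sep_rl' P h2 e2 with h | h
        · exact Or.inl h
        · exact Or.inr (Or.inl h)
      · right; right
        rw [yb_row, yt_row, yb_link, yt_link]
        rcases lt_or_gt_of_ne e1 with h3 | h3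
        · left; have := lev_lt (H := H) h3; omega
        · right
          have h4 : C.lvl k H D (.inr l') + 1 < C.lvl k H D (.inl r) := lt_of_le_of_ne h3 (Ne.symm e2)
          have := lev_lt (H := H) h4
          nlinarith
  · by_cases e1 : C.lvl k H D (.inl r') = C.lvl k H D (.inr l)
    · rcases sep_rl P h2 e1 with h | h
      · exact Or.inr (Or.inl h)
      · exact Or.inl h
    · by_cases e2 : C.lvl k H D (.inl r') = C.lvl k H D (.inr l) + 1
      · rcases sep_rl' P h1 e2 with h | h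
        · exact Or.inr (Or.inl h)
        · exact Or.inl h
      · right; right
        rw [yb_row, yt_row, yb_link, yt_link]
        rcases lt_or_gt_of_ne e1 with h3 | h3
        · right; have := lev_lt (H := H) h3; omega
        · left
          have h4 : C.lvl k H D (.inr l) + 1 < C.lvl k H D (.inl r') := lt_of_le_of_ne h3 (Ne.symm e2)
          have := lev_lt (H := H) h4
          nlinarith
  · rcases sep_ll P (fun h => hne (congrArg Sum.inr h) : l ≠ l') with h | h | h
    · exact Or.inl h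
    · exact Or.inr (Or.inl h)
    · right; right
      rw [yb_link, yt_link, yb_link, yt_link]
      rcases lt_or_gt_of_ne h with h3 | h3
      · left; have := lev_lt (H := H) h3; omega
      · right; have := lev_lt (H := H) h3; omega

end ok

/-! ### connectedness -/

/-- joined rooms -/
abbrev Cn (a b : (C.shape k H D).Q) : Prop :=
  ReflTransGen (fun u v => (C.shape k H D).On u v ∨ (C.shape k H D).On v u) a b

lemma Cn.symm {a b : (C.shape k H D).Q} (h : Cn a b) : Cn b a := by
  induction h with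
  | refl => exact ReflTransGen.refl
  | tail _ hbc ih => exact ReflTransGen.head hbc.symm ih

lemma cn_dn (l : (C.shape k H D).K) : Cn (.inr l) (.inl ((C.shape k H D).dn l)) :=
  ReflTransGen.single (Or.inr rfl)

lemma cn_up (l : (C.shape k H D).K) : Cn (.inr l) (.inl ((C.shape k H D).up l)) :=
  ReflTransGen.single (Or.inl rfl)

/-- the rows of one run are joined -/
lemma cn_row (p : {p : ℤ × ℤ // p ∈ starts C.I}) (i : Fin (k + 1)) :
    Cn (C := C) (k := k) (H := H) (D := D) (.inl (p, i)) (.inl (p, 0)) := by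
  induction i using Fin.induction with
  | zero => exact ReflTransGen.refl
  | succ i ih =>
    have h1 := cn_up (C := C) (k := k) (H := H) (D := D) (.inl (p, i))
    have h2 := cn_dn (C := C) (k := k) (H := H) (D := D) (.inl (p, i))
    exact (h1.symm.trans h2).trans ih

/-- the lowest row of the run of a cell -/
noncomputable def base (C : CDom) (k H D : ℕ) (p : ℤ × ℤ) (hp : p ∈ C.I) : (C.shape k H D).Q :=
  .inl (⟨(lo C.I p, p.2), st_mem hp⟩, 0)

lemma cn_base {p : ℤ × ℤ} (hp : p ∈ C.I) (s : {p : ℤ × ℤ // p ∈ starts C.I}) (hs : s.1 = (lo C.I p, p.2))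
    (i : Fin (k + 1)) : Cn (.inl (s, i)) (base C k H D p hp) := by
  have h1 := cn_row (C := C) (k := k) (H := H) (D := D) s i
  have h2 : s = ⟨(lo C.I p, p.2), st_mem hp⟩ := Subtype.ext hs
  unfold base
  rw [← h2]
  exact h1

lemma cn_up_cell {p : ℤ × ℤ} (hp : p ∈ C.I) (hp' : (p.1, p.2 + 1) ∈ C.I) :
    Cn (base C k H D p hp) (base C k H D (p.1, p.2 + 1) hp') := by
  have hJ : p ∈ C.J := mem_J.2 ⟨hp, hp'⟩
  set l : (C.shape k H D).K := .inr ⟨(lo C.J p, p.2), st_mem hJ⟩ with hl
  have h1 := cn_dn (C := C) (k := k) (H := H) (D := D) l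
  have h2 := cn_up (C := C) (k := k) (H := H) (D := D) l
  have h3 : Cn (.inl ((C.shape k H D).dn l)) (base C k H D p hp) := by
    refine cn_base hp _ ?_ _
    show (lo C.I (lo C.J p, p.2), p.2) = (lo C.I p, p.2)
    rw [lo_congr (lo_I_J hJ) (lt_of_le_of_lt (lo_le hJ) (lt_hi hp))]
  have h4 : Cn (.inl ((C.shape k H D).up l)) (base C k H D (p.1, p.2 + 1) hp') := by
    refine cn_base hp' _ ?_ _
    show (lo C.I (lo C.J p, p.2 + 1), p.2 + 1) = (lo C.I (p.1, p.2 + 1), p.2 + 1)
    rw [lo_congr (p := (p.1, p.2 + 1)) (lo_I_J' hJ) (lt_of_le_of_lt (lo_le hJ) (lt_hi hp'))]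
  exact h3.symm.trans (h1.symm.trans (h2.trans h4))

lemma base_congr {p q : ℤ × ℤ} (hp : p ∈ C.I) (hq : q ∈ C.I) (h : lo C.I p = lo C.I q) (h' : p.2 = q.2) :
    base C k H D p hp = base C k H D q hq := by
  unfold base
  have : (⟨(lo C.I p, p.2), st_mem hp⟩ : {p : ℤ × ℤ // p ∈ starts C.I}) = ⟨(lo C.I q, q.2), st_mem hq⟩ :=
    Subtype.ext (Prod.ext h h')
  rw [this]

lemma cn_adj {p q : ℤ × ℤ} (hp : p ∈ C.I) (hq : q ∈ C.I) (h : Adj p q) :
    Cn (base C k H D p hp) (base C k H D q hq) := by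
  rcases h.cases with ⟨h1, h2⟩ | ⟨h1, h2⟩ | ⟨h1, h2⟩ | ⟨h1, h2⟩
  · have e : q = (p.1 + 1, p.2) := Prod.ext h1 h2
    have h3 : lo C.I q = lo C.I p := by
      have h4 : p.1 + 1 < hi C.I p := by
        have h5 := lt_hi hp
        rcases lt_or_eq_of_le (Int.add_one_le_iff.2 h5) with h6 | h6
        · exact h6
        · exfalso
          have h7 := hi_not (A := C.I) (p := p)
          rw [← h6, ← e] at h7
          exact h7 hq
      rw [e]
      exact lo_congr (by have := lo_le hp; omega) h4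
    rw [base_congr hp hq h3.symm h2.symm]
  · have e : q = (p.1, p.2 + 1) := Prod.ext h1 h2
    subst e
    exact cn_up_cell hp hq
  · have e : p = (q.1 + 1, q.2) := Prod.ext (by omega) h2.symm
    have h3 : lo C.I p = lo C.I q := by
      have h4 : q.1 + 1 < hi C.I q := by
        have h5 := lt_hi hq
        rcases lt_or_eq_of_le (Int.add_one_le_iff.2 h5) with h6 | h6
        · exact h6
        · exfalso
          have h7 := hi_not (A := C.I) (p := q)
          rw [← h6, ← e] at h7
          exact h7 hp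
      rw [e]
      exact lo_congr (by have := lo_le hq; omega) h4
    rw [base_congr hp hq h3 h2.symm]
  · have e : p = (q.1, q.2 + 1) := Prod.ext h1.symm (by omega)
    subst e
    exact (cn_up_cell hq hp).symm

lemma cn_jn {p q : ℤ × ℤ} (hp : p ∈ C.I) (hq : q ∈ C.I) (h : Jn (C.I : Set (ℤ × ℤ)) p q) :
    Cn (base C k H D p hp) (base C k H D q hq) := by
  induction h with
  | refl => exact ReflTransGen.refl
  | @tail b c hab hbc ih =>
    have hb : b ∈ C.I := hbc.2.1
    exact (ih hb).trans (cn_adj hb hq hbc.1)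

/-- every room is joined to a base room -/
lemma exists_base (q : (C.shape k H D).Q) : ∃ p, ∃ hp : p ∈ C.I, Cn q (base C k H D p hp) := by
  have hrow : ∀ r : (C.shape k H D).R, ∃ p, ∃ hp : p ∈ C.I, Cn (.inl r) (base C k H D p hp) := by
    rintro ⟨p, i⟩
    refine ⟨p.1, (mem_starts.1 p.2).1, cn_base _ p ?_ i⟩
    exact Prod.ext (lo_start p.2).symm rfl
  obtain r | l := q
  · exact hrow r
  · obtain ⟨p, hp, h⟩ := hrow ((C.shape k H D).dn l)
    exact ⟨p, hp, (cn_dn l).trans h⟩

theorem conn (hC : C.Ok) (a b : (C.shape k H D).Q) : Cn a b := by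
  obtain ⟨p, hp, h1⟩ := exists_base a
  obtain ⟨q, hq, h2⟩ := exists_base b
  exact h1.trans ((cn_jn hp hq (hC.conn p hp q hq)).trans h2.symm)

end CDom
end Comb
end Full
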